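import Mathlib

set_option autoImplicit false
set_option linter.unusedSectionVars false
set_option linter.unusedVariables false

namespace Pool.Agent.Lib.MP_366c56_co

open Finset

variable {A B : Type*} [Fintype A] [DecidableEq A] [Fintype B] [DecidableEq B]

theorem clean (E : Finset (B × A)) (dB dA : ℕ)
    (hE : 2 * dB * Fintype.card B + 2 * dA * Fintype.card A < #E) :
    ∃ (A3 : Finset A) (B3 : Finset B) (NB : B → Finset A) (NA : A → Finset B),
      B3.Nonempty ∧ (∀ b ∈ B3, NB b ⊆ A3) ∧ (∀ w ∈ A3, NA w ⊆ B3) ∧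
      (∀ b ∈ B3, #(NB b) = dB) ∧ (∀ w ∈ A3, #(NA w) = dA) ∧
      (∀ b ∈ B3, ∀ w ∈ NB b, (b, w) ∈ E) ∧ (∀ w ∈ A3, ∀ b ∈ NA w, (b, w) ∈ E) ∧
      (∀ b ∈ B3, ∀ w ∈ A3, w ∈ NB b → b ∉ NA w) := by
  classical
  set g : Finset B × Finset A → ℤ := fun p =>
    (#(E.filter (fun e => e.1 ∈ p.1 ∧ e.2 ∈ p.2)) : ℤ) - 2 * dB * #p.1 - 2 * dA * #p.2 with hg
  obtain ⟨⟨B3, A3⟩, -, hmax⟩ := exists_max_image (univ : Finset (Finset B × Finset A)) g
    ⟨(univ, univ), mem_univ _⟩
  have hpos : 0 < g (B3, A3) := by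
    refine lt_of_lt_of_le ?_ (hmax (univ, univ) (mem_univ _))
    simp only [hg, mem_univ, true_and, filter_true, card_univ]
    have : ((2 * dB * Fintype.card B + 2 * dA * Fintype.card A : ℕ) : ℤ) < (#E : ℤ) := by
      exact_mod_cast hE
    push_cast at this
    linarith
  set E3 : Finset (B × A) := E.filter (fun e => e.1 ∈ B3 ∧ e.2 ∈ A3) with hE3
  have hB3ne : B3.Nonempty := by
    rw [nonempty_iff_ne_empty]
    intro h
    have h1 : E3 = ∅ := by
      rw [hE3, filter_eq_empty_iff]
      intro e _ he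
      rw [h] at he
      exact absurd he.1 (notMem_empty _)
    have h2 : g (B3, A3) = (#E3 : ℤ) - 2 * dB * #B3 - 2 * dA * #A3 := rfl
    rw [h2, h1, h] at hpos
    simp only [card_empty] at hpos
    have h3 : (0 : ℤ) ≤ 2 * dA * #A3 := by positivity
    push_cast at hpos
    linarith
  have hdegB : ∀ b ∈ B3, 2 * dB ≤ #(E3.filter (fun e => e.1 = b)) := by
    intro b hb
    have h1 := hmax (B3.erase b, A3) (mem_univ _)
    simp only [hg] at h1
    have h2 : #(E.filter (fun e => e.1 ∈ B3.erase b ∧ e.2 ∈ A3)) + #(E3.filter (fun e => e.1 = b)) =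
        #E3 := by
      have h3 : E.filter (fun e => e.1 ∈ B3.erase b ∧ e.2 ∈ A3) =
          E3.filter (fun e => ¬ e.1 = b) := by
        ext e
        simp only [hE3, mem_filter, mem_erase]
        tauto
      rw [h3, add_comm]
      exact card_filter_add_card_filter_not (s := E3) (fun e => e.1 = b)
    have h3 := card_erase_add_one hb
    have h4 : (#(E.filter (fun e => e.1 ∈ B3.erase b ∧ e.2 ∈ A3)) : ℤ) +
      #(E3.filter (fun e => e.1 = b)) = #E3 := by exact_mod_cast h2
    have h5 : (#(B3.erase b) : ℤ) + 1 = #B3 := by exact_mod_cast h3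
    have h6 : (2 * dB : ℤ) ≤ #(E3.filter (fun e => e.1 = b)) := by
      rw [← h5] at h1
      linarith
    exact_mod_cast h6
  have hdegA : ∀ w ∈ A3, 2 * dA ≤ #(E3.filter (fun e => e.2 = w)) := by
    intro w hw
    have h1 := hmax (B3, A3.erase w) (mem_univ _)
    simp only [hg] at h1
    have h2 : #(E.filter (fun e => e.1 ∈ B3 ∧ e.2 ∈ A3.erase w)) + #(E3.filter (fun e => e.2 = w)) =
        #E3 := by
      have h3 : E.filter (fun e => e.1 ∈ B3 ∧ e.2 ∈ A3.erase w) =
          E3.filter (fun e => ¬ e.2 = w) := by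
        ext e
        simp only [hE3, mem_filter, mem_erase]
        tauto
      rw [h3, add_comm]
      exact card_filter_add_card_filter_not (s := E3) (fun e => e.2 = w)
    have h3 := card_erase_add_one hw
    have h4 : (#(E.filter (fun e => e.1 ∈ B3 ∧ e.2 ∈ A3.erase w)) : ℤ) +
      #(E3.filter (fun e => e.2 = w)) = #E3 := by exact_mod_cast h2
    have h5 : (#(A3.erase w) : ℤ) + 1 = #A3 := by exact_mod_cast h3
    have h6 : (2 * dA : ℤ) ≤ #(E3.filter (fun e => e.2 = w)) := by
      rw [← h5] at h1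
      linarith
    exact_mod_cast h6
  -- slots
  let t : ({b // b ∈ B3} × Fin dB) ⊕ ({w // w ∈ A3} × Fin dA) → Finset (B × A) := fun x =>
    match x with
    | Sum.inl p => E3.filter (fun e => e.1 = p.1.1)
    | Sum.inr p => E3.filter (fun e => e.2 = p.1.1)
  have hHall : ∀ s : Finset (({b // b ∈ B3} × Fin dB) ⊕ ({w // w ∈ A3} × Fin dA)),
      #s ≤ #(s.biUnion t) := by
    intro s
    set Q : Finset {b // b ∈ B3} := s.toLeft.image (fun p => p.1) with hQ
    set X : Finset {w // w ∈ A3} := s.toRight.image (fun p => p.1) with hX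
    have h1 : #s.toLeft ≤ #Q * dB := by
      have : s.toLeft ⊆ Q ×ˢ (univ : Finset (Fin dB)) := by
        intro p hp
        rw [mem_product]
        exact ⟨mem_image_of_mem _ hp, mem_univ _⟩
      have h := card_le_card this
      rwa [card_product, card_univ, Fintype.card_fin] at h
    have h2 : #s.toRight ≤ #X * dA := by
      have : s.toRight ⊆ X ×ˢ (univ : Finset (Fin dA)) := by
        intro p hp
        rw [mem_product]
        exact ⟨mem_image_of_mem _ hp, mem_univ _⟩
      have h := card_le_card this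
      rwa [card_product, card_univ, Fintype.card_fin] at h
    have h3 : #s.toLeft + #s.toRight = #s := card_toLeft_add_card_toRight
    have h4 : #Q * (2 * dB) ≤ #(s.biUnion t) := by
      calc #Q * (2 * dB) = ∑ b ∈ Q, 2 * dB := by rw [sum_const, smul_eq_mul]
        _ ≤ ∑ b ∈ Q, #(E3.filter (fun e => e.1 = b.1)) :=
            sum_le_sum (fun b _ => hdegB b.1 b.2)
        _ = #(Q.biUnion (fun b => E3.filter (fun e => e.1 = b.1))) := by
            rw [card_biUnion]
            intro x _ y _ hxy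
            rw [Function.onFun, disjoint_left]
            intro e he he'
            exact hxy (Subtype.ext ((mem_filter.1 he).2.symm.trans (mem_filter.1 he').2))
        _ ≤ #(s.biUnion t) := by
            apply card_le_card
            intro e he
            rw [mem_biUnion] at he ⊢
            obtain ⟨b, hb, he⟩ := he
            rw [hQ, mem_image] at hb
            obtain ⟨p, hp, rfl⟩ := hb
            rw [mem_toLeft] at hp
            exact ⟨Sum.inl p, hp, he⟩
    have h5 : #X * (2 * dA) ≤ #(s.biUnion t) := by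
      calc #X * (2 * dA) = ∑ b ∈ X, 2 * dA := by rw [sum_const, smul_eq_mul]
        _ ≤ ∑ b ∈ X, #(E3.filter (fun e => e.2 = b.1)) :=
            sum_le_sum (fun b _ => hdegA b.1 b.2)
        _ = #(X.biUnion (fun b => E3.filter (fun e => e.2 = b.1))) := by
            rw [card_biUnion]
            intro x _ y _ hxy
            rw [Function.onFun, disjoint_left]
            intro e he he'
            exact hxy (Subtype.ext ((mem_filter.1 he).2.symm.trans (mem_filter.1 he').2))
        _ ≤ #(s.biUnion t) := by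
            apply card_le_card
            intro e he
            rw [mem_biUnion] at he ⊢
            obtain ⟨b, hb, he⟩ := he
            rw [hX, mem_image] at hb
            obtain ⟨p, hp, rfl⟩ := hb
            rw [mem_toRight] at hp
            exact ⟨Sum.inr p, hp, he⟩
    have h6 : #Q * (2 * dB) = 2 * (#Q * dB) := by ring
    have h7 : #X * (2 * dA) = 2 * (#X * dA) := by ring
    omega
  obtain ⟨f, hfinj, hft⟩ := (Finset.all_card_le_biUnion_card_iff_exists_injective t).1 hHall
  have hfl : ∀ (b : {b // b ∈ B3}) (i : Fin dB), f (Sum.inl (b, i)) ∈ E3 ∧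
      (f (Sum.inl (b, i))).1 = b.1 := fun b i => mem_filter.1 (hft (Sum.inl (b, i)))
  have hfr : ∀ (w : {w // w ∈ A3}) (i : Fin dA), f (Sum.inr (w, i)) ∈ E3 ∧
      (f (Sum.inr (w, i))).2 = w.1 := fun w i => mem_filter.1 (hft (Sum.inr (w, i)))
  have hE3m : ∀ e, e ∈ E3 → e ∈ E ∧ e.1 ∈ B3 ∧ e.2 ∈ A3 := fun e he => mem_filter.1 he
  refine ⟨A3, B3, fun b => if h : b ∈ B3 then univ.image (fun i => (f (Sum.inl (⟨b, h⟩, i))).2)
    else ∅, fun w => if h : w ∈ A3 then univ.image (fun i => (f (Sum.inr (⟨w, h⟩, i))).1)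
    else ∅, hB3ne, ?_, ?_, ?_, ?_, ?_, ?_, ?_⟩
  · intro b hb a ha
    simp only [dif_pos hb, mem_image, mem_univ, true_and] at ha
    obtain ⟨i, rfl⟩ := ha
    exact (hE3m _ (hfl ⟨b, hb⟩ i).1).2.2
  · intro w hw b hb
    simp only [dif_pos hw, mem_image, mem_univ, true_and] at hb
    obtain ⟨i, rfl⟩ := hb
    exact (hE3m _ (hfr ⟨w, hw⟩ i).1).2.1
  · intro b hb
    simp only [dif_pos hb]
    rw [card_image_of_injective, card_univ, Fintype.card_fin]
    intro i j hij
    have h1 := (hfl ⟨b, hb⟩ i).2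
    have h2 := (hfl ⟨b, hb⟩ j).2
    have h3 : f (Sum.inl (⟨b, hb⟩, i)) = f (Sum.inl (⟨b, hb⟩, j)) :=
      Prod.ext (h1.trans h2.symm) hij
    have h4 := hfinj h3
    simpa using h4
  · intro w hw
    simp only [dif_pos hw]
    rw [card_image_of_injective, card_univ, Fintype.card_fin]
    intro i j hij
    have h1 := (hfr ⟨w, hw⟩ i).2
    have h2 := (hfr ⟨w, hw⟩ j).2
    have h3 : f (Sum.inr (⟨w, hw⟩, i)) = f (Sum.inr (⟨w, hw⟩, j)) :=
      Prod.ext hij (h1.trans h2.symm)
    have h4 := hfinj h3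
    simpa using h4
  · intro b hb w hw
    simp only [dif_pos hb, mem_image, mem_univ, true_and] at hw
    obtain ⟨i, rfl⟩ := hw
    have h1 := hfl ⟨b, hb⟩ i
    have h2 : (b, (f (Sum.inl (⟨b, hb⟩, i))).2) = f (Sum.inl (⟨b, hb⟩, i)) :=
      Prod.ext h1.2.symm rfl
    rw [h2]
    exact (hE3m _ h1.1).1
  · intro w hw b hb
    simp only [dif_pos hw, mem_image, mem_univ, true_and] at hb
    obtain ⟨i, rfl⟩ := hb
    have h1 := hfr ⟨w, hw⟩ i
    have h2 : ((f (Sum.inr (⟨w, hw⟩, i))).1, w) = f (Sum.inr (⟨w, hw⟩, i)) :=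
      Prod.ext rfl h1.2.symm
    rw [h2]
    exact (hE3m _ h1.1).1
  · intro b hb w hw hwb hbw
    simp only [dif_pos hb, mem_image, mem_univ, true_and] at hwb
    simp only [dif_pos hw, mem_image, mem_univ, true_and] at hbw
    obtain ⟨i, hi⟩ := hwb
    obtain ⟨j, hj⟩ := hbw
    have h1 : f (Sum.inl (⟨b, hb⟩, i)) = f (Sum.inr (⟨w, hw⟩, j)) := by
      apply Prod.ext
      · rw [hj]; exact (hfl ⟨b, hb⟩ i).2
      · rw [hi]; exact (hfr ⟨w, hw⟩ j).2.symm
    have h2 := hfinj h1
    simp at h2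

end Pool.Agent.Lib.MP_366c56_co
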