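import Pool.Agent.Lib.MP_366c56_co.Games

set_option autoImplicit false
set_option linter.unusedSectionVars false
set_option linter.unusedVariables false

namespace Pool.Agent.Lib.MP_366c56_co

open Finset

section tree

variable {V : Type*} [Fintype V] [DecidableEq V] (T : SimpleGraph V)

lemma uniq_nbr (hac : T.IsAcyclic) (u0 : V) (S : Finset V)
    (hS : ∀ x ∈ S, ∃ p : T.Walk u0 x, ∀ y ∈ p.support, y ∈ S) (w u u' : V) (hw : w ∉ S)
    (hu : u ∈ S) (hu' : u' ∈ S) (h1 : T.Adj u w) (h2 : T.Adj u' w) : u = u' := by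
  classical
  by_contra hne
  obtain ⟨p, hp⟩ := hS u hu
  obtain ⟨p', hp'⟩ := hS u' hu'
  have huw : u ≠ w := fun h => hw (h ▸ hu)
  have hu'w : w ≠ u' := fun h => hw (h ▸ hu')
  let q1 : T.Path u u' := (p.reverse.append p').toPath
  let q2 : T.Path u u' := ⟨SimpleGraph.Walk.cons h1 (SimpleGraph.Walk.cons h2.symm
    SimpleGraph.Walk.nil), by
      rw [SimpleGraph.Walk.cons_isPath_iff, SimpleGraph.Walk.cons_isPath_iff]
      refine ⟨⟨SimpleGraph.Walk.IsPath.nil, ?_⟩, ?_⟩
      · simpa using hu'w
      · simp [huw, hne]⟩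
  have heq : q1 = q2 := (SimpleGraph.IsAcyclic.subsingleton_path hac u u').elim q1 q2
  have hw2 : w ∈ (q2 : T.Walk u u').support := by simp [q2]
  rw [← heq] at hw2
  have hw3 : w ∈ (p.reverse.append p').support :=
    SimpleGraph.Walk.support_bypass_subset_support _ hw2
  rw [SimpleGraph.Walk.mem_support_append_iff] at hw3
  rcases hw3 with h | h
  · rw [SimpleGraph.Walk.support_reverse, List.mem_reverse] at h
    exact hw (hp w h)
  · exact hw (hp' w h)

lemma closed_all (hc : T.Preconnected) (S : Set V) (u0 : V) (h0 : u0 ∈ S)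
    (hS : ∀ x ∈ S, ∀ y, T.Adj x y → y ∈ S) (v : V) : v ∈ S := by
  obtain ⟨p⟩ := hc u0 v
  induction p with
  | nil => exact h0
  | cons h p ih => exact ih (hS _ h0 _ h)

end tree

section grow

variable {V A B : Type*} [Fintype V] [DecidableEq V] [Fintype A] [DecidableEq A]
  [Fintype B] [DecidableEq B]

/-- A partial embedding. -/
structure Good (T : SimpleGraph V) [DecidableRel T.Adj] (col : V → Bool) (u0 : V)
    (NB : B → Finset A) (NA : A → Finset B) (A3 : Finset A) (B3 : Finset B) (n2 D D1 : ℕ)
    (Inv : Finset A → Finset B → (B → ℕ) → Prop)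
    (S : Finset V) (gA : V → A) (gB : V → B) (dP : B → ℕ) (use : B → ℕ) : Prop where
  hu0 : u0 ∈ S
  walk : ∀ x ∈ S, ∃ p : T.Walk u0 x, ∀ y ∈ p.support, y ∈ S
  full : ∀ x ∈ S, col x = true → ∀ y, T.Adj x y → y ∈ S
  cnt : #(S.filter (fun x => col x = true)) < #(S.filter (fun x => col x = false))
  injA : ∀ x ∈ S, ∀ y ∈ S, col x = true → col y = true → gA x = gA y → x = y
  injB : ∀ x ∈ S, ∀ y ∈ S, col x = false → col y = false → gB x = gB y → x = y
  memB : ∀ x ∈ S, col x = false → gB x ∈ B3
  memA : ∀ x ∈ S, col x = true → gA x ∈ A3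
  edge : ∀ u ∈ S, ∀ w ∈ S, T.Adj u w → col u = false → col w = true →
    gA w ∈ NB (gB u) ∨ gB u ∈ NA (gA w)
  val : Val NB D (fun b => {b}) dP B3 ((S.filter (fun x => col x = true)).image gA) (16 * n2)
  dle : ∀ b, dP b ≤ D
  dfresh : ∀ b ∉ (S.filter (fun x => col x = false)).image gB, dP b = D
  dem : ∀ v ∈ S, col v = false → D + #(T.neighborFinset v \ S) ≤ dP (gB v) + T.degree v
  ufresh : ∀ b ∉ (S.filter (fun x => col x = false)).image gB, use b = 0
  uuse : ∀ v ∈ S, col v = false → use (gB v) + D1 * #(T.neighborFinset v \ S) ≤ D1 * T.degree v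
  inv : Inv ((S.filter (fun x => col x = true)).image gA)
    ((S.filter (fun x => col x = false)).image gB) use


lemma grow_step (T : SimpleGraph V) [DecidableRel T.Adj] (hac : T.IsAcyclic) (col : V → Bool)
    (hcol : ∀ u v, T.Adj u v → col u ≠ col v) (u0 : V)
    (NB : B → Finset A) (NA : A → Finset B) (A3 : Finset A) (B3 : Finset B)
    (hNB : ∀ b ∈ B3, NB b ⊆ A3) (hNA : ∀ w ∈ A3, NA w ⊆ B3)
    (n2 D D1 D2 R : ℕ) (hn2 : 0 < n2) (hn2c : #(univ.filter (fun x => col x = false)) ≤ n2)
    (hD1 : ∀ v, col v = true → T.degree v ≤ D1) (hD2 : ∀ v, col v = false → T.degree v ≤ D2)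
    (hDR : R + D2 ≤ D + 1) (hDD : D2 ≤ D)
    (hhalf : ∀ H : Finset A, #H ≤ 16 * n2 →
      2 * psi NB D (fun b => {b}) (fun _ => D) B3 H ≤ #H)
    (Inv : Finset A → Finset B → (B → ℕ) → Prop) (hgame : YGame NB NA B3 n2 R D1 D2 Inv)
    (S : Finset V) (gA : V → A) (gB : V → B) (dP : B → ℕ) (use : B → ℕ)
    (hG : Good T col u0 NB NA A3 B3 n2 D D1 Inv S gA gB dP use)
    (w u : V) (hw : w ∉ S) (hu : u ∈ S) (huw : T.Adj u w) (hcw : col w = true)
    (hdeg : 2 ≤ T.degree w) :
    ∃ (S' : Finset V) (gA' : V → A) (gB' : V → B) (dP' : B → ℕ) (use' : B → ℕ),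
      Good T col u0 NB NA A3 B3 n2 D D1 Inv S' gA' gB' dP' use' ∧ #S < #S' := by
  classical
  have hcu : col u = false := by
    have := hcol u w huw
    rw [hcw] at this
    simpa using this
  set S1 : Finset V := S.filter (fun x => col x = true) with hS1
  set S2 : Finset V := S.filter (fun x => col x = false) with hS2
  set P : Finset A := S1.image gA with hP
  set Y : Finset B := S2.image gB with hY
  have hS2n : #S2 ≤ n2 := (card_le_card (filter_subset_filter _ (subset_univ S))).trans hn2c
  have hPn : #P ≤ n2 := card_image_le.trans (hG.cnt.le.trans hS2n)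
  have hYn : #Y ≤ n2 := card_image_le.trans hS2n
  set New : Finset V := (T.neighborFinset w).erase u with hNew
  have hNewcol : ∀ x ∈ New, col x = false := by
    intro x hx
    have h1 := (mem_erase.1 hx).2
    rw [SimpleGraph.mem_neighborFinset] at h1
    have := hcol w x h1
    rw [hcw] at this
    cases h : col x
    · rfl
    · exact absurd h.symm this
  have hNewS : ∀ x ∈ New, x ∉ S := by
    intro x hx hxS
    have h1 := mem_erase.1 hx
    rw [SimpleGraph.mem_neighborFinset] at h1
    exact h1.1 (uniq_nbr T hac u0 S hG.walk w x u hw hxS hu h1.2.symm huw)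
  have hNewc : #New + 1 = T.degree w := by
    rw [hNew, ← SimpleGraph.card_neighborFinset_eq_degree]
    exact card_erase_add_one (by rw [SimpleGraph.mem_neighborFinset]; exact huw.symm)
  have hwNew : w ∉ New := by
    intro h
    have := hNewcol w h
    rw [hcw] at this
    exact absurd this (by simp)
  have hub : gB u ∈ B3 := hG.memB u hu hcu
  have huY : gB u ∈ Y := mem_image_of_mem _ (mem_filter.2 ⟨hu, hcu⟩)
  have hwu : w ∈ T.neighborFinset u \ S := by
    rw [mem_sdiff, SimpleGraph.mem_neighborFinset]; exact ⟨huw, hw⟩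
  have hcard1 : 1 ≤ #(T.neighborFinset u \ S) := card_pos.2 ⟨w, hwu⟩
  have hdu := hG.dem u hu hcu
  have hdegu := hD2 u hcu
  have huu := hG.uuse u hu hcu
  have hdegw := hD1 w hcw
  -- the connector
  obtain ⟨Av, hAv, hAvc, hAvs⟩ := pstep NB D n2 (16 * n2) dP (fun _ => D) B3 P rfl hn2 hhalf hG.dle
    hPn hG.val (gB u) hub (by omega)
  obtain ⟨α, hα, S', hS'N, hS'Y, hS'c, hInv⟩ := hgame.2 P Y use hG.inv hYn (gB u) hub Av hAv
    (by omega) #New (by omega) (by
      have h1 : D1 * 1 ≤ D1 * #(T.neighborFinset u \ S) := Nat.mul_le_mul_left _ hcard1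
      have h2 : D1 * T.degree u ≤ D1 * D2 := Nat.mul_le_mul_left _ hdegu
      omega)
  have hαm := mem_sdiff.1 (hAv hα)
  have hαP : α ∉ P := hαm.2
  have hαA : α ∈ A3 := hNB _ hub hαm.1
  let e := Finset.equivOfCardEq (s := New) (t := S') hS'c.symm
  set gA' : V → A := Function.update gA w α with hgA'
  set gB' : V → B := fun x => if h : x ∈ New then (e ⟨x, h⟩ : B) else gB x with hgB'
  have hgBnew : ∀ x (h : x ∈ New), gB' x = (e ⟨x, h⟩ : B) := by
    intro x h; rw [hgB']; simp only; rw [dif_pos h]
  have hgBnewS' : ∀ x ∈ New, gB' x ∈ S' := by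
    intro x h; rw [hgBnew x h]; exact (e ⟨x, h⟩).2
  have hgBold : ∀ x ∈ S, gB' x = gB x := by
    intro x h; rw [hgB']; simp only; rw [dif_neg (fun h' => hNewS x h' h)]
  have hgAw : gA' w = α := by rw [hgA', Function.update_self]
  have hgAold : ∀ x ∈ S, gA' x = gA x := by
    intro x h
    have hne : x ≠ w := by rintro rfl; exact hw h
    rw [hgA', Function.update_of_ne hne]
  set Sn : Finset V := S ∪ insert w New with hSn
  have hmemSn : ∀ x, x ∈ Sn ↔ x ∈ S ∨ x = w ∨ x ∈ New := by
    intro x; rw [hSn, mem_union, mem_insert]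
  have hSn1 : Sn.filter (fun x => col x = true) = insert w S1 := by
    ext x
    rw [mem_filter, hmemSn, mem_insert, hS1, mem_filter]
    constructor
    · rintro ⟨h | h | h, hc⟩
      · exact Or.inr ⟨h, hc⟩
      · exact Or.inl h
      · rw [hNewcol x h] at hc; exact absurd hc (by simp)
    · rintro (h | ⟨h, hc⟩)
      · exact ⟨Or.inr (Or.inl h), h ▸ hcw⟩
      · exact ⟨Or.inl h, hc⟩
  have hSn2 : Sn.filter (fun x => col x = false) = S2 ∪ New := by
    ext x
    rw [mem_filter, hmemSn, mem_union, hS2, mem_filter]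
    constructor
    · rintro ⟨h | h | h, hc⟩
      · exact Or.inl ⟨h, hc⟩
      · rw [h, hcw] at hc; exact absurd hc (by simp)
      · exact Or.inr h
    · rintro (⟨h, hc⟩ | h)
      · exact ⟨Or.inl h, hc⟩
      · exact ⟨Or.inr (Or.inr h), hNewcol x h⟩
  have hwS1 : w ∉ S1 := fun h => hw (mem_filter.1 h).1
  have hdisj : Disjoint S2 New := by
    rw [disjoint_left]; intro x hx hx'; exact hNewS x hx' (mem_filter.1 hx).1
  have hPimg : (Sn.filter (fun x => col x = true)).image gA' = insert α P := by
    rw [hSn1, image_insert, hgAw, hP]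
    congr 1
    apply image_congr
    intro x hx
    exact hgAold x (mem_filter.1 hx).1
  have hYimg : (Sn.filter (fun x => col x = false)).image gB' = Y ∪ S' := by
    rw [hSn2, image_union, hY]
    congr 1
    · apply image_congr
      intro x hx
      exact hgBold x (mem_filter.1 hx).1
    · ext y
      rw [mem_image]
      constructor
      · rintro ⟨x, hx, rfl⟩; exact hgBnewS' x hx
      · intro hy
        refine ⟨(e.symm ⟨y, hy⟩).1, (e.symm ⟨y, hy⟩).2, ?_⟩
        rw [hgBnew _ (e.symm ⟨y, hy⟩).2]
        simp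
  have hgBYnew : ∀ x ∈ New, gB' x ∉ Y := fun x hx => disjoint_left.1 hS'Y (hgBnewS' x hx)
  have hne_b : ∀ x ∈ S, col x = false → x ≠ u → gB x ≠ gB u := by
    intro x hx hcx hne h
    exact hne (hG.injB x hx u hu hcx hcu h)
  have hsub : ∀ v : V, T.neighborFinset v \ Sn ⊆ T.neighborFinset v \ S := fun v =>
    sdiff_subset_sdiff subset_rfl (by rw [hSn]; exact subset_union_left)
  have hNbu : #(T.neighborFinset u \ Sn) + 1 ≤ #(T.neighborFinset u \ S) := by
    have h1 : T.neighborFinset u \ Sn ⊆ (T.neighborFinset u \ S).erase w := by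
      intro x hx
      rw [mem_erase]
      refine ⟨?_, hsub u hx⟩
      rintro rfl
      exact (mem_sdiff.1 hx).2 ((hmemSn _).2 (Or.inr (Or.inl rfl)))
    have h2 := card_le_card h1
    have h3 := card_erase_add_one hwu
    omega
  have hNbnew : ∀ x ∈ New, #(T.neighborFinset x \ Sn) + 1 ≤ T.degree x := by
    intro x hx
    have hxw : w ∈ T.neighborFinset x := by
      have h1 := (mem_erase.1 hx).2
      rw [SimpleGraph.mem_neighborFinset] at h1 ⊢
      exact h1.symm
    have h1 : T.neighborFinset x \ Sn ⊆ (T.neighborFinset x).erase w := by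
      intro y hy
      rw [mem_erase]
      refine ⟨?_, (mem_sdiff.1 hy).1⟩
      rintro rfl
      exact (mem_sdiff.1 hy).2 ((hmemSn _).2 (Or.inr (Or.inl rfl)))
    have h2 := card_le_card h1
    have h3 := card_erase_add_one hxw
    rw [SimpleGraph.card_neighborFinset_eq_degree] at h3
    omega
  refine ⟨Sn, gA', gB', Function.update dP (gB u) (dP (gB u) - 1),
    Function.update use (gB u) (use (gB u) + #New), ?_, ?_⟩
  · constructor
    · exact (hmemSn _).2 (Or.inl hG.hu0)
    · -- walks
      have hwalkw : ∃ p : T.Walk u0 w, ∀ y ∈ p.support, y ∈ Sn := by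
        obtain ⟨p, hp⟩ := hG.walk u hu
        refine ⟨p.concat huw, ?_⟩
        intro y hy
        rw [SimpleGraph.Walk.support_concat, List.mem_append] at hy
        rcases hy with hy | hy
        · exact (hmemSn _).2 (Or.inl (hp y hy))
        · rw [List.mem_singleton] at hy
          exact (hmemSn _).2 (Or.inr (Or.inl hy))
      intro x hx
      rcases (hmemSn x).1 hx with h | h | h
      · obtain ⟨p, hp⟩ := hG.walk x h
        exact ⟨p, fun y hy => (hmemSn _).2 (Or.inl (hp y hy))⟩
      · rw [h]; exact hwalkw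
      · obtain ⟨p, hp⟩ := hwalkw
        have hwx : T.Adj w x := by
          have h1 := (mem_erase.1 h).2
          rwa [SimpleGraph.mem_neighborFinset] at h1
        refine ⟨p.concat hwx, ?_⟩
        intro y hy
        rw [SimpleGraph.Walk.support_concat, List.mem_append] at hy
        rcases hy with hy | hy
        · exact hp y hy
        · rw [List.mem_singleton] at hy
          rw [hy]; exact hx
    · -- full
      intro x hx hcx y hxy
      rcases (hmemSn x).1 hx with h | h | h
      · exact (hmemSn _).2 (Or.inl (hG.full x h hcx y hxy))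
      · subst h
        by_cases hyu : y = u
        · rw [hyu]; exact (hmemSn _).2 (Or.inl hu)
        · exact (hmemSn _).2 (Or.inr (Or.inr (mem_erase.2 ⟨hyu, by
            rw [SimpleGraph.mem_neighborFinset]; exact hxy⟩)))
      · rw [hNewcol x h] at hcx; exact absurd hcx (by simp)
    · -- cnt
      rw [hSn1, hSn2, card_insert_of_notMem hwS1, card_union_of_disjoint hdisj]
      have : #S1 < #S2 := hG.cnt
      omega
    · -- injA
      intro x hx y hy hcx hcy hxy
      rcases (hmemSn x).1 hx with h | h | h
      · rcases (hmemSn y).1 hy with h' | h' | h'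
        · rw [hgAold x h, hgAold y h'] at hxy
          exact hG.injA x h y h' hcx hcy hxy
        · rw [h', hgAw, hgAold x h] at hxy
          exact absurd (hxy ▸ mem_image_of_mem _ (mem_filter.2 ⟨h, hcx⟩)) hαP
        · rw [hNewcol y h'] at hcy; exact absurd hcy (by simp)
      · rcases (hmemSn y).1 hy with h' | h' | h'
        · rw [h, hgAw, hgAold y h'] at hxy
          exact absurd (hxy ▸ mem_image_of_mem _ (mem_filter.2 ⟨h', hcy⟩)) hαP
        · rw [h, h']
        · rw [hNewcol y h'] at hcy; exact absurd hcy (by simp)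
      · rw [hNewcol x h] at hcx; exact absurd hcx (by simp)
    · -- injB
      intro x hx y hy hcx hcy hxy
      rcases (hmemSn x).1 hx with h | h | h
      · rcases (hmemSn y).1 hy with h' | h' | h'
        · rw [hgBold x h, hgBold y h'] at hxy
          exact hG.injB x h y h' hcx hcy hxy
        · rw [h', hcw] at hcy; exact absurd hcy (by simp)
        · rw [hgBold x h] at hxy
          exact absurd (hxy ▸ mem_image_of_mem _ (mem_filter.2 ⟨h, hcx⟩)) (hgBYnew y h')
      · rw [h, hcw] at hcx; exact absurd hcx (by simp)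
      · rcases (hmemSn y).1 hy with h' | h' | h'
        · rw [hgBold y h'] at hxy
          exact absurd (hxy ▸ mem_image_of_mem _ (mem_filter.2 ⟨h', hcy⟩)) (hgBYnew x h)
        · rw [h', hcw] at hcy; exact absurd hcy (by simp)
        · rw [hgBnew x h, hgBnew y h'] at hxy
          have := e.injective (Subtype.ext hxy)
          exact congrArg Subtype.val this
    · -- memB
      intro x hx hcx
      rcases (hmemSn x).1 hx with h | h | h
      · rw [hgBold x h]; exact hG.memB x h hcx
      · rw [h, hcw] at hcx; exact absurd hcx (by simp)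
      · exact hNA α hαA (hS'N (hgBnewS' x h))
    · -- memA
      intro x hx hcx
      rcases (hmemSn x).1 hx with h | h | h
      · rw [hgAold x h]; exact hG.memA x h hcx
      · rw [h, hgAw]; exact hαA
      · rw [hNewcol x h] at hcx; exact absurd hcx (by simp)
    · -- edge
      intro v hv x hx hvx hcv hcx
      rcases (hmemSn x).1 hx with h | h | h
      · have hvS : v ∈ S := hG.full x h hcx v hvx.symm
        rw [hgAold x h, hgBold v hvS]
        exact hG.edge v hvS x h hvx hcv hcx
      · subst h
        rw [hgAw]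
        by_cases hvu : v = u
        · left
          rw [hvu, hgBold u hu]
          exact hαm.1
        · right
          exact hS'N (hgBnewS' v (mem_erase.2 ⟨hvu, by
            rw [SimpleGraph.mem_neighborFinset]; exact hvx.symm⟩))
      · rw [hNewcol x h] at hcx; exact absurd hcx (by simp)
    · -- val
      rw [hPimg]
      exact hAvs α hα
    · -- dle
      intro b
      by_cases hb : b = gB u
      · rw [hb, Function.update_self]
        have := hG.dle (gB u)
        omega
      · rw [Function.update_of_ne hb]; exact hG.dle b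
    · -- dfresh
      intro b hb
      rw [hYimg, mem_union, not_or] at hb
      have hbu : b ≠ gB u := fun h => hb.1 (h ▸ huY)
      rw [Function.update_of_ne hbu]
      exact hG.dfresh b hb.1
    · -- dem
      intro v hv hcv
      rcases (hmemSn v).1 hv with h | h | h
      · rw [hgBold v h]
        by_cases hvu : v = u
        · rw [hvu, Function.update_self]
          omega
        · rw [Function.update_of_ne (hne_b v h hcv hvu)]
          have h1 := hG.dem v h hcv
          have h2 := card_le_card (hsub v)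
          omega
      · rw [h, hcw] at hcv; exact absurd hcv (by simp)
      · have hbu : gB' v ≠ gB u := fun h' => hgBYnew v h (h' ▸ huY)
        rw [Function.update_of_ne hbu, hG.dfresh _ (hgBYnew v h)]
        have := hNbnew v h
        omega
    · -- ufresh
      intro b hb
      rw [hYimg, mem_union, not_or] at hb
      have hbu : b ≠ gB u := fun h => hb.1 (h ▸ huY)
      rw [Function.update_of_ne hbu]
      exact hG.ufresh b hb.1
    · -- uuse
      intro v hv hcv
      rcases (hmemSn v).1 hv with h | h | h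
      · rw [hgBold v h]
        by_cases hvu : v = u
        · rw [hvu, Function.update_self]
          have h1 : D1 * (#(T.neighborFinset u \ Sn) + 1) ≤ D1 * #(T.neighborFinset u \ S) :=
            Nat.mul_le_mul_left _ hNbu
          have h2 : D1 * (#(T.neighborFinset u \ Sn) + 1) = D1 * #(T.neighborFinset u \ Sn) + D1 := by
            ring
          omega
        · rw [Function.update_of_ne (hne_b v h hcv hvu)]
          have h1 := hG.uuse v h hcv
          have h2 := Nat.mul_le_mul_left D1 (card_le_card (hsub v))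
          omega
      · rw [h, hcw] at hcv; exact absurd hcv (by simp)
      · have hbu : gB' v ≠ gB u := fun h' => hgBYnew v h (h' ▸ huY)
        rw [Function.update_of_ne hbu, hG.ufresh _ (hgBYnew v h), zero_add]
        apply Nat.mul_le_mul_left
        have := hNbnew v h
        omega
    · -- inv
      rw [hPimg, hYimg]
      exact hInv
  · apply card_lt_card
    rw [ssubset_iff_of_subset (by rw [hSn]; exact subset_union_left)]
    exact ⟨w, (hmemSn _).2 (Or.inr (Or.inl rfl)), hw⟩


lemma good_init (T : SimpleGraph V) [DecidableRel T.Adj] (col : V → Bool) (u0 : V)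
    (hc0 : col u0 = false)
    (NB : B → Finset A) (NA : A → Finset B) (A3 : Finset A) (B3 : Finset B)
    (n2 D D1 D2 R : ℕ)
    (hhalf : ∀ H : Finset A, #H ≤ 16 * n2 →
      2 * psi NB D (fun b => {b}) (fun _ => D) B3 H ≤ #H)
    (Inv : Finset A → Finset B → (B → ℕ) → Prop) (hgame : YGame NB NA B3 n2 R D1 D2 Inv)
    (a0 : A) (b0 : B) (hb0 : b0 ∈ B3) :
    Good T col u0 NB NA A3 B3 n2 D D1 Inv {u0} (fun _ => a0) (fun _ => b0) (fun _ => D)
      (fun _ => 0) := by
  classical
  have h1 : ({u0} : Finset V).filter (fun x => col x = true) = ∅ := by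
    rw [filter_singleton, hc0]; simp
  have h2 : ({u0} : Finset V).filter (fun x => col x = false) = {u0} := by
    rw [filter_singleton, hc0]; simp
  constructor
  · simp
  · intro x hx
    rw [mem_singleton] at hx
    subst hx
    exact ⟨SimpleGraph.Walk.nil, by simp⟩
  · intro x hx hcx
    rw [mem_singleton] at hx
    rw [hx, hc0] at hcx
    exact absurd hcx (by simp)
  · rw [h1, h2]; simp
  · intro x hx y hy _ _ _
    rw [mem_singleton] at hx hy
    rw [hx, hy]
  · intro x hx y hy _ _ _
    rw [mem_singleton] at hx hy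
    rw [hx, hy]
  · intro x hx _; exact hb0
  · intro x hx hcx
    rw [mem_singleton] at hx
    rw [hx, hc0] at hcx
    exact absurd hcx (by simp)
  · intro u hu w hw _ _ hcw
    rw [mem_singleton] at hw
    rw [hw, hc0] at hcw
    exact absurd hcw (by simp)
  · rw [h1]
    exact init_val NB D _ _ _ B3 hhalf _ (by simp)
  · intro b; exact le_rfl
  · intro b _; rfl
  · intro v _ _
    apply Nat.add_le_add_left
    rw [← SimpleGraph.card_neighborFinset_eq_degree]
    exact card_le_card sdiff_subset
  · intro b _; rfl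
  · intro v _ _
    rw [zero_add]
    apply Nat.mul_le_mul_left
    rw [← SimpleGraph.card_neighborFinset_eq_degree]
    exact card_le_card sdiff_subset
  · rw [h1, h2]
    simp only [image_empty, image_singleton]
    exact hgame.1 b0 hb0

theorem embed (T : SimpleGraph V) [DecidableRel T.Adj] (hac : T.IsAcyclic) (hcon : T.Preconnected)
    (col : V → Bool) (hcol : ∀ u v, T.Adj u v → col u ≠ col v) (u0 : V) (hc0 : col u0 = false)
    (NB : B → Finset A) (NA : A → Finset B) (A3 : Finset A) (B3 : Finset B)
    (hNB : ∀ b ∈ B3, NB b ⊆ A3) (hNA : ∀ w ∈ A3, NA w ⊆ B3)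
    (n1 n2 D D1 D2 R : ℕ) (hn2 : 0 < n2) (hn12 : n2 ≤ n1)
    (hn1c : #(univ.filter (fun x => col x = true)) ≤ n1)
    (hn2c : #(univ.filter (fun x => col x = false)) ≤ n2)
    (hD1 : ∀ v, col v = true → T.degree v ≤ D1) (hD2 : ∀ v, col v = false → T.degree v ≤ D2)
    (hDR : R + D2 ≤ D + 1) (hDD : D2 ≤ D)
    (hhalf : ∀ H : Finset A, #H ≤ 16 * n2 →
      2 * psi NB D (fun b => {b}) (fun _ => D) B3 H ≤ #H)
    (hh1 : ∀ Q ⊆ B3, #(Q.biUnion NB) ≤ 32 * n1 → 6 * D2 * #Q ≤ #(Q.biUnion NB))
    (Inv : Finset A → Finset B → (B → ℕ) → Prop) (hgame : YGame NB NA B3 n2 R D1 D2 Inv)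
    (a0 : A) (b0 : B) (hb0 : b0 ∈ B3) :
    ∃ (gA : V → A) (gB : V → B),
      (∀ x y, col x = true → col y = true → gA x = gA y → x = y) ∧
      (∀ x y, col x = false → col y = false → gB x = gB y → x = y) ∧
      (∀ u w, T.Adj u w → col u = false → col w = true →
        gB u ∈ B3 ∧ (gA w ∈ NB (gB u) ∨ (gA w ∈ A3 ∧ gB u ∈ NA (gA w)))) := by
  classical
  -- a maximal state
  set F : Finset (Finset V) := univ.filter (fun S => ∃ (gA : V → A) (gB : V → B) (dP : B → ℕ)
    (use : B → ℕ), Good T col u0 NB NA A3 B3 n2 D D1 Inv S gA gB dP use) with hF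
  have hFne : F.Nonempty := ⟨{u0}, by
    rw [hF, mem_filter]
    exact ⟨mem_univ _, _, _, _, _, good_init T col u0 hc0 NB NA A3 B3 n2 D D1 D2 R hhalf Inv hgame
      a0 b0 hb0⟩⟩
  obtain ⟨S, hSF, hmax⟩ := exists_max_image F (fun S => #S) hFne
  rw [hF, mem_filter] at hSF
  obtain ⟨-, gA, gB, dP, use, hG⟩ := hSF
  have hstop : ∀ w u, w ∉ S → u ∈ S → T.Adj u w → col w = true → T.degree w ≤ 1 := by
    intro w u hw hu huw hcw
    by_contra hdeg
    obtain ⟨S', gA', gB', dP', use', hG', hlt⟩ := grow_step T hac col hcol u0 NB NA A3 B3 hNB hNA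
      n2 D D1 D2 R hn2 hn2c hD1 hD2 hDR hDD hhalf Inv hgame S gA gB dP use hG w u hw hu huw hcw
      (by omega)
    have := hmax S' (by rw [hF, mem_filter]; exact ⟨mem_univ _, _, _, _, _, hG'⟩)
    omega
  have hdeg1 : ∀ x y z, T.degree x ≤ 1 → T.Adj x y → T.Adj x z → y = z := by
    intro x y z hd hy hz
    rw [← SimpleGraph.card_neighborFinset_eq_degree, card_le_one] at hd
    exact hd y (by rwa [SimpleGraph.mem_neighborFinset]) z (by rwa [SimpleGraph.mem_neighborFinset])
  have hcls : ∀ v, v ∈ {x | x ∈ S ∨ (∃ u ∈ S, T.Adj u x ∧ T.degree x ≤ 1 ∧ col x = true)} := by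
    apply closed_all T hcon _ u0
    · exact Or.inl hG.hu0
    · rintro x (hx | ⟨u, hu, hux, hd, hcx⟩) y hxy
      · by_cases hy : y ∈ S
        · exact Or.inl hy
        · have hcx : col x = false := by
            cases h : col x
            · rfl
            · exact absurd (hG.full x hx h y hxy) hy
          have hcy : col y = true := by
            have := hcol x y hxy
            rw [hcx] at this
            cases h : col y
            · exact absurd h.symm this
            · rfl
          exact Or.inr ⟨x, hx, hxy, hstop y x hy hx hxy hcy, hcy⟩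
      · left
        rw [← hdeg1 x u y hd hux.symm hxy]
        exact hu
  have hS2all : ∀ v, col v = false → v ∈ S := by
    intro v hv
    rcases hcls v with h | ⟨u, hu, huv, hd, hc⟩
    · exact h
    · rw [hv] at hc; exact absurd hc (by simp)
  have hpar : ∀ v, ∃ u, v ∉ S → (u ∈ S ∧ T.Adj u v ∧ T.degree v ≤ 1 ∧ col v = true) := by
    intro v
    by_cases hv : v ∈ S
    · exact ⟨v, fun h => absurd hv h⟩
    · rcases hcls v with h | ⟨u, hu, huv, hd, hc⟩
      · exact absurd h hv
      · exact ⟨u, fun _ => ⟨hu, huv, hd, hc⟩⟩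
  choose par hpar using hpar
  have hparcol : ∀ v, v ∉ S → col (par v) = false := by
    intro v hv
    obtain ⟨h1, h2, h3, h4⟩ := hpar v hv
    have := hcol _ _ h2
    rw [h4] at this
    simpa using this
  set P : Finset A := (S.filter (fun x => col x = true)).image gA with hP
  have hPn : #P < n2 := by
    have h1 : #P ≤ #(S.filter (fun x => col x = true)) := card_image_le
    have h2 := hG.cnt
    have h3 : #(S.filter (fun x => col x = false)) ≤ n2 :=
      (card_le_card (filter_subset_filter _ (subset_univ S))).trans hn2c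
    omega
  -- Hall's theorem for the leaves
  have hHall : ∀ L : Finset {v // v ∉ S}, #L ≤ #(L.biUnion (fun v => NB (gB (par v)) \ P)) := by
    intro L
    set W : Finset V := L.image (fun v => par v.1) with hW
    set Q : Finset B := W.image gB with hQ
    have hWS : ∀ u ∈ W, u ∈ S ∧ col u = false := by
      intro u hu
      rw [hW, mem_image] at hu
      obtain ⟨v, hv, rfl⟩ := hu
      exact ⟨(hpar v.1 v.2).1, hparcol v.1 v.2⟩
    have hQB : Q ⊆ B3 := by
      intro b hb
      rw [hQ, mem_image] at hb
      obtain ⟨u, hu, rfl⟩ := hb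
      exact hG.memB u (hWS u hu).1 (hWS u hu).2
    have hinj : Set.InjOn gB (W : Set V) := by
      intro x hx y hy hxy
      exact hG.injB x (hWS x hx).1 y (hWS y hy).1 (hWS x hx).2 (hWS y hy).2 hxy
    have hQc : #Q = #W := card_image_of_injOn hinj
    have hbi : L.biUnion (fun v => NB (gB (par v)) \ P) = Q.biUnion NB \ P := by
      ext a
      simp only [mem_biUnion, mem_sdiff, hQ, hW, mem_image]
      constructor
      · rintro ⟨v, hv, ha, haP⟩
        exact ⟨⟨_, ⟨_, ⟨v, hv, rfl⟩, rfl⟩, ha⟩, haP⟩
      · rintro ⟨⟨_, ⟨_, ⟨v, hv, rfl⟩, rfl⟩, ha⟩, haP⟩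
        exact ⟨v, hv, ha, haP⟩
    rw [hbi]
    have hLW : #L ≤ ∑ u ∈ W, #(T.neighborFinset u \ S) := by
      rw [card_eq_sum_card_image (fun v : {v // v ∉ S} => par v.1) L]
      refine sum_le_sum (fun u hu => ?_)
      apply card_le_card_of_injOn (fun v => v.1)
      · intro v hv
        rw [mem_coe, mem_filter] at hv
        rw [mem_coe, mem_sdiff, SimpleGraph.mem_neighborFinset]
        refine ⟨?_, v.2⟩
        rw [← hv.2]
        exact (hpar v.1 v.2).2.1
      · intro v _ v' _ h
        exact Subtype.ext h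
    by_cases hsmall : #(Q.biUnion NB) ≤ 8 * n2
    · set H : Finset A := Q.biUnion NB ∪ P with hH
      have hHc : #H ≤ 16 * n2 := (card_union_le _ _).trans (by omega)
      have hv := hG.val H hHc
      unfold slk at hv
      rw [← hP] at hv
      have h1 : H \ P = Q.biUnion NB \ P := by
        rw [hH]; ext a; simp only [mem_sdiff, mem_union]; tauto
      rw [h1] at hv
      have h2 : ∑ b ∈ Q, dP b ≤ psi NB D (fun b => {b}) dP B3 H := by
        unfold psi
        calc ∑ b ∈ Q, dP b ≤ ∑ b ∈ Q, (dP b - cap NB D {b} H) := by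
              refine sum_le_sum (fun b hb => ?_)
              have : cap NB D {b} H = 0 := by
                unfold cap
                rw [sum_singleton]
                have : NB b \ H = ∅ := by
                  rw [sdiff_eq_empty_iff_subset, hH]
                  exact (subset_biUnion_of_mem NB hb).trans subset_union_left
                rw [this]; simp
              omega
          _ ≤ ∑ b ∈ B3, (dP b - cap NB D {b} H) := sum_le_sum_of_subset hQB
      have h3 : ∑ u ∈ W, #(T.neighborFinset u \ S) ≤ ∑ b ∈ Q, dP b := by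
        rw [hQ, sum_image hinj]
        refine sum_le_sum (fun u hu => ?_)
        have h4 := hG.dem u (hWS u hu).1 (hWS u hu).2
        have h5 := hD2 u (hWS u hu).2
        omega
      omega
    · rw [not_le] at hsmall
      have h1 : #(Q.biUnion NB) ≤ #(Q.biUnion NB \ P) + #P := card_le_card_sdiff_add_card
      by_cases hmid : #(Q.biUnion NB) ≤ 32 * n1
      · have h2 := hh1 Q hQB hmid
        have h3 : ∑ u ∈ W, #(T.neighborFinset u \ S) ≤ #W * D2 := by
          rw [← smul_eq_mul, ← sum_const]
          refine sum_le_sum (fun u hu => ?_)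
          refine (card_le_card sdiff_subset).trans ?_
          rw [SimpleGraph.card_neighborFinset_eq_degree]
          exact hD2 u (hWS u hu).2
        rw [hQc] at h2
        have h4 : 6 * D2 * #W = 6 * (#W * D2) := by ring
        omega
      · rw [not_le] at hmid
        have h2 : #L ≤ n1 := by
          refine le_trans ?_ hn1c
          apply card_le_card_of_injOn (fun v => v.1)
          · intro v _
            rw [mem_coe, mem_filter]
            exact ⟨mem_univ _, (hpar v.1 v.2).2.2.2⟩
          · intro v _ v' _ h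
            exact Subtype.ext h
        omega
  obtain ⟨f, hfinj, hft⟩ := (Finset.all_card_le_biUnion_card_iff_exists_injective
    (fun v : {v // v ∉ S} => NB (gB (par v)) \ P)).1 hHall
  refine ⟨fun v => if h : v ∉ S then f ⟨v, h⟩ else gA v, gB, ?_, ?_, ?_⟩
  · intro x y hcx hcy hxy
    simp only at hxy
    by_cases hx : x ∉ S
    · by_cases hy : y ∉ S
      · rw [dif_pos hx, dif_pos hy] at hxy
        exact congrArg Subtype.val (hfinj hxy)
      · rw [dif_pos hx, dif_neg hy] at hxy
        rw [not_not] at hy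
        have h1 := (mem_sdiff.1 (hft ⟨x, hx⟩)).2
        rw [hxy] at h1
        exact absurd (mem_image_of_mem gA (mem_filter.2 ⟨hy, hcy⟩)) h1
    · by_cases hy : y ∉ S
      · rw [dif_neg hx, dif_pos hy] at hxy
        rw [not_not] at hx
        have h1 := (mem_sdiff.1 (hft ⟨y, hy⟩)).2
        rw [← hxy] at h1
        exact absurd (mem_image_of_mem gA (mem_filter.2 ⟨hx, hcx⟩)) h1
      · rw [dif_neg hx, dif_neg hy] at hxy
        rw [not_not] at hx hy
        exact hG.injA x hx y hy hcx hcy hxy
  · intro x y hcx hcy hxy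
    exact hG.injB x (hS2all x hcx) y (hS2all y hcy) hcx hcy hxy
  · intro u w huw hcu hcw
    refine ⟨hG.memB u (hS2all u hcu) hcu, ?_⟩
    simp only
    by_cases hw : w ∉ S
    · rw [dif_pos hw]
      left
      have h1 : par w = u := hdeg1 w (par w) u (hpar w hw).2.2.1 (hpar w hw).2.1.symm huw.symm
      have h2 := (mem_sdiff.1 (hft ⟨w, hw⟩)).1
      simp only at h2
      rw [h1] at h2
      exact h2
    · rw [dif_neg hw]
      rw [not_not] at hw
      rcases hG.edge u (hS2all u hcu) w hw huw hcu hcw with h | h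
      · exact Or.inl h
      · exact Or.inr ⟨hG.memA w hw hcw, h⟩

end grow

end Pool.Agent.Lib.MP_366c56_co
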