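import Pool.Agent.Lib.MP_366c56_co.Events
import Pool.Agent.Lib.MP_366c56_co.Grow
import Pool.Agent.Lib.MP_366c56_co.Clean

set_option autoImplicit false
set_option linter.unusedSectionVars false
set_option linter.unusedVariables false

namespace Pool.Agent.Lib.MP_366c56_co

open Finset

lemma exp_of_avoid {I R : Type*} [DecidableEq I] [Fintype R] [DecidableEq R] (N : I → Finset R)
    (J : Finset I) (d c K : ℕ) (hcd : c ≤ d) (hc : 0 < c) (hN : ∀ i ∈ J, #(N i) = d)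
    (hR : 2 * K ≤ Fintype.card R)
    (havoid : ∀ q, 1 ≤ q → c * q ≤ 2 * K → ∀ Q : Finset I, Q ⊆ J → #Q = q → ∀ H : Finset R,
      #H = c * q → ¬ (Q.biUnion N ⊆ H)) :
    ∀ Q ⊆ J, #(Q.biUnion N) ≤ K → c * #Q ≤ #(Q.biUnion N) := by
  intro Q hQ hK
  by_contra hcon
  rw [not_le] at hcon
  set q : ℕ := #(Q.biUnion N) / c + 1 with hq
  have hqQ : q ≤ #Q := by
    have : #(Q.biUnion N) / c < #Q := (Nat.div_lt_iff_lt_mul hc).2 (by rw [mul_comm]; exact hcon)
    exact Nat.succ_le_of_lt this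
  have hq1 : 1 ≤ q := Nat.succ_pos _
  obtain ⟨Q', hQ'Q, hQ'c⟩ := exists_subset_card_eq hqQ
  have h1 : c * (q - 1) ≤ #(Q.biUnion N) := by
    rw [hq, Nat.add_sub_cancel]
    exact Nat.mul_div_le _ _
  have h2 : #(Q.biUnion N) < c * q := by
    rw [hq]
    exact Nat.lt_mul_div_succ _ hc
  have hQne : Q.Nonempty := by
    rw [← card_pos]; omega
  obtain ⟨i0, hi0⟩ := hQne
  have h3 : d ≤ #(Q.biUnion N) := by
    rw [← hN i0 (hQ hi0)]
    exact card_le_card (subset_biUnion_of_mem N hi0)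
  have h4 : c * q ≤ 2 * K := by
    obtain ⟨m, hm⟩ : ∃ m, q = m + 1 := ⟨q - 1, by omega⟩
    rw [hm] at h1 ⊢
    rw [Nat.add_sub_cancel] at h1
    rw [mul_add, mul_one]
    omega
  have h5 : #(Q'.biUnion N) ≤ c * q :=
    (card_le_card (biUnion_subset_biUnion_of_subset_left N hQ'Q)).trans h2.le
  obtain ⟨H, hH1, hH2⟩ := exists_superset_card_eq h5 (h4.trans hR)
  exact havoid q hq1 h4 Q' (hQ'Q.trans hQ) hQ'c H hH2 hH1

section det

variable {A B : Type*} [Fintype A] [DecidableEq A] [Fintype B] [DecidableEq B]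

lemma bad_of_avoid (NB : B → Finset A) (NA : A → Finset B) (A3 : Finset A) (B3 : Finset B)
    (hNB : ∀ b ∈ B3, NB b ⊆ A3) (δ n2 D1 d dA : ℕ) (hδ : 0 < δ) (hD1 : 0 < D1)
    (hcB : ∀ b ∈ B3, #(NB b) = 16 * δ) (hcA : ∀ w ∈ A3, #(NA w) = dA)
    (hd : d + 16 * D1 ≤ dA + 1)
    (hdisj : ∀ b ∈ B3, ∀ w ∈ A3, w ∈ NB b → b ∉ NA w)
    (hexp : ∀ Q ⊆ B3, #(Q.biUnion NB) ≤ 32 * n2 → 15 * δ * #Q ≤ #(Q.biUnion NB))
    (hB : 16 * n2 ≤ Fintype.card B)
    (havoid : ∀ q, 1 ≤ q → ∀ Q : Finset B, Q ⊆ B3 → #Q = q → ∀ H : Finset B,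
      #H = min (16 * n2) (512 * D1 * δ * q) → ∀ W : Finset A, #W = δ * q →
      ¬ (∀ w ∈ W, ∃ b ∈ Q, ∃ Hw ∈ powersetCard d H, b ∉ Hw ∧ w ∈ NB b ∧ ∀ b' ∈ Hw, b' ∈ NA w)) :
    ∀ H : Finset B, #H ≤ 16 * n2 →
      #(B3.filter (fun b => 2 * δ ≤ #((NB b).filter (fun w => #(NA w \ H) < 16 * D1)))) *
        (32 * (16 * D1) * δ) ≤ #H := by
  classical
  intro H hH
  by_contra hcon
  rw [not_le] at hcon
  set Bad : Finset B :=
    B3.filter (fun b => 2 * δ ≤ #((NB b).filter (fun w => #(NA w \ H) < 16 * D1))) with hBad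
  set κ : ℕ := 32 * (16 * D1) * δ with hκ
  have hκ0 : 0 < κ := by positivity
  set q : ℕ := #H / κ + 1 with hq
  have hq1 : 1 ≤ q := Nat.succ_pos _
  have hqQ : q ≤ #Bad := by
    have : #H / κ < #Bad := (Nat.div_lt_iff_lt_mul hκ0).2 hcon
    exact Nat.succ_le_of_lt this
  obtain ⟨Q, hQBad, hQc⟩ := exists_subset_card_eq hqQ
  have h1 : κ * (q - 1) ≤ #H := by
    rw [hq, Nat.add_sub_cancel]
    exact Nat.mul_div_le _ _
  have h2 : #H < κ * q := by
    rw [hq]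
    exact Nat.lt_mul_div_succ _ hκ0
  have hκ' : κ * q = 512 * D1 * δ * q := by rw [hκ]; ring
  have h3 : #H ≤ min (16 * n2) (512 * D1 * δ * q) := by
    rw [le_min_iff, ← hκ']
    exact ⟨hH, h2.le⟩
  obtain ⟨H', hHH', hH'c⟩ := exists_superset_card_eq h3 ((min_le_left _ _).trans hB)
  have hmem : ∀ b ∈ Q, b ∈ B3 ∧ 2 * δ ≤ #((NB b).filter (fun w => #(NA w \ H) < 16 * D1)) :=
    fun b hb => mem_filter.1 (hQBad hb)
  -- the blocked connectors
  set W0 : Finset A := (Q.biUnion NB).filter (fun w => #(NA w \ H) < 16 * D1) with hW0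
  have hW0c : δ * q ≤ #W0 := by
    by_cases hq2 : q = 1
    · rw [hq2, mul_one]
      have hne : Q.Nonempty := by rw [← card_pos, hQc]; exact hq1
      obtain ⟨b, hb⟩ := hne
      have h4 := (hmem b hb).2
      have h5 : (NB b).filter (fun w => #(NA w \ H) < 16 * D1) ⊆ W0 :=
        filter_subset_filter _ (subset_biUnion_of_mem NB hb)
      have h6 := card_le_card h5
      omega
    · have h4 : 15 * δ * q ≤ #(Q.biUnion NB) := by
        by_cases h5 : #(Q.biUnion NB) ≤ 32 * n2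
        · have := hexp Q (hQBad.trans (filter_subset _ _)) h5
          rwa [hQc] at this
        · rw [not_le] at h5
          obtain ⟨m, hm⟩ : ∃ m, q = m + 2 := ⟨q - 2, by omega⟩
          rw [hm] at h1 ⊢
          have h6 : m + 2 - 1 = m + 1 := by omega
          rw [h6] at h1
          have h7 : 15 * δ * (m + 2) ≤ κ * (m + 1) := by
            have h8 : κ = 512 * (D1 * δ) := by rw [hκ]; ring
            have h9 : δ ≤ D1 * δ := Nat.le_mul_of_pos_left δ hD1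
            rw [h8]
            calc 15 * δ * (m + 2) ≤ 15 * δ * (2 * (m + 1)) := Nat.mul_le_mul_left _ (by omega)
              _ = 30 * δ * (m + 1) := by ring
              _ ≤ 512 * (D1 * δ) * (m + 1) := Nat.mul_le_mul_right _ (by omega)
          omega
      have h5 : #((Q.biUnion NB).filter (fun w => ¬ #(NA w \ H) < 16 * D1)) ≤ 14 * δ * q := by
        calc #((Q.biUnion NB).filter (fun w => ¬ #(NA w \ H) < 16 * D1))
            = #(Q.biUnion (fun b => (NB b).filter (fun w => ¬ #(NA w \ H) < 16 * D1))) := by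
              rw [filter_biUnion]
          _ ≤ ∑ b ∈ Q, #((NB b).filter (fun w => ¬ #(NA w \ H) < 16 * D1)) := card_biUnion_le
          _ ≤ ∑ b ∈ Q, 14 * δ := by
              refine sum_le_sum (fun b hb => ?_)
              have h6 := card_filter_add_card_filter_not (s := NB b)
                (fun w => #(NA w \ H) < 16 * D1)
              have h7 := (hmem b hb).2
              have h8 := hcB b (hmem b hb).1
              omega
          _ = 14 * δ * q := by rw [sum_const, hQc, smul_eq_mul]; ring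
      have h6 := card_filter_add_card_filter_not (s := Q.biUnion NB)
        (fun w => #(NA w \ H) < 16 * D1)
      have h7 : 15 * δ * q = 14 * δ * q + δ * q := by ring
      have h8 : #W0 + #((Q.biUnion NB).filter (fun w => ¬ #(NA w \ H) < 16 * D1)) =
        #(Q.biUnion NB) := h6
      omega
  obtain ⟨W, hWW0, hWc⟩ := exists_subset_card_eq hW0c
  apply havoid q hq1 Q (hQBad.trans (filter_subset _ _)) hQc H' hH'c W hWc
  intro w hw
  have hw0 := mem_filter.1 (hWW0 hw)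
  obtain ⟨b, hb, hwb⟩ := mem_biUnion.1 hw0.1
  have hbB := (hmem b hb).1
  have hwA : w ∈ A3 := hNB b hbB hwb
  have h4 : d ≤ #(NA w ∩ H) := by
    have h5 := card_inter_add_card_sdiff (NA w) H
    have h6 := hcA w hwA
    have h7 := hw0.2
    omega
  obtain ⟨Hw, hHw, hHwc⟩ := exists_subset_card_eq h4
  refine ⟨b, hb, Hw, ?_, ?_, hwb, ?_⟩
  · rw [mem_powersetCard]
    exact ⟨hHw.trans (inter_subset_right.trans hHH'), hHwc⟩
  · intro h
    exact hdisj b hbB w hwA hwb (mem_inter.1 (hHw h)).1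
  · intro b' hb'
    exact (mem_inter.1 (hHw hb')).1

end det

section embedcases

variable {V A B : Type*} [Fintype V] [DecidableEq V] [Fintype A] [DecidableEq A]
  [Fintype B] [DecidableEq B]

theorem embed_case1 (T : SimpleGraph V) [DecidableRel T.Adj] (hac : T.IsAcyclic)
    (hcon : T.Preconnected)
    (col : V → Bool) (hcol : ∀ u v, T.Adj u v → col u ≠ col v) (u0 : V) (hc0 : col u0 = false)
    (NB : B → Finset A) (NA : A → Finset B) (A3 : Finset A) (B3 : Finset B)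
    (hB3 : B3.Nonempty)
    (hNB : ∀ b ∈ B3, NB b ⊆ A3) (hNA : ∀ w ∈ A3, NA w ⊆ B3)
    (n1 n2 D1 D2 : ℕ) (hn2 : 0 < n2) (hn12 : n2 ≤ n1) (hD1 : 0 < D1) (hD2 : 0 < D2)
    (hD1n : D1 ≤ n2)
    (hn1c : #(univ.filter (fun x => col x = true)) ≤ n1)
    (hn2c : #(univ.filter (fun x => col x = false)) ≤ n2)
    (hd1 : ∀ v, col v = true → T.degree v ≤ D1) (hd2 : ∀ v, col v = false → T.degree v ≤ D2)
    (hcB : ∀ b ∈ B3, 8 * D2 ≤ #(NB b)) (hcA : ∀ w ∈ A3, 4 * D1 ≤ #(NA w))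
    (hh1 : ∀ Q ⊆ B3, #(Q.biUnion NB) ≤ 32 * n1 → 6 * D2 * #Q ≤ #(Q.biUnion NB))
    (hh2 : ∀ X ⊆ A3, #(X.biUnion NA) ≤ 32 * n2 → 3 * D1 * #X ≤ #(X.biUnion NA)) :
    ∃ (gA : V → A) (gB : V → B),
      (∀ x y, col x = true → col y = true → gA x = gA y → x = y) ∧
      (∀ x y, col x = false → col y = false → gB x = gB y → x = y) ∧
      (∀ u w, T.Adj u w → col u = false → col w = true →
        gB u ∈ B3 ∧ (gA w ∈ NB (gB u) ∨ (gA w ∈ A3 ∧ gB u ∈ NA (gA w)))) := by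
  classical
  obtain ⟨b0, hb0⟩ := hB3
  have hne : (NB b0).Nonempty := by
    rw [← card_pos]
    have := hcB b0 hb0
    omega
  obtain ⟨a0, ha0⟩ := hne
  obtain ⟨Inv, hInv⟩ := game1 NB NA A3 B3 hNB n2 1 D1 D2 le_rfl hn2 hD1 hD1n hcA hh2
  refine embed T hac hcon col hcol u0 hc0 NB NA A3 B3 hNB hNA n1 n2 (2 * D2) D1 D2 1 hn2 hn12
    hn1c hn2c hd1 hd2 (by omega) (by omega) ?_ hh1 Inv hInv a0 b0 hb0
  apply half_of_exp NB (2 * D2) n2 (by omega) B3
  · intro b hb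
    have := hcB b hb
    omega
  · intro Q hQ h
    have h1 := hh1 Q hQ (by omega)
    have h2 : 3 * (2 * D2) * #Q = 6 * D2 * #Q := by ring
    rw [h2]
    exact h1

theorem embed_case2 (T : SimpleGraph V) [DecidableRel T.Adj] (hac : T.IsAcyclic)
    (hcon : T.Preconnected)
    (col : V → Bool) (hcol : ∀ u v, T.Adj u v → col u ≠ col v) (u0 : V) (hc0 : col u0 = false)
    (NB : B → Finset A) (NA : A → Finset B) (A3 : Finset A) (B3 : Finset B)
    (hB3 : B3.Nonempty)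
    (hNB : ∀ b ∈ B3, NB b ⊆ A3) (hNA : ∀ w ∈ A3, NA w ⊆ B3)
    (n1 n2 D1 D2 δ : ℕ) (hn2 : 0 < n2) (hn12 : n2 ≤ n1) (hD1 : 0 < D1) (hδ : 0 < δ)
    (hD2 : D2 ≤ δ) (hD1n : D1 ≤ n2)
    (hn1c : #(univ.filter (fun x => col x = true)) ≤ n1)
    (hn2c : #(univ.filter (fun x => col x = false)) ≤ n2)
    (hd1 : ∀ v, col v = true → T.degree v ≤ D1) (hd2 : ∀ v, col v = false → T.degree v ≤ D2)
    (hcB : ∀ b ∈ B3, #(NB b) = 16 * δ)
    (hh1 : ∀ Q ⊆ B3, #(Q.biUnion NB) ≤ 32 * n1 → 6 * D2 * #Q ≤ #(Q.biUnion NB))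
    (hh3 : ∀ Q ⊆ B3, #(Q.biUnion NB) ≤ 32 * n2 → 15 * δ * #Q ≤ #(Q.biUnion NB))
    (hbad : ∀ H : Finset B, #H ≤ 16 * n2 →
      #(B3.filter (fun b => 2 * δ ≤ #((NB b).filter (fun w => #(NA w \ H) < 16 * D1)))) *
        (32 * (16 * D1) * δ) ≤ #H) :
    ∃ (gA : V → A) (gB : V → B),
      (∀ x y, col x = true → col y = true → gA x = gA y → x = y) ∧
      (∀ x y, col x = false → col y = false → gB x = gB y → x = y) ∧
      (∀ u w, T.Adj u w → col u = false → col w = true →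
        gB u ∈ B3 ∧ (gA w ∈ NB (gB u) ∨ (gA w ∈ A3 ∧ gB u ∈ NA (gA w)))) := by
  classical
  obtain ⟨b0, hb0⟩ := hB3
  have hne : (NB b0).Nonempty := by
    rw [← card_pos]
    have := hcB b0 hb0
    omega
  obtain ⟨a0, ha0⟩ := hne
  obtain ⟨Inv, hInv⟩ := game2 NB NA B3 δ n2 D1 D2 hn2 hD1 hD1n hD2 hδ hcB hbad
  refine embed T hac hcon col hcol u0 hc0 NB NA A3 B3 hNB hNA n1 n2 (4 * δ) D1 D2
    (4 * δ - D2 + 1) hn2 hn12 hn1c hn2c hd1 hd2 (by omega) (by omega) ?_ hh1 Inv hInv a0 b0 hb0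
  apply half_of_exp NB (4 * δ) n2 (by omega) B3
  · intro b hb
    have := hcB b hb
    omega
  · intro Q hQ h
    have h1 := hh3 Q hQ h
    have h2 : 3 * (4 * δ) * #Q ≤ 15 * δ * #Q := Nat.mul_le_mul_right _ (by omega)
    omega

end embedcases

end Pool.Agent.Lib.MP_366c56_co
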