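import Pool.Agent.Lib.MP_366c56_co.Rand

set_option autoImplicit false
set_option linter.unusedSectionVars false
set_option linter.unusedVariables false

namespace Pool.Agent.Lib.MP_366c56_co

open Finset

variable {A B : Type*} [Fintype A] [DecidableEq A] [Fintype B] [DecidableEq B]

lemma mu_dense (M : ℕ) (hM : M ≤ Fintype.card A) (hA : 0 < Fintype.card A) (q h t : ℕ) :
    mu (Om A B M) (fun G => ∃ Q ∈ powersetCard q (univ : Finset B),
      ∃ H ∈ powersetCard h (univ : Finset A), ∃ E0 ∈ powersetCard t (Q ×ˢ H),
        ∀ e ∈ E0, e.2 ∈ G e.1) ≤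
      ((Fintype.card B).choose q : ℝ) * ((Fintype.card A).choose h : ℝ) *
        ((q * h).choose t : ℝ) * ((M : ℝ) / Fintype.card A) ^ t := by
  classical
  have e1 : (#(powersetCard q (univ : Finset B)) : ℝ) = ((Fintype.card B).choose q : ℝ) := by
    rw [card_powersetCard, card_univ]
  have e2 : (#(powersetCard h (univ : Finset A)) : ℝ) = ((Fintype.card A).choose h : ℝ) := by
    rw [card_powersetCard, card_univ]
  refine (mu_exists_le_const _ _ _ (((Fintype.card A).choose h : ℝ) *
        (((q * h).choose t : ℝ) * ((M : ℝ) / Fintype.card A) ^ t)) ?_).trans (le_of_eq ?_)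
  · intro Q hQ
    rw [← e2]
    apply mu_exists_le_const
    intro H hH
    have hc : #(powersetCard t (Q ×ˢ H)) = (q * h).choose t := by
      rw [card_powersetCard, card_product, (mem_powersetCard.1 hQ).2, (mem_powersetCard.1 hH).2]
    rw [← hc]
    apply mu_exists_le_const
    intro E0 hE0
    refine (mu_edges M hM hA E0).trans (le_of_eq ?_)
    rw [(mem_powersetCard.1 hE0).2]
  · rw [e1]; ring

lemma mu_dense' (M : ℕ) (hM : M ≤ Fintype.card A) (hA : 0 < Fintype.card A) (x h t : ℕ) :
    mu (Om A B M) (fun G => ∃ X ∈ powersetCard x (univ : Finset A),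
      ∃ H ∈ powersetCard h (univ : Finset B), ∃ E0 ∈ powersetCard t (H ×ˢ X),
        ∀ e ∈ E0, e.2 ∈ G e.1) ≤
      ((Fintype.card A).choose x : ℝ) * ((Fintype.card B).choose h : ℝ) *
        ((x * h).choose t : ℝ) * ((M : ℝ) / Fintype.card A) ^ t := by
  classical
  have e1 : (#(powersetCard h (univ : Finset B)) : ℝ) = ((Fintype.card B).choose h : ℝ) := by
    rw [card_powersetCard, card_univ]
  have e2 : (#(powersetCard x (univ : Finset A)) : ℝ) = ((Fintype.card A).choose x : ℝ) := by
    rw [card_powersetCard, card_univ]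
  refine (mu_exists_le_const _ _ _ (((Fintype.card B).choose h : ℝ) *
        (((x * h).choose t : ℝ) * ((M : ℝ) / Fintype.card A) ^ t)) ?_).trans (le_of_eq ?_)
  · intro X hX
    rw [← e1]
    apply mu_exists_le_const
    intro H hH
    have hc : #(powersetCard t (H ×ˢ X)) = (x * h).choose t := by
      rw [card_powersetCard, card_product, (mem_powersetCard.1 hX).2, (mem_powersetCard.1 hH).2,
        mul_comm]
    rw [← hc]
    apply mu_exists_le_const
    intro E0 hE0
    refine (mu_edges M hM hA E0).trans (le_of_eq ?_)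
    rw [(mem_powersetCard.1 hE0).2]
  · rw [e2]; ring

lemma mu_block (M : ℕ) (hM : M ≤ Fintype.card A) (hA : 0 < Fintype.card A) (q h s d : ℕ) :
    mu (Om A B M) (fun G => ∃ Q ∈ powersetCard q (univ : Finset B),
      ∃ H ∈ powersetCard h (univ : Finset B), ∃ W ∈ powersetCard s (univ : Finset A),
        ∀ w ∈ W, ∃ b ∈ Q, ∃ Hw ∈ powersetCard d H, b ∉ Hw ∧ w ∈ G b ∧ ∀ b' ∈ Hw, w ∈ G b') ≤
      ((Fintype.card B).choose q : ℝ) * ((Fintype.card B).choose h : ℝ) *
        ((Fintype.card A).choose s : ℝ) * ((q * h.choose d : ℕ) : ℝ) ^ s *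
        ((M : ℝ) / Fintype.card A) ^ ((d + 1) * s) := by
  classical
  have e1 : (#(powersetCard h (univ : Finset B)) : ℝ) = ((Fintype.card B).choose h : ℝ) := by
    rw [card_powersetCard, card_univ]
  have e2 : (#(powersetCard s (univ : Finset A)) : ℝ) = ((Fintype.card A).choose s : ℝ) := by
    rw [card_powersetCard, card_univ]
  have e3 : (#(powersetCard q (univ : Finset B)) : ℝ) = ((Fintype.card B).choose q : ℝ) := by
    rw [card_powersetCard, card_univ]
  refine (mu_exists_le_const _ _ _ (((Fintype.card B).choose h : ℝ) *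
        (((Fintype.card A).choose s : ℝ) * (((q * h.choose d : ℕ) : ℝ) ^ s *
        ((M : ℝ) / Fintype.card A) ^ ((d + 1) * s)))) ?_).trans (le_of_eq ?_)
  · intro Q hQ
    rw [← e1]
    apply mu_exists_le_const
    intro H hH
    rw [← e2]
    apply mu_exists_le_const
    intro W hW
    have hWc : #W = s := (mem_powersetCard.1 hW).2
    set I : Finset ({w // w ∈ W} → B × Finset B) :=
      Fintype.piFinset (fun _ => Q ×ˢ powersetCard d H) with hI
    have hIc : ((q * h.choose d : ℕ) : ℝ) ^ s = #I := by
      rw [hI, Fintype.card_piFinset, prod_const, card_product, card_powersetCard,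
        (mem_powersetCard.1 hQ).2, (mem_powersetCard.1 hH).2, card_univ, Fintype.card_coe, hWc]
      push_cast
      rfl
    rw [hIc]
    have key : ∀ g ∈ I, mu (Om A B M) (fun G => ∀ w : {w // w ∈ W}, (g w).1 ∉ (g w).2 ∧
        w.1 ∈ G (g w).1 ∧ ∀ b' ∈ (g w).2, w.1 ∈ G b') ≤
        ((M : ℝ) / Fintype.card A) ^ ((d + 1) * s) := by
      intro g hg
      rw [hI, Fintype.mem_piFinset] at hg
      by_cases hside : ∀ w : {w // w ∈ W}, (g w).1 ∉ (g w).2
      · set E0 : Finset (B × A) := (univ : Finset {w // w ∈ W}).biUnion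
          (fun w => (insert (g w).1 (g w).2).image (fun b => (b, w.1))) with hE0
        have hE0c : #E0 = (d + 1) * s := by
          rw [hE0, card_biUnion]
          · calc ∑ w : {w // w ∈ W}, #((insert (g w).1 (g w).2).image (fun b => (b, w.1)))
                = ∑ w : {w // w ∈ W}, (d + 1) := by
                  refine sum_congr rfl (fun w _ => ?_)
                  rw [card_image_of_injective _ (fun a b hab => (Prod.ext_iff.1 hab).1),
                    card_insert_of_notMem (hside w)]
                  have := (mem_product.1 (hg w)).2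
                  rw [(mem_powersetCard.1 this).2]
              _ = (d + 1) * s := by
                  rw [sum_const, smul_eq_mul, card_univ, Fintype.card_coe, hWc, mul_comm]
          · intro w _ w' _ hne
            rw [Function.onFun, disjoint_left]
            intro e he he'
            rw [mem_image] at he he'
            obtain ⟨b, _, rfl⟩ := he
            obtain ⟨b', _, h⟩ := he'
            exact hne (Subtype.ext (Prod.ext_iff.1 h).2.symm)
        rw [← hE0c]
        refine le_trans (mu_mono _ _ _ ?_) (mu_edges M hM hA E0)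
        intro G _ hG e he
        rw [hE0, mem_biUnion] at he
        obtain ⟨w, _, he⟩ := he
        rw [mem_image] at he
        obtain ⟨b, hb, rfl⟩ := he
        rw [mem_insert] at hb
        rcases hb with rfl | hb
        · exact (hG w).2.1
        · exact (hG w).2.2 b hb
      · rw [mu_false]
        · positivity
        · intro G _ hG
          exact hside (fun w => (hG w).1)
    refine le_trans (mu_mono _ _ _ ?_) (mu_exists_le_const (Om A B M) I _ _ key)
    intro G _ hG
    choose f hf1 F hF1 hF2 hF3 hF4 using hG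
    refine ⟨fun w => (f w.1 w.2, F w.1 w.2), ?_, ?_⟩
    · rw [hI, Fintype.mem_piFinset]
      intro w
      rw [mem_product]
      exact ⟨hf1 w.1 w.2, hF1 w.1 w.2⟩
    · intro w
      exact ⟨hF2 w.1 w.2, hF3 w.1 w.2, hF4 w.1 w.2⟩
  · rw [e3]; ring

end Pool.Agent.Lib.MP_366c56_co
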