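import Pool.Agent.Lib.MP_366c56_co.Pot

set_option autoImplicit false
set_option linter.unusedSectionVars false
set_option linter.unusedVariables false

namespace Pool.Agent.Lib.MP_366c56_co

open Finset

section half

variable {R I : Type*} [DecidableEq R] [Fintype R] [DecidableEq I]

lemma half_of_exp (N : I → Finset R) (D n : ℕ) (hD : 0 < D) (J : Finset I)
    (hN : ∀ i ∈ J, 4 * D ≤ #(N i))
    (hexp : ∀ Q ⊆ J, #(Q.biUnion N) ≤ 32 * n → 3 * D * #Q ≤ #(Q.biUnion N))
    (H : Finset R) (hH : #H ≤ 16 * n) :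
    2 * psi N D (fun i => {i}) (fun _ => D) J H ≤ #H := by
  classical
  set Q : Finset I := J.filter (fun i => #(N i \ H) < D) with hQ
  have hpsi : psi N D (fun i => {i}) (fun _ => D) J H ≤ D * #Q := by
    unfold psi
    calc ∑ i ∈ J, (D - cap N D {i} H) ≤ ∑ i ∈ J, (if #(N i \ H) < D then D else 0) := by
          refine sum_le_sum (fun i _ => ?_)
          unfold cap
          rw [sum_singleton]
          split_ifs with h
          · omega
          · omega
      _ = D * #Q := by
          rw [← sum_filter, sum_const, smul_eq_mul, mul_comm]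
  by_contra hcon
  rw [not_le] at hcon
  have h1 : #H < 2 * D * #Q := by
    calc #H < 2 * psi N D (fun i => {i}) (fun _ => D) J H := hcon
      _ ≤ 2 * (D * #Q) := by omega
      _ = 2 * D * #Q := by ring
  set q : ℕ := #H / (2 * D) + 1 with hq
  have hqQ : q ≤ #Q := by
    have : #H / (2 * D) < #Q := (Nat.div_lt_iff_lt_mul (by omega)).2 (by rw [mul_comm]; exact h1)
    exact Nat.succ_le_of_lt this
  obtain ⟨Q', hQ'Q, hQ'c⟩ := exists_subset_card_eq hqQ
  have hq1 : 2 * D * (q - 1) ≤ #H := by
    rw [hq, Nat.add_sub_cancel]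
    exact Nat.mul_div_le _ _
  have hq2 : #H < 2 * D * q := by
    rw [hq]
    exact Nat.lt_mul_div_succ _ (by omega)
  have hmem : ∀ i ∈ Q', i ∈ J ∧ #(N i \ H) < D := by
    intro i hi
    have := hQ'Q hi
    rw [hQ, mem_filter] at this
    exact this
  have hqpos : 0 < q := Nat.succ_pos _
  have hne : Q'.Nonempty := by
    rw [← card_pos, hQ'c]; exact hqpos
  obtain ⟨i0, hi0⟩ := hne
  have h3 : 3 * D ≤ #H := by
    have h4 := hN i0 (hmem i0 hi0).1
    have h5 := (hmem i0 hi0).2
    have h6 := card_le_card_sdiff_add_card (s := N i0) (t := H)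
    omega
  have hbi : #(Q'.biUnion N) + q ≤ #H + D * q := by
    have e1 : Q'.biUnion N ⊆ H ∪ Q'.biUnion (fun i => N i \ H) := by
      intro a ha
      rw [mem_biUnion] at ha
      obtain ⟨i, hi, hai⟩ := ha
      by_cases haH : a ∈ H
      · exact mem_union_left _ haH
      · exact mem_union_right _ (mem_biUnion.2 ⟨i, hi, mem_sdiff.2 ⟨hai, haH⟩⟩)
    have e2 : #(Q'.biUnion (fun i => N i \ H)) + q ≤ D * q := by
      have e3 : #(Q'.biUnion (fun i => N i \ H)) ≤ ∑ i ∈ Q', #(N i \ H) := card_biUnion_le
      have e4 : ∑ i ∈ Q', #(N i \ H) + ∑ i ∈ Q', 1 ≤ ∑ i ∈ Q', D := by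
        rw [← sum_add_distrib]
        exact sum_le_sum (fun i hi => (hmem i hi).2)
      rw [sum_const, sum_const, hQ'c, smul_eq_mul, smul_eq_mul] at e4
      rw [mul_comm D q]
      omega
    have e5 := (card_le_card e1).trans (card_union_le _ _)
    omega
  have hDq : 2 * (D * q) ≤ #H + 2 * D := by
    have : 2 * (D * q) = 2 * D * (q - 1) + 2 * D := by
      obtain ⟨m, hm⟩ : ∃ m, q = m + 1 := ⟨#H / (2 * D), hq⟩
      rw [hm, Nat.add_sub_cancel]; ring
    omega
  have h7 : #(Q'.biUnion N) ≤ 32 * n := by omega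
  have h8 := hexp Q' (hQ'Q.trans (filter_subset _ _)) h7
  rw [hQ'c] at h8
  have h9 : 3 * D * q = 2 * D * q + D * q := by ring
  omega

lemma init_val {Sub : Type*} (N : Sub → Finset R) (k hm : ℕ) (S : I → Finset Sub)
    (dem : I → ℕ) (J : Finset I)
    (hhalf : ∀ H : Finset R, #H ≤ hm → 2 * psi N k S dem J H ≤ #H) (U : Finset R)
    (hU : #U ≤ 1) : Val N k S dem J U hm := by
  intro H hH
  unfold slk
  have h1 := hhalf H hH
  have h2 := card_le_card_sdiff_add_card (s := H) (t := U)
  have h3 : psi N k S dem J H ≤ #(H \ U) := by omega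
  have h4 : (psi N k S dem J H : ℤ) ≤ #(H \ U) := by exact_mod_cast h3
  linarith

end half

section games

variable {A B : Type*} [Fintype A] [DecidableEq A] [Fintype B] [DecidableEq B]

/-- The invariant of the host side game. -/
def YGame (NB : B → Finset A) (NA : A → Finset B) (B3 : Finset B) (n2 R D1 D2 : ℕ)
    (Inv : Finset A → Finset B → (B → ℕ) → Prop) : Prop :=
  (∀ b ∈ B3, Inv ∅ {b} (fun _ => 0)) ∧
  ∀ (P : Finset A) (Y : Finset B) (use : B → ℕ), Inv P Y use → #Y ≤ n2 →
    ∀ b ∈ B3, ∀ Av : Finset A, Av ⊆ NB b \ P → R ≤ #Av → ∀ c ≤ D1, use b + c ≤ D1 * D2 →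
    ∃ w ∈ Av, ∃ S ⊆ NA w, Disjoint S Y ∧ #S = c ∧
      Inv (insert w P) (Y ∪ S) (Function.update use b (use b + c))

theorem game1 (NB : B → Finset A) (NA : A → Finset B) (A3 : Finset A) (B3 : Finset B)
    (hNB : ∀ b ∈ B3, NB b ⊆ A3) (n2 R D1 D2 : ℕ) (hR : 1 ≤ R) (hn2 : 0 < n2) (hD1 : 0 < D1)
    (hD1n : D1 ≤ n2)
    (hN : ∀ w ∈ A3, 4 * D1 ≤ #(NA w))
    (hexp : ∀ X ⊆ A3, #(X.biUnion NA) ≤ 32 * n2 → 3 * D1 * #X ≤ #(X.biUnion NA)) :
    ∃ Inv, YGame NB NA B3 n2 R D1 D2 Inv := by
  classical
  have hhalf := half_of_exp NA D1 n2 hD1 A3 hN hexp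
  refine ⟨fun P Y _ => ∃ dem : A → ℕ, (∀ w ∉ P, dem w = D1) ∧ (∀ w, dem w ≤ D1) ∧
    Val NA D1 (fun w => {w}) dem A3 Y (16 * n2), ?_, ?_⟩
  · intro b _
    exact ⟨fun _ => D1, fun _ _ => rfl, fun _ => le_rfl,
      init_val NA D1 _ _ _ A3 hhalf {b} (by simp)⟩
  · rintro P Y use ⟨dem, hd1, hd2, hval⟩ hY b hb Av hAv hRAv c hc -
    have hne : Av.Nonempty := by rw [← card_pos]; omega
    obtain ⟨w, hw⟩ := hne
    have hw' := mem_sdiff.1 (hAv hw)
    have hwA : w ∈ A3 := hNB b hb hw'.1
    have hdw := hd1 w hw'.2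
    obtain ⟨S, hSF, hSc, hS⟩ := fill NA D1 n2 (16 * n2) (fun w => {w}) dem (fun _ => D1) A3 Y rfl
      hn2 hhalf hd2 hY hval w hwA c (by omega) (NA w \ Y) disjoint_sdiff_self_left
      (by
        intro H hUH hH
        have h1 := hval H (by omega)
        have h2 := slk_erase NA D1 (fun w => {w}) dem hwA Y H
        have h3 : (NA w \ Y) \ H = NA w \ H := by
          rw [sdiff_sdiff_left]
          congr 1
          exact union_eq_right.2 hUH
        rw [h3]
        have h4 : cap NA D1 {w} H = min D1 #(NA w \ H) := by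
          unfold cap; rw [sum_singleton]
        rw [h4, hdw] at h2
        omega)
    refine ⟨w, hw, S, hSF.trans sdiff_subset, ?_, hSc, ?_⟩
    · exact disjoint_of_subset_left hSF disjoint_sdiff_self_left
    · refine ⟨_, ?_, ?_, hS⟩
      · intro v hv
        rw [mem_insert, not_or] at hv
        rw [Function.update_of_ne hv.1]
        exact hd1 v hv.2
      · intro v
        by_cases h : v = w
        · rw [h, Function.update_self]
          have := hd2 w
          omega
        · rw [Function.update_of_ne h]; exact hd2 v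


theorem game2 (NB : B → Finset A) (NA : A → Finset B) (B3 : Finset B)
    (δ n2 D1 D2 : ℕ) (hn2 : 0 < n2) (hD1 : 0 < D1) (hD1n : D1 ≤ n2) (hδ : D2 ≤ δ) (hδ0 : 0 < δ)
    (hcard : ∀ b ∈ B3, #(NB b) = 16 * δ)
    (hbad : ∀ H : Finset B, #H ≤ 16 * n2 →
      #(B3.filter (fun b => 2 * δ ≤ #((NB b).filter (fun w => #(NA w \ H) < 16 * D1)))) *
        (32 * (16 * D1) * δ) ≤ #H) :
    ∃ Inv, YGame NB NA B3 n2 (4 * δ - D2 + 1) D1 D2 Inv := by
  classical
  set k : ℕ := 16 * D1 with hk
  have hk0 : 0 < k := by omega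
  -- deficiency of a good client vanishes
  have hgood : ∀ H : Finset B, ∀ b ∈ B3,
      ¬ (2 * δ ≤ #((NB b).filter (fun w => #(NA w \ H) < k))) →
      14 * k * δ ≤ cap NA k (NB b) H := by
    intro H b hb hlt
    unfold cap
    have h1 : #((NB b).filter (fun w => #(NA w \ H) < k)) +
        #((NB b).filter (fun w => ¬ #(NA w \ H) < k)) = 16 * δ := by
      rw [← hcard b hb]
      exact card_filter_add_card_filter_not (s := NB b) (fun w => #(NA w \ H) < k)
    have h2 : 14 * δ ≤ #((NB b).filter (fun w => ¬ #(NA w \ H) < k)) := by omega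
    calc 14 * k * δ = k * (14 * δ) := by ring
      _ ≤ k * #((NB b).filter (fun w => ¬ #(NA w \ H) < k)) := Nat.mul_le_mul_left _ h2
      _ = ∑ w ∈ (NB b).filter (fun w => ¬ #(NA w \ H) < k), k := by
          rw [sum_const, smul_eq_mul, mul_comm]
      _ ≤ ∑ w ∈ (NB b).filter (fun w => ¬ #(NA w \ H) < k), min k #(NA w \ H) := by
          refine sum_le_sum (fun w hw => ?_)
          have := (mem_filter.1 hw).2
          omega
      _ ≤ ∑ w ∈ NB b, min k #(NA w \ H) := sum_le_sum_of_subset (filter_subset _ _)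
  set Bad : Finset B → Finset B := fun H =>
    B3.filter (fun b => 2 * δ ≤ #((NB b).filter (fun w => #(NA w \ H) < k))) with hBad
  have hpsi0 : ∀ H : Finset B, psi NA k NB (fun _ => 14 * k * δ) B3 H ≤ #(Bad H) * (14 * k * δ) := by
    intro H
    unfold psi
    calc ∑ b ∈ B3, (14 * k * δ - cap NA k (NB b) H)
        ≤ ∑ b ∈ B3, (if 2 * δ ≤ #((NB b).filter (fun w => #(NA w \ H) < k)) then 14 * k * δ
            else 0) := by
          refine sum_le_sum (fun b hb => ?_)
          split_ifs with h
          · exact Nat.sub_le _ _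
          · rw [Nat.le_zero, Nat.sub_eq_zero_iff_le]
            exact hgood H b hb h
      _ = #(Bad H) * (14 * k * δ) := by
          rw [← sum_filter, sum_const, smul_eq_mul]
  have hhalf : ∀ H : Finset B, #H ≤ 16 * n2 →
      2 * psi NA k NB (fun _ => 14 * k * δ) B3 H ≤ #H := by
    intro H hH
    have h1 := hpsi0 H
    have h2 := hbad H hH
    calc 2 * psi NA k NB (fun _ => 14 * k * δ) B3 H ≤ 2 * (#(Bad H) * (14 * k * δ)) :=
          Nat.mul_le_mul_left _ h1
      _ = #(Bad H) * (28 * k * δ) := by ring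
      _ ≤ #(Bad H) * (32 * k * δ) := by
          apply Nat.mul_le_mul_left
          apply Nat.mul_le_mul_right
          omega
      _ ≤ #H := h2
  refine ⟨fun _ Y use => ∃ dem : B → ℕ, (∀ b, 14 * k * δ ≤ dem b + use b) ∧
    (∀ b, dem b ≤ 14 * k * δ) ∧ Val NA k NB dem B3 Y (16 * n2), ?_, ?_⟩
  · intro b _
    exact ⟨fun _ => 14 * k * δ, fun _ => by simp, fun _ => le_rfl,
      init_val NA k _ _ _ B3 hhalf {b} (by simp)⟩
  · rintro P Y use ⟨dem, hd1, hd2, hval⟩ hY b hb Av hAv hRAv c hc huse
    set t : Finset B → ℤ := slk NA k NB dem (B3.erase b) Y with ht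
    -- the unfillable connectors
    set X : Finset A := Av.filter (fun w => ∃ H : Finset B, Y ⊆ H ∧ #H ≤ 9 * n2 ∧
      t H + #(NA w \ H) < c) with hX
    have hXN : X ⊆ NB b := (filter_subset _ _).trans (hAv.trans sdiff_subset)
    have hXex : ∀ w : A, ∃ H : Finset B, w ∈ X → (Y ⊆ H ∧ #H ≤ 9 * n2 ∧
      t H + #(NA w \ H) < c) := by
      intro w
      by_cases hw : w ∈ X
      · obtain ⟨H, hH⟩ := (mem_filter.1 hw).2
        exact ⟨H, fun _ => hH⟩
      · exact ⟨∅, fun h => absurd h hw⟩
    choose f hf using hXex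
    have hXlt : #X < 4 * δ - D2 + 1 := by
      by_cases hcase : 32 * k * δ ≤ 16 * n2
      · have hf1 : ∀ w ∈ X, #(f w) < 8 * n2 := by
          intro w hw
          by_contra hcon
          rw [not_lt] at hcon
          obtain ⟨h1, h2, h3⟩ := hf w hw
          have h4 := slk_big NA k n2 (16 * n2) NB dem (fun _ => 14 * k * δ) B3 Y hhalf hd2 hY b
            (f w) hcon (by omega)
          rw [← ht] at h4
          have h5 : (0 : ℤ) ≤ #(NA w \ f w) := by positivity
          omega
        have hf2 : ∀ w ∈ X, t (f w) ≤ D1 := by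
          intro w hw
          obtain ⟨h1, h2, h3⟩ := hf w hw
          have h5 : (0 : ℤ) ≤ #(NA w \ f w) := by positivity
          omega
        have hXc : #X ≤ 16 * δ := by rw [← hcard b hb]; exact card_le_card hXN
        have hnn : ∀ H, #H ≤ 16 * n2 → 0 ≤ t H := fun H hH =>
          slk_erase_nonneg NA k _ NB dem B3 Y hval b H hH
        obtain ⟨hu1, hu2⟩ := union_bound t (8 * n2) (16 * n2) D1
          (fun X Y => slk_sub NA k NB dem _ _ X Y) hnn
          (slk_empty NA k (16 * n2) NB dem _ Y (hnn ∅ (by simp))) (by omega) (by omega) X f hf1 hf2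
          (by
            intro H h1 h2
            have h4 := slk_big NA k n2 (16 * n2) NB dem (fun _ => 14 * k * δ) B3 Y hhalf hd2 hY b
              H h1 h2
            rw [← ht] at h4
            have h5 : D1 * #X < 3 * n2 := by
              have h6 : D1 * #X ≤ D1 * (16 * δ) := Nat.mul_le_mul_left _ hXc
              have h7 : 32 * k * δ = 32 * (D1 * (16 * δ)) := by rw [hk]; ring
              omega
            have h6 : ((D1 * #X : ℕ) : ℤ) < ((3 * n2 : ℕ) : ℤ) := by exact_mod_cast h5
            push_cast at h6 ⊢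
            linarith)
        set Hs : Finset B := X.biUnion f with hHs
        have e1 := hval Hs (by omega)
        have e2 := slk_erase NA k NB dem hb Y Hs
        rw [← ht] at e2
        have e3 : (dem b : ℤ) ≤ t Hs + cap NA k (NB b) Hs := by omega
        have e4 : cap NA k (NB b) Hs + k * #X ≤ ∑ w ∈ X, #(NA w \ f w) + k * (16 * δ) := by
          unfold cap
          have h1 : ∑ w ∈ X, min k #(NA w \ Hs) + ∑ w ∈ NB b \ X, min k #(NA w \ Hs) =
              ∑ w ∈ NB b, min k #(NA w \ Hs) := by
            rw [add_comm]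
            exact sum_sdiff hXN
          have h2 : ∑ w ∈ NB b \ X, min k #(NA w \ Hs) ≤ ∑ w ∈ NB b \ X, k :=
            sum_le_sum (fun w _ => min_le_left _ _)
          have h3 : ∑ w ∈ X, min k #(NA w \ Hs) ≤ ∑ w ∈ X, #(NA w \ f w) := by
            refine sum_le_sum (fun w hw => (min_le_right _ _).trans ?_)
            exact card_le_card (sdiff_subset_sdiff subset_rfl (subset_biUnion_of_mem f hw))
          have h4 : #(NB b \ X) + #X = 16 * δ := by
            rw [← hcard b hb]
            exact card_sdiff_add_card_eq_card hXN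
          have h5 : ∑ w ∈ NB b \ X, k + k * #X = k * (16 * δ) := by
            rw [sum_const, smul_eq_mul, ← h4]; ring
          omega
        have e5 : ∑ w ∈ X, (t (f w) + #(NA w \ f w)) ≤ (D1 : ℤ) * #X := by
          calc ∑ w ∈ X, (t (f w) + #(NA w \ f w)) ≤ ∑ w ∈ X, (D1 : ℤ) := by
                refine sum_le_sum (fun w hw => ?_)
                obtain ⟨h1, h2, h3⟩ := hf w hw
                have : (c : ℤ) ≤ D1 := by exact_mod_cast hc
                linarith
            _ = (D1 : ℤ) * #X := by rw [sum_const, nsmul_eq_mul, mul_comm]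
        rw [sum_add_distrib] at e5
        have e6 : (cap NA k (NB b) Hs : ℤ) + k * #X ≤
            ∑ w ∈ X, (#(NA w \ f w) : ℤ) + k * (16 * δ) := by exact_mod_cast e4
        have e7 : (14 * k * δ : ℤ) ≤ dem b + use b := by exact_mod_cast hd1 b
        have e8 : (use b : ℤ) ≤ D1 * D2 := by
          have : use b ≤ D1 * D2 := by omega
          exact_mod_cast this
        have e9 : (k : ℤ) = 16 * D1 := by rw [hk]; push_cast; ring
        have e10 : (D1 : ℤ) * (15 * #X) ≤ D1 * (32 * δ + D2) := by
          rw [e9] at e6 e7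
          nlinarith
        have hD1' : (0 : ℤ) < D1 := by exact_mod_cast hD1
        have e11 := le_of_mul_le_mul_left e10 hD1'
        omega
      · rw [not_le] at hcase
        have hbad0 : ∀ H : Finset B, #H ≤ 16 * n2 → Bad H = ∅ := by
          intro H hH
          rw [← card_eq_zero]
          by_contra hne
          have h1 : 1 ≤ #(Bad H) := Nat.one_le_iff_ne_zero.2 hne
          have h2 := hbad H hH
          have h3 : 1 * (32 * k * δ) ≤ #(Bad H) * (32 * k * δ) := Nat.mul_le_mul_right _ h1
          have h4 : #(Bad H) * (32 * k * δ) ≤ #H := h2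
          omega
        have hsub : X ⊆ (NB b).filter (fun w => #(NA w \ Y) < k) := by
          intro w hw
          rw [mem_filter]
          refine ⟨hXN hw, ?_⟩
          obtain ⟨h1, h2, h3⟩ := hf w hw
          have h4 : psi NA k NB dem (B3.erase b) (f w) = 0 := by
            have h5 := psi_erase_le NA k NB dem B3 b (f w)
            have h6 := psi_mono_dem NA k NB B3 (f w) hd2
            have h7 := hpsi0 (f w)
            rw [hbad0 (f w) (by omega)] at h7
            simp at h7
            omega
          have h5 : t (f w) = #(f w \ Y) := by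
            rw [ht]; unfold slk; rw [h4]; simp
          have h6 : #(NA w \ Y) ≤ #(f w \ Y) + #(NA w \ f w) := by
            have : NA w \ Y ⊆ (f w \ Y) ∪ (NA w \ f w) := by
              intro x hx
              simp only [mem_sdiff, mem_union] at hx ⊢
              by_cases hxf : x ∈ f w
              · exact Or.inl ⟨hxf, hx.2⟩
              · exact Or.inr ⟨hx.1, hxf⟩
            exact (card_le_card this).trans (card_union_le _ _)
          rw [h5] at h3
          omega
        have h1 : ¬ (2 * δ ≤ #((NB b).filter (fun w => #(NA w \ Y) < k))) := by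
          intro h
          have : b ∈ Bad Y := by rw [hBad]; exact mem_filter.2 ⟨hb, h⟩
          rw [hbad0 Y (by omega)] at this
          exact absurd this (notMem_empty _)
        have h2 := card_le_card hsub
        omega
    have hex : ∃ w ∈ Av, w ∉ X := by
      by_contra hcon
      push Not at hcon
      have := card_le_card (show Av ⊆ X from hcon)
      omega
    obtain ⟨w, hw, hwX⟩ := hex
    obtain ⟨S, hSF, hSc, hS⟩ := fill NA k n2 (16 * n2) NB dem (fun _ => 14 * k * δ) B3 Y rfl
      hn2 hhalf hd2 hY hval b hb c (by omega) (NA w \ Y) disjoint_sdiff_self_left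
      (by
        intro H hUH hH
        have h3 : (NA w \ Y) \ H = NA w \ H := by
          rw [sdiff_sdiff_left]
          congr 1
          exact union_eq_right.2 hUH
        rw [h3]
        by_contra hcon
        rw [not_le] at hcon
        exact hwX (mem_filter.2 ⟨hw, H, hUH, hH, hcon⟩))
    refine ⟨w, hw, S, hSF.trans sdiff_subset, ?_, hSc, ?_⟩
    · exact disjoint_of_subset_left hSF disjoint_sdiff_self_left
    · refine ⟨_, ?_, ?_, hS⟩
      · intro v
        by_cases h : v = b
        · rw [h, Function.update_self, Function.update_self]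
          have := hd1 b
          omega
        · rw [Function.update_of_ne h, Function.update_of_ne h]
          exact hd1 v
      · intro v
        by_cases h : v = b
        · rw [h, Function.update_self]
          have := hd2 b
          omega
        · rw [Function.update_of_ne h]; exact hd2 v

end games

end Pool.Agent.Lib.MP_366c56_co
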