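import Pool.Agent.Lib.MP_366c56_co.Det

set_option autoImplicit false
set_option linter.unusedSectionVars false
set_option linter.unusedVariables false

namespace Pool.Agent.Lib.MP_366c56_co

open Finset

lemma mu_sum {α : Type*} (Ω : Finset α) (N : ℕ) (cond : ℕ → Prop) (P : ℕ → α → Prop)
    (h : ∀ q, 1 ≤ q → cond q → mu Ω (P q) ≤ (1 / 8) ^ q) :
    mu Ω (fun G => ∃ q ∈ Icc 1 N, cond q ∧ P q G) ≤ 1 / 7 := by
  refine (mu_exists_le Ω (Icc 1 N) (fun q G => cond q ∧ P q G)).trans ?_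
  refine le_trans (sum_le_sum (fun q hq => ?_)) (geom_le N)
  rw [mem_Icc] at hq
  by_cases hc : cond q
  · exact (mu_mono Ω _ _ (fun G _ hG => hG.2)).trans (h q hq.1 hc)
  · rw [mu_false Ω _ (fun G _ hG => hc hG.1)]
    positivity

section

variable {A B : Type*} [Fintype A] [DecidableEq A] [Fintype B] [DecidableEq B]

/-- Some `q` vertices of `B` send `t` edges to some `h` vertices of `A`. -/
def EvD (q h t : ℕ) (G : B → Finset A) : Prop := ∃ Q ∈ powersetCard q (univ : Finset B),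
      ∃ H ∈ powersetCard h (univ : Finset A), ∃ E0 ∈ powersetCard t (Q ×ˢ H),
        ∀ e ∈ E0, e.2 ∈ G e.1

/-- Some `x` vertices of `A` send `t` edges to some `h` vertices of `B`. -/
def EvE (x h t : ℕ) (G : B → Finset A) : Prop := ∃ X ∈ powersetCard x (univ : Finset A),
      ∃ H ∈ powersetCard h (univ : Finset B), ∃ E0 ∈ powersetCard t (H ×ˢ X),
        ∀ e ∈ E0, e.2 ∈ G e.1

/-- Many blocked connectors. -/
def EvB (q h s d : ℕ) (G : B → Finset A) : Prop := ∃ Q ∈ powersetCard q (univ : Finset B),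
      ∃ H ∈ powersetCard h (univ : Finset B), ∃ W ∈ powersetCard s (univ : Finset A),
        ∀ w ∈ W, ∃ b ∈ Q, ∃ Hw ∈ powersetCard d H, b ∉ Hw ∧ w ∈ G b ∧ ∀ b' ∈ Hw, w ∈ G b'

lemma avoidD (G : B → Finset A) (NB : B → Finset A) (B3 : Finset B) (d c q : ℕ)
    (hG : ∀ b ∈ B3, ∀ w ∈ NB b, w ∈ G b) (hcard : ∀ b ∈ B3, #(NB b) = d)
    (h : ¬ EvD q (c * q) (d * q) G) :
    ∀ Q ⊆ B3, #Q = q → ∀ H : Finset A, #H = c * q → ¬ (Q.biUnion NB ⊆ H) := by
  classical
  intro Q hQ hQc H hHc hsub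
  apply h
  refine ⟨Q, mem_powersetCard.2 ⟨subset_univ _, hQc⟩, H, mem_powersetCard.2 ⟨subset_univ _, hHc⟩,
    Q.biUnion (fun b => (NB b).image (fun w => (b, w))), ?_, ?_⟩
  · rw [mem_powersetCard]
    constructor
    · intro e he
      rw [mem_biUnion] at he
      obtain ⟨b, hb, he⟩ := he
      rw [mem_image] at he
      obtain ⟨w, hw, rfl⟩ := he
      exact mem_product.2 ⟨hb, hsub (mem_biUnion.2 ⟨b, hb, hw⟩)⟩
    · rw [card_biUnion]
      · calc ∑ b ∈ Q, #((NB b).image (fun w => (b, w))) = ∑ b ∈ Q, d := by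
              refine sum_congr rfl (fun b hb => ?_)
              rw [card_image_of_injective _ (fun x y hxy => (Prod.ext_iff.1 hxy).2)]
              exact hcard b (hQ hb)
          _ = d * q := by rw [sum_const, hQc, smul_eq_mul, mul_comm]
      · intro b _ b' _ hne
        rw [Function.onFun, disjoint_left]
        intro e he he'
        rw [mem_image] at he he'
        obtain ⟨w, _, rfl⟩ := he
        obtain ⟨w', _, h'⟩ := he'
        exact hne (Prod.ext_iff.1 h').1.symm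
  · intro e he
    rw [mem_biUnion] at he
    obtain ⟨b, hb, he⟩ := he
    rw [mem_image] at he
    obtain ⟨w, hw, rfl⟩ := he
    exact hG b (hQ hb) w hw

lemma avoidE (G : B → Finset A) (NA : A → Finset B) (A3 : Finset A) (d c q : ℕ)
    (hG : ∀ w ∈ A3, ∀ b ∈ NA w, w ∈ G b) (hcard : ∀ w ∈ A3, #(NA w) = d)
    (h : ¬ EvE q (c * q) (d * q) G) :
    ∀ X ⊆ A3, #X = q → ∀ H : Finset B, #H = c * q → ¬ (X.biUnion NA ⊆ H) := by
  classical
  intro Q hQ hQc H hHc hsub
  apply h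
  refine ⟨Q, mem_powersetCard.2 ⟨subset_univ _, hQc⟩, H, mem_powersetCard.2 ⟨subset_univ _, hHc⟩,
    Q.biUnion (fun w => (NA w).image (fun b => (b, w))), ?_, ?_⟩
  · rw [mem_powersetCard]
    constructor
    · intro e he
      rw [mem_biUnion] at he
      obtain ⟨w, hw, he⟩ := he
      rw [mem_image] at he
      obtain ⟨b, hb, rfl⟩ := he
      exact mem_product.2 ⟨hsub (mem_biUnion.2 ⟨w, hw, hb⟩), hw⟩
    · rw [card_biUnion]
      · calc ∑ w ∈ Q, #((NA w).image (fun b => (b, w))) = ∑ b ∈ Q, d := by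
              refine sum_congr rfl (fun b hb => ?_)
              rw [card_image_of_injective _ (fun x y hxy => (Prod.ext_iff.1 hxy).1)]
              exact hcard b (hQ hb)
          _ = d * q := by rw [sum_const, hQc, smul_eq_mul, mul_comm]
      · intro b _ b' _ hne
        rw [Function.onFun, disjoint_left]
        intro e he he'
        rw [mem_image] at he he'
        obtain ⟨w, _, rfl⟩ := he
        obtain ⟨w', _, h'⟩ := he'
        exact hne (Prod.ext_iff.1 h').2.symm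
  · intro e he
    rw [mem_biUnion] at he
    obtain ⟨w, hw, he⟩ := he
    rw [mem_image] at he
    obtain ⟨b, hb, rfl⟩ := he
    exact hG w (hQ hw) b hb

end

/-- `G` hosts the tree in every dense subgraph. -/
def HostOK {V A B : Type*} (T : SimpleGraph V) (col : V → Bool) (G : B → Finset A) (m : ℕ) :
    Prop :=
  ∀ E : Finset (B × A), (∀ e ∈ E, e.2 ∈ G e.1) → m ≤ #E →
    ∃ (gA : V → A) (gB : V → B),
      (∀ x y, col x = true → col y = true → gA x = gA y → x = y) ∧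
      (∀ x y, col x = false → col y = false → gB x = gB y → x = y) ∧
      (∀ u w, T.Adj u w → col u = false → col w = true → (gB u, gA w) ∈ E)

section hosts

variable {V : Type*} [Fintype V] [DecidableEq V]

theorem host_random (T : SimpleGraph V) [DecidableRel T.Adj] (hac : T.IsAcyclic)
    (hcon : T.Preconnected)
    (col : V → Bool) (hcol : ∀ u v, T.Adj u v → col u ≠ col v) (u0 : V) (hc0 : col u0 = false)
    (r L n1 n2 D1 D2 δ dA : ℕ) (hr : r ≤ 2 ^ L) (hr0 : 0 < r) (hL : 1 ≤ L)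
    (hn2 : 0 < n2) (hn12 : n2 ≤ n1) (hD1 : 0 < D1) (hD2 : 0 < D2)
    (hD1n : D1 ≤ n2)
    (hn1c : #(univ.filter (fun x => col x = true)) ≤ n1)
    (hn2c : #(univ.filter (fun x => col x = false)) ≤ n2)
    (hd1 : ∀ v, col v = true → T.degree v ≤ D1) (hd2 : ∀ v, col v = false → T.degree v ≤ D2)
    (hδ : 1024 * L * D2 ≤ δ) (hdA : 16384 * L * D1 ≤ dA) (hdA1 : n1 * dA ≤ 16 * n2 * δ)
    (hdA2 : 16 * n2 * δ ≤ 2 * (n1 * dA)) (hM : δ ≤ 64 * n1) :
    ∃ G : Fin (6144 * r * n2) → Finset (Fin (6144 * r * n1)), (∀ b, #(G b) = 96 * r * δ) ∧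
      HostOK T col G (6144 * r * n2 * (96 * δ)) := by
  classical
  have hn1 : 0 < n1 := lt_of_lt_of_le hn2 hn12
  have hLD2 : 1 ≤ L * D2 := Nat.mul_pos hL hD2
  have hδ1 : D2 ≤ L * D2 := Nat.le_mul_of_pos_left D2 hL
  have hδ2 : 1024 * L * D2 = 1024 * (L * D2) := by ring
  have hδ0 : 0 < δ := by omega
  have hLD1 : 1 ≤ L * D1 := Nat.mul_pos hL hD1
  have hdA3 : D1 ≤ L * D1 := Nat.le_mul_of_pos_left D1 hL
  have hdA4 : 16384 * L * D1 = 16384 * (L * D1) := by ring
  have hcA : Fintype.card (Fin (6144 * r * n1)) = 6144 * r * n1 := Fintype.card_fin _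
  have hcB : Fintype.card (Fin (6144 * r * n2)) = 6144 * r * n2 := Fintype.card_fin _
  have hMa : 96 * r * δ ≤ Fintype.card (Fin (6144 * r * n1)) := by
    rw [hcA]
    calc 96 * r * δ ≤ 96 * r * (64 * n1) := Nat.mul_le_mul_left _ hM
      _ = 6144 * r * n1 := by ring
  have hApos : 0 < Fintype.card (Fin (6144 * r * n1)) := by rw [hcA]; positivity
  have hA64 : 64 * n1 ≤ 6144 * r * n1 := by
    apply Nat.mul_le_mul_right
    omega
  have hB64 : 64 * n2 ≤ 6144 * r * n2 := by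
    apply Nat.mul_le_mul_right
    omega
  have hρ : ((96 * r * δ : ℕ) : ℝ) / Fintype.card (Fin (6144 * r * n1)) = (δ : ℝ) / (64 * n1) := by
    rw [hcA]
    have h1 : (0 : ℝ) < n1 := by exact_mod_cast hn1
    have h2 : (0 : ℝ) < r := by exact_mod_cast hr0
    push_cast
    rw [div_eq_div_iff (by positivity) (by positivity)]
    ring
  set Ω := Om (Fin (6144 * r * n1)) (Fin (6144 * r * n2)) (96 * r * δ) with hΩ
  have hΩne : Ω.Nonempty := by
    rw [hΩ, Om, Fintype.piFinset_nonempty]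
    intro b
    exact powersetCard_nonempty.2 (by rw [card_univ]; exact hMa)
  have hΩm : ∀ G ∈ Ω, ∀ b, #(G b) = 96 * r * δ := by
    intro G hG b
    rw [hΩ, Om, Fintype.mem_piFinset] at hG
    exact (mem_powersetCard.1 (hG b)).2
  -- the first event
  have hE1 : mu Ω (fun G => ∃ q ∈ Icc 1 (64 * n1), (6 * D2 * q ≤ 64 * n1) ∧
      EvD q (6 * D2 * q) (16 * δ * q) G) ≤ 1 / 7 := by
    apply mu_sum
    intro q hq hc
    refine (mu_dense (96 * r * δ) hMa hApos q (6 * D2 * q) (16 * δ * q)).trans ?_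
    rw [hρ, hcA, hcB]
    exact N1 r L n1 n2 D2 δ q hr hr0 hL hn2 hn12 hD2 hδ hq hc
  -- cleaning
  have hclean : ∀ G ∈ Ω, ∀ E : Finset (Fin (6144 * r * n2) × Fin (6144 * r * n1)),
      6144 * r * n2 * (96 * δ) ≤ #E →
      2 * (16 * δ) * Fintype.card (Fin (6144 * r * n2)) +
        2 * dA * Fintype.card (Fin (6144 * r * n1)) < #E := by
    intro G hG E hE
    refine lt_of_lt_of_le ?_ hE
    rw [hcA, hcB]
    have h1 : 2 * dA * (6144 * r * n1) = 12288 * r * (n1 * dA) := by ring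
    have h2 : 12288 * r * (n1 * dA) ≤ 12288 * r * (16 * n2 * δ) := Nat.mul_le_mul_left _ hdA1
    have h3 : 12288 * r * (16 * n2 * δ) = 196608 * (r * n2 * δ) := by ring
    have h4 : 2 * (16 * δ) * (6144 * r * n2) = 196608 * (r * n2 * δ) := by ring
    have h5 : 6144 * r * n2 * (96 * δ) = 589824 * (r * n2 * δ) := by ring
    have h6 : 0 < r * n2 * δ := by positivity
    omega
  have hh1 : ∀ (G : Fin (6144 * r * n2) → Finset (Fin (6144 * r * n1)))
      (NB : Fin (6144 * r * n2) → Finset (Fin (6144 * r * n1)))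
      (B3 : Finset (Fin (6144 * r * n2))),
      (∀ b ∈ B3, ∀ w ∈ NB b, w ∈ G b) → (∀ b ∈ B3, #(NB b) = 16 * δ) →
      (¬ (∃ q ∈ Icc 1 (64 * n1), (6 * D2 * q ≤ 64 * n1) ∧
      EvD q (6 * D2 * q) (16 * δ * q) G)) →
      ∀ Q ⊆ B3, #(Q.biUnion NB) ≤ 32 * n1 → 6 * D2 * #Q ≤ #(Q.biUnion NB) := by
    intro G NB B3 h1 h2 h3
    apply exp_of_avoid NB B3 (16 * δ) (6 * D2) (32 * n1) (by omega) (by omega) h2 (by
      rw [hcA]; omega)
    intro q hq hq2
    have h4 : ¬ EvD q (6 * D2 * q) (16 * δ * q) G := by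
      intro h
      apply h3
      refine ⟨q, mem_Icc.2 ⟨hq, ?_⟩, by omega, h⟩
      have : q ≤ 6 * D2 * q := Nat.le_mul_of_pos_left q (by omega)
      omega
    exact avoidD G NB B3 (16 * δ) (6 * D2) q h1 h2 h4
  rcases le_total n1 (2 ^ (16 * L + 128) * n2) with hcase | hcase
  · -- Case 1
    have hE2 : mu Ω (fun G => ∃ q ∈ Icc 1 (64 * n2), (3 * D1 * q ≤ 64 * n2) ∧
        EvE q (3 * D1 * q) (dA * q) G) ≤ 1 / 7 := by
      apply mu_sum
      intro q hq hc
      refine (mu_dense' (96 * r * δ) hMa hApos q (3 * D1 * q) (dA * q)).trans ?_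
      rw [hρ, hcA, hcB]
      exact N2 r L n1 n2 D1 δ dA q hr hr0 hL hn2 hn1 hcase hD1 hdA hdA2 hq hc
    obtain ⟨G, hGΩ, hG⟩ := exists_of_mu_lt Ω hΩne _ (lt_of_le_of_lt
      ((mu_or Ω _ _).trans (add_le_add hE1 hE2)) (by norm_num))
    rw [not_or] at hG
    refine ⟨G, hΩm G hGΩ, ?_⟩
    intro E hEG hEc
    obtain ⟨A3, B3, NB, NA, hB3, hNB, hNA, hcNB, hcNA, hNBE, hNAE, hdisj⟩ :=
      clean E (16 * δ) dA (hclean G hGΩ E hEc)
    obtain ⟨gA, gB, h1, h2, h3⟩ := embed_case1 T hac hcon col hcol u0 hc0 NB NA A3 B3 hB3 hNB hNA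
      n1 n2 D1 D2 hn2 hn12 hD1 hD2 hD1n hn1c hn2c hd1 hd2
      (fun b hb => by rw [hcNB b hb]; omega) (fun w hw => by rw [hcNA w hw]; omega)
      (hh1 G NB B3 (fun b hb w hw => hEG _ (hNBE b hb w hw)) hcNB hG.1)
      (by
        apply exp_of_avoid NA A3 dA (3 * D1) (32 * n2) (by omega) (by omega) hcNA (by
          rw [hcB]; omega)
        intro q hq hq2
        have h4 : ¬ EvE q (3 * D1 * q) (dA * q) G := by
          intro h
          apply hG.2
          refine ⟨q, mem_Icc.2 ⟨hq, ?_⟩, by omega, h⟩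
          have : q ≤ 3 * D1 * q := Nat.le_mul_of_pos_left q (by omega)
          omega
        exact avoidE G NA A3 dA (3 * D1) q (fun w hw b hb => hEG _ (hNAE w hw b hb)) hcNA h4)
    refine ⟨gA, gB, h1, h2, ?_⟩
    intro u w huw hu hw
    obtain ⟨h4, h5⟩ := h3 u w huw hu hw
    rcases h5 with h5 | ⟨h5, h6⟩
    · exact hNBE _ h4 _ h5
    · exact hNAE _ h5 _ h6
  · -- Case 2
    have hE3 : mu Ω (fun G => ∃ q ∈ Icc 1 (64 * n2), (15 * δ * q ≤ 64 * n2) ∧
        EvD q (15 * δ * q) (16 * δ * q) G) ≤ 1 / 7 := by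
      apply mu_sum
      intro q hq hc
      refine (mu_dense (96 * r * δ) hMa hApos q (15 * δ * q) (16 * δ * q)).trans ?_
      rw [hρ, hcA, hcB]
      exact N3 r L n1 n2 δ q hr hr0 hL hn2 hcase hδ0 hq hc
    have hE4 : mu Ω (fun G => ∃ q ∈ Icc 1 (6144 * r * n2), True ∧
        EvB q (min (16 * n2) (512 * D1 * δ * q)) (δ * q) ((dA + 1) / 2) G) ≤ 1 / 7 := by
      apply mu_sum
      intro q hq _
      refine (mu_block (96 * r * δ) hMa hApos q (min (16 * n2) (512 * D1 * δ * q)) (δ * q)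
        ((dA + 1) / 2)).trans ?_
      rw [hρ, hcA, hcB]
      exact N4 r L n1 n2 D1 δ dA ((dA + 1) / 2) q _ hr hr0 hL hn2 hn1 hD1 hδ0 hdA2 (by omega)
        (by
          have : 8192 * L * D1 = 8192 * (L * D1) := by ring
          omega) hq (by
          rw [lt_min_iff]
          exact ⟨by omega, by positivity⟩) (min_le_left _ _) (min_le_right _ _)
    obtain ⟨G, hGΩ, hG⟩ := exists_of_mu_lt Ω hΩne _ (lt_of_le_of_lt
      ((mu_or Ω _ _).trans (add_le_add hE1 ((mu_or Ω _ _).trans (add_le_add hE3 hE4))))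
      (by norm_num))
    rw [not_or, not_or] at hG
    refine ⟨G, hΩm G hGΩ, ?_⟩
    intro E hEG hEc
    obtain ⟨A3, B3, NB, NA, hB3, hNB, hNA, hcNB, hcNA, hNBE, hNAE, hdisj⟩ :=
      clean E (16 * δ) dA (hclean G hGΩ E hEc)
    have hh3 : ∀ Q ⊆ B3, #(Q.biUnion NB) ≤ 32 * n2 → 15 * δ * #Q ≤ #(Q.biUnion NB) := by
      apply exp_of_avoid NB B3 (16 * δ) (15 * δ) (32 * n2) (by omega) (by omega) hcNB (by
        rw [hcA]; omega)
      intro q hq hq2
      have h4 : ¬ EvD q (15 * δ * q) (16 * δ * q) G := by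
        intro h
        apply hG.2.1
        refine ⟨q, mem_Icc.2 ⟨hq, ?_⟩, by omega, h⟩
        have : q ≤ 15 * δ * q := Nat.le_mul_of_pos_left q (by omega)
        omega
      exact avoidD G NB B3 (16 * δ) (15 * δ) q (fun b hb w hw => hEG _ (hNBE b hb w hw)) hcNB h4
    have hbad := bad_of_avoid NB NA A3 B3 hNB δ n2 D1 ((dA + 1) / 2) dA hδ0 hD1 hcNB hcNA
      (by omega) hdisj hh3 (by rw [hcB]; omega)
      (by
        intro q hq Q hQ hQc H hHc W hWc hcon'
        apply hG.2.2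
        refine ⟨q, mem_Icc.2 ⟨hq, ?_⟩, trivial, ?_⟩
        · rw [← hQc]; exact (card_le_univ Q).trans hcB.le
        · refine ⟨Q, mem_powersetCard.2 ⟨subset_univ _, hQc⟩, H,
            mem_powersetCard.2 ⟨subset_univ _, hHc⟩, W, mem_powersetCard.2 ⟨subset_univ _, hWc⟩, ?_⟩
          intro w hw
          obtain ⟨b, hb, Hw, hHw, h1, h2, h3⟩ := hcon' w hw
          have hwA : w ∈ A3 := hNB b (hQ hb) h2
          exact ⟨b, hb, Hw, hHw, h1, hEG _ (hNBE b (hQ hb) w h2),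
            fun b' hb' => hEG _ (hNAE w hwA b' (h3 b' hb'))⟩)
    obtain ⟨gA, gB, h1, h2, h3⟩ := embed_case2 T hac hcon col hcol u0 hc0 NB NA A3 B3 hB3 hNB hNA
      n1 n2 D1 D2 δ hn2 hn12 hD1 hδ0 (by omega) hD1n hn1c hn2c hd1 hd2 hcNB
      (hh1 G NB B3 (fun b hb w hw => hEG _ (hNBE b hb w hw)) hcNB hG.1) hh3 hbad
    refine ⟨gA, gB, h1, h2, ?_⟩
    intro u w huw hu hw
    obtain ⟨h4, h5⟩ := h3 u w huw hu hw
    rcases h5 with h5 | ⟨h5, h6⟩
    · exact hNBE _ h4 _ h5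
    · exact hNAE _ h5 _ h6

theorem host_complete (T : SimpleGraph V) [DecidableRel T.Adj] (hac : T.IsAcyclic)
    (hcon : T.Preconnected)
    (col : V → Bool) (hcol : ∀ u v, T.Adj u v → col u ≠ col v) (u0 : V) (hc0 : col u0 = false)
    (r n1 n2 D1 D2 : ℕ) (hr0 : 0 < r)
    (hn2 : 0 < n2) (hn12 : n2 ≤ n1) (hD1 : 0 < D1) (hD2 : 0 < D2)
    (hD1n : D1 ≤ n2) (hD2n : D2 ≤ n1)
    (hn1c : #(univ.filter (fun x => col x = true)) ≤ n1)
    (hn2c : #(univ.filter (fun x => col x = false)) ≤ n2)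
    (hd1 : ∀ v, col v = true → T.degree v ≤ D1) (hd2 : ∀ v, col v = false → T.degree v ≤ D2) :
    HostOK T col (fun _ : Fin (6144 * r * n2) => (univ : Finset (Fin (6144 * r * n1))))
      (6144 * r * n2 * (6144 * n1)) := by
  classical
  have hn1 : 0 < n1 := lt_of_lt_of_le hn2 hn12
  intro E hEG hEc
  obtain ⟨A3, B3, NB, NA, hB3, hNB, hNA, hcNB, hcNA, hNBE, hNAE, hdisj⟩ :=
    clean E (1024 * n1) (1024 * n2) (by
      refine lt_of_lt_of_le ?_ hEc
      rw [Fintype.card_fin, Fintype.card_fin]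
      have h1 : 2 * (1024 * n1) * (6144 * r * n2) = 12582912 * (r * n1 * n2) := by ring
      have h2 : 2 * (1024 * n2) * (6144 * r * n1) = 12582912 * (r * n1 * n2) := by ring
      have h3 : 6144 * r * n2 * (6144 * n1) = 37748736 * (r * n1 * n2) := by ring
      have h4 : 0 < r * n1 * n2 := by positivity
      omega)
  obtain ⟨gA, gB, h1, h2, h3⟩ := embed_case1 T hac hcon col hcol u0 hc0 NB NA A3 B3 hB3 hNB hNA
    n1 n2 D1 D2 hn2 hn12 hD1 hD2 hD1n hn1c hn2c hd1 hd2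
    (fun b hb => by rw [hcNB b hb]; omega) (fun w hw => by rw [hcNA w hw]; omega)
    (by
      intro Q hQ hle
      rcases Q.eq_empty_or_nonempty with h | ⟨b, hb⟩
      · rw [h]; simp
      · exfalso
        have h4 := card_le_card (subset_biUnion_of_mem NB hb)
        rw [hcNB b (hQ hb)] at h4
        omega)
    (by
      intro Q hQ hle
      rcases Q.eq_empty_or_nonempty with h | ⟨b, hb⟩
      · rw [h]; simp
      · exfalso
        have h4 := card_le_card (subset_biUnion_of_mem NA hb)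
        rw [hcNA b (hQ hb)] at h4
        omega)
  refine ⟨gA, gB, h1, h2, ?_⟩
  intro u w huw hu hw
  obtain ⟨h4, h5⟩ := h3 u w huw hu hw
  rcases h5 with h5 | ⟨h5, h6⟩
  · exact hNBE _ h4 _ h5
  · exact hNAE _ h5 _ h6

end hosts

end Pool.Agent.Lib.MP_366c56_co
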