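import Pool.Agent.Lib.MP_366c56_co.Host

set_option autoImplicit false
set_option linter.unusedSectionVars false
set_option linter.unusedVariables false

namespace Pool.Agent.Lib.MP_366c56_co

open Finset

/-- From a bipartite host to a graph on `Fin N`. -/
theorem ramsey_of_host {n a b : ℕ} (T : SimpleGraph (Fin n)) (col : Fin n → Bool)
    (hcol : ∀ u v, T.Adj u v → col u ≠ col v) (G : Fin b → Finset (Fin a)) (r k : ℕ) (hr : 0 < r)
    (hG : r * k ≤ ∑ x, #(G x)) (hM : HostOK T col G k) :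
    ∃ (N : ℕ) (H : SimpleGraph (Fin N)),
      (∀ c : Sym2 (Fin N) → Fin r, ∃ (f : Fin n → Fin N) (i : Fin r), Function.Injective f ∧
        ∀ u v, T.Adj u v → H.Adj (f u) (f v) ∧ c s(f u, f v) = i) ∧
      H.edgeSet.ncard ≤ ∑ x, #(G x) := by
  classical
  let e : Fin a ⊕ Fin b ≃ Fin (a + b) := finSumFinEquiv
  let H : SimpleGraph (Fin (a + b)) :=
    { Adj := fun x y => (∃ w v, x = e (Sum.inl w) ∧ y = e (Sum.inr v) ∧ w ∈ G v) ∨
        (∃ w v, y = e (Sum.inl w) ∧ x = e (Sum.inr v) ∧ w ∈ G v)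
      symm := ⟨by
        intro x y h
        rcases h with h | h
        · exact Or.inr h
        · exact Or.inl h⟩
      loopless := ⟨by
        intro x h
        rcases h with ⟨w, v, h1, h2, _⟩ | ⟨w, v, h1, h2, _⟩
        · have := e.injective (h1.symm.trans h2)
          simp at this
        · have := e.injective (h1.symm.trans h2)
          simp at this⟩ }
  set Pi : Finset (Fin b × Fin a) := univ.filter (fun p => p.2 ∈ G p.1) with hPi
  have hPic : #Pi = ∑ x, #(G x) := by
    have h1 : Pi = univ.biUnion (fun x => (G x).image (fun w => (x, w))) := by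
      ext p
      rw [hPi, mem_filter, mem_biUnion]
      constructor
      · rintro ⟨_, h⟩
        exact ⟨p.1, mem_univ _, mem_image.2 ⟨p.2, h, rfl⟩⟩
      · rintro ⟨x, _, h⟩
        obtain ⟨w, hw, rfl⟩ := mem_image.1 h
        exact ⟨mem_univ _, hw⟩
    rw [h1, card_biUnion]
    · refine sum_congr rfl (fun x _ => ?_)
      exact card_image_of_injective _ (fun x y hxy => (Prod.ext_iff.1 hxy).2)
    · intro x _ y _ hne
      rw [Function.onFun, disjoint_left]
      intro p hp hp'
      obtain ⟨w, _, rfl⟩ := mem_image.1 hp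
      obtain ⟨w', _, h'⟩ := mem_image.1 hp'
      exact hne (Prod.ext_iff.1 h').1.symm
  refine ⟨a + b, H, ?_, ?_⟩
  · intro c
    have hpig : ∃ i ∈ (univ : Finset (Fin r)),
        k ≤ #(Pi.filter (fun p => c s(e (Sum.inr p.1), e (Sum.inl p.2)) = i)) := by
      apply exists_le_card_fiber_of_mul_le_card_of_maps_to (fun _ _ => mem_univ _)
      · exact ⟨⟨0, hr⟩, mem_univ _⟩
      · rw [card_univ, Fintype.card_fin, hPic]
        exact hG
    obtain ⟨i, -, hi⟩ := hpig
    obtain ⟨gA, gB, h1, h2, h3⟩ := hM _ (fun p hp => (mem_filter.1 (mem_filter.1 hp).1).2) hi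
    have key : ∀ u v, T.Adj u v → col u = false → col v = true →
        gA v ∈ G (gB u) ∧ c s(e (Sum.inr (gB u)), e (Sum.inl (gA v))) = i := by
      intro u v huv hu hv
      have h4 := mem_filter.1 (h3 u v huv hu hv)
      exact ⟨(mem_filter.1 h4.1).2, h4.2⟩
    refine ⟨fun v => if col v = true then e (Sum.inl (gA v)) else e (Sum.inr (gB v)), i, ?_, ?_⟩
    · intro x y hxy
      simp only at hxy
      cases hx : col x <;> cases hy : col y
      · rw [hx, hy] at hxy
        simp only [Bool.false_eq_true, if_false] at hxy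
        have := e.injective hxy
        exact h2 x y hx hy (Sum.inr_injective this)
      · rw [hx, hy] at hxy
        simp only [Bool.false_eq_true, if_false, if_true] at hxy
        have := e.injective hxy
        simp at this
      · rw [hx, hy] at hxy
        simp only [Bool.false_eq_true, if_false, if_true] at hxy
        have := e.injective hxy
        simp at this
      · rw [hx, hy] at hxy
        simp only [if_true] at hxy
        have := e.injective hxy
        exact h1 x y hx hy (Sum.inl_injective this)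
    · intro u v huv
      have hne := hcol u v huv
      cases hu : col u <;> cases hv : col v
      · rw [hu, hv] at hne; exact absurd rfl hne
      · obtain ⟨h4, h5⟩ := key u v huv hu hv
        simp only [hu, hv, Bool.false_eq_true, if_false, if_true]
        exact ⟨Or.inr ⟨gA v, gB u, rfl, rfl, h4⟩, h5⟩
      · obtain ⟨h4, h5⟩ := key v u huv.symm hv hu
        simp only [hu, hv, Bool.false_eq_true, if_false, if_true]
        refine ⟨Or.inl ⟨gA u, gB v, rfl, rfl, h4⟩, ?_⟩
        rw [Sym2.eq_swap]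
        exact h5
      · rw [hu, hv] at hne; exact absurd rfl hne
  · have hsub : H.edgeSet ⊆
        ((Pi.image (fun p => s(e (Sum.inr p.1), e (Sum.inl p.2))) : Finset (Sym2 (Fin (a + b)))) :
          Set (Sym2 (Fin (a + b)))) := by
      intro x
      induction x using Sym2.ind with
      | _ x y =>
        intro hxy
        rw [SimpleGraph.mem_edgeSet] at hxy
        rw [mem_coe, mem_image]
        rcases hxy with ⟨w, v, rfl, rfl, h⟩ | ⟨w, v, rfl, rfl, h⟩
        · exact ⟨(v, w), mem_filter.2 ⟨mem_univ _, h⟩, Sym2.eq_swap⟩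
        · exact ⟨(v, w), mem_filter.2 ⟨mem_univ _, h⟩, rfl⟩
    calc H.edgeSet.ncard ≤ Set.ncard ((Pi.image (fun p => s(e (Sum.inr p.1), e (Sum.inl p.2))) :
          Finset (Sym2 (Fin (a + b)))) : Set (Sym2 (Fin (a + b)))) :=
          Set.ncard_le_ncard hsub (Finset.finite_toSet _)
      _ = #(Pi.image (fun p => s(e (Sum.inr p.1), e (Sum.inl p.2)))) := Set.ncard_coe_finset _
      _ ≤ #Pi := card_image_le
      _ = ∑ x, #(G x) := hPic

theorem main_ordered {n : ℕ} (T : SimpleGraph (Fin n)) [DecidableRel T.Adj] (hT : T.IsTree)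
    (hn : 2 ≤ n) (V1 : Finset (Fin n)) (hV : ∀ u v, T.Adj u v → (u ∈ V1 ↔ v ∉ V1))
    (r L : ℕ) (hr : r ≤ 2 ^ L) (hr0 : 0 < r) (hL : 1 ≤ L) (hle : #(V1ᶜ) ≤ #V1) :
    ∃ (N : ℕ) (H : SimpleGraph (Fin N)),
      (∀ c : Sym2 (Fin N) → Fin r, ∃ (f : Fin n → Fin N) (i : Fin r), Function.Injective f ∧
        ∀ u v, T.Adj u v → H.Adj (f u) (f v) ∧ c s(f u, f v) = i) ∧
      H.edgeSet.ncard ≤ 604569600 * r ^ 2 * L *
        (#V1 * V1.sup (fun v => T.degree v) + #(V1ᶜ) * (V1ᶜ).sup (fun v => T.degree v)) := by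
  classical
  set n1 : ℕ := #V1 with hn1
  set n2 : ℕ := #(V1ᶜ) with hn2
  set D1 : ℕ := V1.sup (fun v => T.degree v) with hD1
  set D2 : ℕ := (V1ᶜ).sup (fun v => T.degree v) with hD2
  set β : ℕ := n1 * D1 + n2 * D2 with hβ
  let col : Fin n → Bool := fun v => decide (v ∈ V1)
  have hcolt : ∀ v, col v = true ↔ v ∈ V1 := fun v => by simp [col]
  have hcolf : ∀ v, col v = false ↔ v ∉ V1 := fun v => by simp [col]
  have hcol : ∀ u v, T.Adj u v → col u ≠ col v := by
    intro u v huv h
    have := hV u v huv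
    by_cases hv : v ∈ V1
    · rw [(hcolt v).2 hv, hcolt] at h
      exact (this.1 h) hv
    · rw [(hcolf v).2 hv, hcolf] at h
      exact h (this.2 hv)
  haveI : Nontrivial (Fin n) := Fin.nontrivial_iff_two_le.2 hn
  have hconn := hT.connected
  obtain ⟨x0⟩ := hconn.nonempty
  obtain ⟨y0, hxy0⟩ := hconn.preconnected.exists_adj_of_nontrivial x0
  obtain ⟨u0, w0, hu0, hw0, huw0⟩ : ∃ u w, u ∉ V1 ∧ w ∈ V1 ∧ T.Adj u w := by
    by_cases hx : x0 ∈ V1
    · exact ⟨y0, x0, (hV x0 y0 hxy0).1 hx, hx, hxy0.symm⟩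
    · refine ⟨x0, y0, hx, ?_, hxy0⟩
      by_contra hy
      exact hx ((hV x0 y0 hxy0).2 hy)
  have hn2pos : 0 < n2 := card_pos.2 ⟨u0, by rw [mem_compl]; exact hu0⟩
  have hn1pos : 0 < n1 := card_pos.2 ⟨w0, hw0⟩
  have hd1 : ∀ v, col v = true → T.degree v ≤ D1 := fun v hv =>
    le_sup (f := fun v => T.degree v) ((hcolt v).1 hv)
  have hd2 : ∀ v, col v = false → T.degree v ≤ D2 := fun v hv =>
    le_sup (f := fun v => T.degree v) (by rw [mem_compl]; exact (hcolf v).1 hv)
  have hD1pos : 0 < D1 := by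
    have h1 := hd1 w0 ((hcolt w0).2 hw0)
    have h2 : 0 < T.degree w0 := (T.degree_pos_iff_exists_adj w0).2 ⟨u0, huw0.symm⟩
    omega
  have hD2pos : 0 < D2 := by
    have h1 := hd2 u0 ((hcolf u0).2 hu0)
    have h2 : 0 < T.degree u0 := (T.degree_pos_iff_exists_adj u0).2 ⟨w0, huw0⟩
    omega
  have hD1n : D1 ≤ n2 := by
    apply Finset.sup_le
    intro v hv
    rw [← SimpleGraph.card_neighborFinset_eq_degree]
    apply card_le_card
    intro x hx
    rw [SimpleGraph.mem_neighborFinset] at hx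
    rw [mem_compl]
    exact (hV v x hx).1 hv
  have hD2n : D2 ≤ n1 := by
    apply Finset.sup_le
    intro v hv
    rw [mem_compl] at hv
    rw [← SimpleGraph.card_neighborFinset_eq_degree]
    apply card_le_card
    intro x hx
    rw [SimpleGraph.mem_neighborFinset] at hx
    exact (hV x v hx.symm).2 hv
  have hn1c : #(univ.filter (fun x => col x = true)) ≤ n1 := by
    apply card_le_card
    intro x hx
    exact (hcolt x).1 (mem_filter.1 hx).2
  have hn2c : #(univ.filter (fun x => col x = false)) ≤ n2 := by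
    apply card_le_card
    intro x hx
    rw [mem_compl]
    exact (hcolf x).1 (mem_filter.1 hx).2
  have hcu0 : col u0 = false := (hcolf u0).2 hu0
  -- parameters
  set δ : ℕ := 1024 * L * β / n2 + 1 with hδ
  set dA : ℕ := 16 * n2 * δ / n1 with hdA
  have hδ1 : 1024 * L * β < n2 * δ := by
    rw [hδ]; exact Nat.lt_mul_div_succ _ hn2pos
  have hδ2 : n2 * δ ≤ 1025 * L * β := by
    have h1 : n2 * (1024 * L * β / n2) ≤ 1024 * L * β := Nat.mul_div_le _ _
    have h2 : n2 ≤ β := by
      have : n2 ≤ n2 * D2 := Nat.le_mul_of_pos_right _ hD2pos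
      omega
    have h3 : β ≤ L * β := Nat.le_mul_of_pos_left _ hL
    have h4 : n2 * δ = n2 * (1024 * L * β / n2) + n2 := by rw [hδ]; ring
    have h5 : 1024 * L * β = 1024 * (L * β) := by ring
    have h6 : 1025 * L * β = 1025 * (L * β) := by ring
    omega
  have hδD2 : 1024 * L * D2 ≤ δ := by
    have h1 : n2 * (1024 * L * D2) ≤ n2 * δ := by
      refine le_trans ?_ hδ1.le
      calc n2 * (1024 * L * D2) = 1024 * L * (n2 * D2) := by ring
        _ ≤ 1024 * L * β := Nat.mul_le_mul_left _ (by omega)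
    exact Nat.le_of_mul_le_mul_left h1 hn2pos
  have hdA1 : n1 * dA ≤ 16 * n2 * δ := Nat.mul_div_le _ _
  have hdA0 : 16384 * L * D1 ≤ dA := by
    rw [hdA, Nat.le_div_iff_mul_le hn1pos]
    calc 16384 * L * D1 * n1 = 16 * (1024 * L * (n1 * D1)) := by ring
      _ ≤ 16 * (1024 * L * β) := Nat.mul_le_mul_left _ (Nat.mul_le_mul_left _ (by omega))
      _ ≤ 16 * (n2 * δ) := Nat.mul_le_mul_left _ hδ1.le
      _ = 16 * n2 * δ := by ring
  have hdA2 : 16 * n2 * δ ≤ 2 * (n1 * dA) := by
    have h1 : 16 * n2 * δ < n1 * (dA + 1) := Nat.lt_mul_div_succ _ hn1pos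
    have h2 : 0 < dA := lt_of_lt_of_le (by positivity) hdA0
    have h3 : n1 * 1 ≤ n1 * dA := Nat.mul_le_mul_left _ h2
    have h4 : n1 * (dA + 1) = n1 * dA + n1 := by ring
    omega
  have hcount : 589824 * (r ^ 2 * (n2 * δ)) ≤ 604569600 * r ^ 2 * L * β := by
    calc 589824 * (r ^ 2 * (n2 * δ)) ≤ 589824 * (r ^ 2 * (1025 * L * β)) :=
          Nat.mul_le_mul_left _ (Nat.mul_le_mul_left _ hδ2)
      _ = 604569600 * r ^ 2 * L * β := by ring
  rcases le_total δ (64 * n1) with hM | hM
  · obtain ⟨G, hGc, hGok⟩ := host_random T hT.isAcyclic hconn.preconnected col hcol u0 hcu0 r L n1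
      n2 D1 D2 δ dA hr hr0 hL hn2pos hle hD1pos hD2pos hD1n hn1c hn2c hd1 hd2 hδD2 hdA0 hdA1 hdA2 hM
    have hsum : ∑ x, #(G x) = 6144 * r * n2 * (96 * r * δ) := by
      simp_rw [hGc]
      rw [sum_const, card_univ, Fintype.card_fin, smul_eq_mul]
    obtain ⟨N, H, h1, h2⟩ := ramsey_of_host T col hcol G r _ hr0 (by
      rw [hsum]
      exact le_of_eq (by ring)) hGok
    refine ⟨N, H, h1, h2.trans ?_⟩
    rw [hsum]
    calc 6144 * r * n2 * (96 * r * δ) = 589824 * (r ^ 2 * (n2 * δ)) := by ring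
      _ ≤ _ := hcount
  · have hGok := host_complete T hT.isAcyclic hconn.preconnected col hcol u0 hcu0 r n1
      n2 D1 D2 hr0 hn2pos hle hD1pos hD2pos hD1n hD2n hn1c hn2c hd1 hd2
    have hsum : ∑ x : Fin (6144 * r * n2), #(univ : Finset (Fin (6144 * r * n1))) =
        6144 * r * n2 * (6144 * r * n1) := by
      rw [sum_const, card_univ, card_univ, Fintype.card_fin, Fintype.card_fin, smul_eq_mul]
    obtain ⟨N, H, h1, h2⟩ := ramsey_of_host T col hcol _ r _ hr0 (by
      rw [hsum]
      exact le_of_eq (by ring)) hGok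
    refine ⟨N, H, h1, h2.trans ?_⟩
    rw [hsum]
    calc 6144 * r * n2 * (6144 * r * n1) = 589824 * (r ^ 2 * (n2 * (64 * n1))) := by ring
      _ ≤ 589824 * (r ^ 2 * (n2 * δ)) :=
        Nat.mul_le_mul_left _ (Nat.mul_le_mul_left _ (Nat.mul_le_mul_left _ hM))
      _ ≤ _ := hcount

end Pool.Agent.Lib.MP_366c56_co
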