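import Mathlib

set_option autoImplicit false
set_option linter.unusedSectionVars false
set_option linter.unusedVariables false

namespace Pool.Agent.Lib.MP_366c56_co

open Finset

lemma one_add_inv_pow_le (k : ℕ) : (1 + 1 / (k : ℝ)) ^ k ≤ 3 := by
  rcases Nat.eq_zero_or_pos k with h | h
  · subst h; norm_num
  · have hk : (0 : ℝ) < k := by exact_mod_cast h
    have h1 : 1 + 1 / (k : ℝ) ≤ Real.exp (1 / k) := by
      have := Real.add_one_le_exp (1 / (k : ℝ))
      linarith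
    have h2 : (1 + 1 / (k : ℝ)) ^ k ≤ (Real.exp (1 / k)) ^ k :=
      pow_le_pow_left₀ (by positivity) h1 k
    have h3 : (Real.exp (1 / k)) ^ k = Real.exp 1 := by
      rw [← Real.exp_nat_mul]
      congr 1
      field_simp
    have h4 := Real.exp_one_lt_d9
    rw [h3] at h2
    linarith

lemma pow_le_factorial (k : ℕ) : (k : ℝ) ^ k ≤ 3 ^ k * (k.factorial : ℝ) := by
  induction k with
  | zero => simp
  | succ k ih =>
    rcases Nat.eq_zero_or_pos k with h | h
    · subst h; norm_num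
    · have hk : (0 : ℝ) < k := by exact_mod_cast h
      have h1 := one_add_inv_pow_le k
      have h2 : ((k : ℝ) + 1) ^ k = (1 + 1 / (k : ℝ)) ^ k * (k : ℝ) ^ k := by
        rw [← mul_pow]; congr 1; field_simp
      have h3 : ((k + 1 : ℕ) : ℝ) ^ (k + 1) = ((k : ℝ) + 1) * (((k : ℝ) + 1) ^ k) := by
        push_cast; ring
      rw [h3, h2, Nat.factorial_succ, pow_succ]
      push_cast
      have hkk : (0 : ℝ) ≤ (k : ℝ) ^ k := by positivity
      calc ((k : ℝ) + 1) * ((1 + 1 / (k : ℝ)) ^ k * (k : ℝ) ^ k)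
          ≤ ((k : ℝ) + 1) * (3 * (3 ^ k * (k.factorial : ℝ))) := by
            apply mul_le_mul_of_nonneg_left _ (by positivity)
            exact mul_le_mul h1 ih hkk (by norm_num)
        _ = 3 ^ k * 3 * (((k : ℝ) + 1) * (k.factorial : ℝ)) := by ring

lemma choose_le_three (n k : ℕ) : (n.choose k : ℝ) ≤ (3 * n / k) ^ k := by
  rcases Nat.eq_zero_or_pos k with h | h
  · subst h; simp
  · have hk : (0 : ℝ) < k := by exact_mod_cast h
    have h1 : (n.choose k : ℝ) ≤ (n : ℝ) ^ k / (k.factorial : ℝ) := Nat.choose_le_pow_div k n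
    have h2 := pow_le_factorial k
    have h3 : (0 : ℝ) < k.factorial := by exact_mod_cast Nat.factorial_pos k
    refine h1.trans ?_
    rw [div_pow, mul_pow, div_le_div_iff₀ h3 (by positivity)]
    calc (n : ℝ) ^ k * (k : ℝ) ^ k ≤ (n : ℝ) ^ k * (3 ^ k * (k.factorial : ℝ)) :=
          mul_le_mul_of_nonneg_left h2 (by positivity)
      _ = 3 ^ k * (n : ℝ) ^ k * (k.factorial : ℝ) := by ring

lemma base_exact (y Y0 c0 c1 c2 : ℝ) (α γ : ℕ) (hy : 0 < y) (hy0 : y ≤ Y0) (hc0 : 0 ≤ c0)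
    (hc1 : 0 ≤ c1) (hc2 : 0 ≤ c2) (h : α + 1 ≤ γ) :
    c0 / y * (c1 / y) ^ α * (c2 * y) ^ γ ≤ c0 * c1 ^ α * (c2 ^ γ * Y0 ^ (γ - α - 1)) := by
  obtain ⟨m, hm⟩ : ∃ m, γ = α + 1 + m := ⟨γ - (α + 1), by omega⟩
  have hm' : γ - α - 1 = m := by omega
  rw [hm']
  have h1 : c0 / y * (c1 / y) ^ α * (c2 * y) ^ γ = c0 * c1 ^ α * (c2 ^ γ * y ^ m) := by
    rw [hm, div_pow, mul_pow]
    have : y ^ (α + 1 + m) = y * y ^ α * y ^ m := by ring
    rw [this]
    field_simp
  rw [h1]
  apply mul_le_mul_of_nonneg_left _ (by positivity)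
  apply mul_le_mul_of_nonneg_left _ (by positivity)
  exact pow_le_pow_left₀ hy.le hy0 m

lemma base_bound (y Y0 c0 c1 c2 : ℝ) (α γ : ℕ) (hy : 0 < y) (hy0 : y ≤ Y0) (hY : 1 ≤ Y0)
    (hc0 : 0 ≤ c0) (hc1 : 0 ≤ c1) (hc2 : 0 ≤ c2) (h : α + 1 ≤ γ) :
    c0 / y * (c1 / y) ^ α * (c2 * y) ^ γ ≤ c0 * c1 ^ α * (c2 * Y0) ^ γ := by
  refine (base_exact y Y0 c0 c1 c2 α γ hy hy0 hc0 hc1 hc2 h).trans ?_
  apply mul_le_mul_of_nonneg_left _ (by positivity)
  rw [mul_pow]
  apply mul_le_mul_of_nonneg_left _ (by positivity)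
  exact pow_le_pow_right₀ hY (by omega)

lemma two_pow_fin (e f : ℕ) (h : e + 3 ≤ f) : (2 : ℝ) ^ e * (1 / 2) ^ f ≤ 1 / 8 := by
  have h1 : ((1 : ℝ) / 2) ^ f ≤ (1 / 2) ^ (e + 3) :=
    pow_le_pow_of_le_one (by norm_num) (by norm_num) h
  calc (2 : ℝ) ^ e * (1 / 2) ^ f ≤ (2 : ℝ) ^ e * (1 / 2) ^ (e + 3) :=
        mul_le_mul_of_nonneg_left h1 (by positivity)
    _ = (2 * (1 / 2)) ^ e * (1 / 8) := by rw [pow_add, mul_pow]; ring
    _ = 1 / 8 := by norm_num

lemma geom_le (n : ℕ) : ∑ q ∈ Icc 1 n, (1 / 8 : ℝ) ^ q ≤ 1 / 7 := by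
  have h : ∑ q ∈ Icc 1 n, (1 / 8 : ℝ) ^ q = (1 - (1 / 8) ^ n) / 7 := by
    induction n with
    | zero => simp
    | succ n ih =>
      rw [sum_Icc_succ_top (by omega), ih, pow_succ]
      ring
  rw [h]
  have : (0 : ℝ) ≤ (1 / 8) ^ n := by positivity
  linarith

lemma mul_pow3 (a b c : ℝ) (q : ℕ) : (a * b * c) ^ q = a ^ q * b ^ q * c ^ q := by
  rw [mul_pow, mul_pow]

lemma nat_le_two_pow (n : ℕ) : (n : ℝ) ≤ 2 ^ n := by
  exact_mod_cast (Nat.lt_two_pow_self (n := n)).le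


theorem N1 (r L n1 n2 D2 δ q : ℕ) (hr : r ≤ 2 ^ L) (hr0 : 0 < r) (hL : 1 ≤ L) (hn2 : 0 < n2)
    (hn : n2 ≤ n1) (hD : 0 < D2) (hδ : 1024 * L * D2 ≤ δ) (hq : 1 ≤ q)
    (hq2 : 6 * D2 * q ≤ 64 * n1) :
    ((6144 * r * n2).choose q : ℝ) * ((6144 * r * n1).choose (6 * D2 * q) : ℝ) *
      ((q * (6 * D2 * q)).choose (16 * δ * q) : ℝ) * ((δ : ℝ) / (64 * n1)) ^ (16 * δ * q) ≤
      (1 / 8) ^ q := by
  have hn1 : 0 < n1 := lt_of_lt_of_le hn2 hn
  have hLD : 1 ≤ L * D2 := Nat.mul_pos hL hD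
  have hδ0 : 0 < δ := by
    have : 0 < 1024 * L * D2 := by positivity
    omega
  have rn1 : (0 : ℝ) < n1 := by exact_mod_cast hn1
  have rn2 : (0 : ℝ) < n2 := by exact_mod_cast hn2
  have rr : (0 : ℝ) < r := by exact_mod_cast hr0
  have rD : (0 : ℝ) < D2 := by exact_mod_cast hD
  have rδ : (0 : ℝ) < δ := by exact_mod_cast hδ0
  have rq : (0 : ℝ) < q := by exact_mod_cast hq
  have rn : (n2 : ℝ) ≤ n1 := by exact_mod_cast hn
  set y : ℝ := D2 * q / n1 with hy
  have hy0 : 0 < y := by positivity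
  have hyle : y ≤ 32 / 3 := by
    rw [hy, div_le_div_iff₀ rn1 (by norm_num)]
    have : (6 * D2 * q : ℝ) ≤ 64 * n1 := by exact_mod_cast hq2
    linarith
  have c1 := choose_le_three (6144 * r * n2) q
  have c2 := choose_le_three (6144 * r * n1) (6 * D2 * q)
  have c3 := choose_le_three (q * (6 * D2 * q)) (16 * δ * q)
  have c1' : ((6144 * r * n2).choose q : ℝ) ≤ (18432 * r * D2 / y) ^ q := by
    refine c1.trans (pow_le_pow_left₀ (by positivity) ?_ q)
    have : 18432 * r * D2 / y = 18432 * r * n1 / q := by rw [hy]; field_simp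
    rw [this]
    push_cast
    apply div_le_div_of_nonneg_right _ rq.le
    have : (0 : ℝ) ≤ 18432 * r := by positivity
    nlinarith
  have c2' : ((6144 * r * n1).choose (6 * D2 * q) : ℝ) ≤ ((3072 * r / y) ^ (6 * D2)) ^ q := by
    rw [← pow_mul]
    refine c2.trans (le_of_eq ?_)
    congr 1
    rw [hy]; push_cast; field_simp; norm_num
  have c3' : ((q * (6 * D2 * q)).choose (16 * δ * q) : ℝ) * ((δ : ℝ) / (64 * n1)) ^ (16 * δ * q) ≤
      ((18 / 1024 * y) ^ (16 * δ)) ^ q := by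
    rw [← pow_mul]
    calc _ ≤ (3 * ((q * (6 * D2 * q) : ℕ) : ℝ) / ((16 * δ * q : ℕ) : ℝ)) ^ (16 * δ * q) *
          ((δ : ℝ) / (64 * n1)) ^ (16 * δ * q) :=
          mul_le_mul_of_nonneg_right c3 (by positivity)
      _ = (18 / 1024 * y) ^ (16 * δ * q) := by
          rw [← mul_pow]
          congr 1
          rw [hy]; push_cast; field_simp; norm_num
  have hbase : 18432 * r * D2 / y * (3072 * r / y) ^ (6 * D2) * (18 / 1024 * y) ^ (16 * δ) ≤
      1 / 8 := by
    refine (base_bound y (32 / 3) (18432 * r * D2) (3072 * r) (18 / 1024) (6 * D2) (16 * δ) hy0 hyle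
      (by norm_num) (by positivity) (by positivity) (by norm_num) (by nlinarith)).trans ?_
    have rrL : (r : ℝ) ≤ 2 ^ L := by exact_mod_cast hr
    have e1 : 18432 * (r : ℝ) * D2 ≤ 2 ^ (15 + L + D2) := by
      have h1 := nat_le_two_pow D2
      calc 18432 * (r : ℝ) * D2 ≤ 2 ^ 15 * 2 ^ L * 2 ^ D2 := by
            apply mul_le_mul _ h1 rD.le (by positivity)
            apply mul_le_mul _ rrL rr.le (by positivity)
            norm_num
        _ = 2 ^ (15 + L + D2) := by rw [pow_add, pow_add]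
    have e2 : (3072 * (r : ℝ)) ^ (6 * D2) ≤ 2 ^ ((12 + L) * (6 * D2)) := by
      rw [pow_mul (2 : ℝ)]
      apply pow_le_pow_left₀ (by positivity)
      rw [pow_add]
      apply mul_le_mul _ rrL rr.le (by positivity)
      norm_num
    have e3 : ((18 : ℝ) / 1024 * (32 / 3)) ^ (16 * δ) ≤ (1 / 2) ^ (2 * (16 * δ)) := by
      rw [pow_mul (1 / 2 : ℝ) 2]
      exact pow_le_pow_left₀ (by norm_num) (by norm_num) _
    calc 18432 * (r : ℝ) * D2 * (3072 * r) ^ (6 * D2) * (18 / 1024 * (32 / 3)) ^ (16 * δ)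
        ≤ 2 ^ (15 + L + D2) * 2 ^ ((12 + L) * (6 * D2)) * (1 / 2) ^ (2 * (16 * δ)) := by
          apply mul_le_mul _ e3 (by positivity) (by positivity)
          exact mul_le_mul e1 e2 (by positivity) (by positivity)
      _ = 2 ^ (15 + L + D2 + (12 + L) * (6 * D2)) * (1 / 2) ^ (2 * (16 * δ)) := by
          rw [pow_add (2 : ℝ) (15 + L + D2)]
      _ ≤ 1 / 8 := by
          apply two_pow_fin
          have h1 : L ≤ L * D2 := Nat.le_mul_of_pos_right L hD
          have h2 : D2 ≤ L * D2 := Nat.le_mul_of_pos_left D2 hL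
          have h3 : (12 + L) * (6 * D2) = 72 * D2 + 6 * (L * D2) := by ring
          have h4 : 1024 * L * D2 = 1024 * (L * D2) := by ring
          omega
  calc _ = ((6144 * r * n2).choose q : ℝ) * ((6144 * r * n1).choose (6 * D2 * q) : ℝ) *
      (((q * (6 * D2 * q)).choose (16 * δ * q) : ℝ) * ((δ : ℝ) / (64 * n1)) ^ (16 * δ * q)) := by
        ring
    _ ≤ (18432 * r * D2 / y) ^ q * ((3072 * r / y) ^ (6 * D2)) ^ q *
        ((18 / 1024 * y) ^ (16 * δ)) ^ q := by
        apply mul_le_mul _ c3' (by positivity) (by positivity)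
        exact mul_le_mul c1' c2' (by positivity) (by positivity)
    _ = (18432 * r * D2 / y * (3072 * r / y) ^ (6 * D2) * (18 / 1024 * y) ^ (16 * δ)) ^ q := by
        exact (mul_pow3 _ _ _ q).symm
    _ ≤ (1 / 8) ^ q := pow_le_pow_left₀ (by positivity) hbase q


theorem N2 (r L n1 n2 D1 δ dA x : ℕ) (hr : r ≤ 2 ^ L) (hr0 : 0 < r) (hL : 1 ≤ L) (hn2 : 0 < n2)
    (hn1 : 0 < n1) (hn : n1 ≤ 2 ^ (16 * L + 128) * n2) (hD : 0 < D1)
    (hdA : 16384 * L * D1 ≤ dA) (hdA2 : 16 * n2 * δ ≤ 2 * (n1 * dA)) (hx : 1 ≤ x)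
    (hx2 : 3 * D1 * x ≤ 64 * n2) :
    ((6144 * r * n1).choose x : ℝ) * ((6144 * r * n2).choose (3 * D1 * x) : ℝ) *
      ((x * (3 * D1 * x)).choose (dA * x) : ℝ) * ((δ : ℝ) / (64 * n1)) ^ (dA * x) ≤
      (1 / 8) ^ x := by
  have hLD : 1 ≤ L * D1 := Nat.mul_pos hL hD
  have hdA0 : 0 < dA := by
    have : 0 < 16384 * L * D1 := by positivity
    omega
  have rn1 : (0 : ℝ) < n1 := by exact_mod_cast hn1
  have rn2 : (0 : ℝ) < n2 := by exact_mod_cast hn2
  have rr : (0 : ℝ) < r := by exact_mod_cast hr0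
  have rD : (0 : ℝ) < D1 := by exact_mod_cast hD
  have rdA : (0 : ℝ) < dA := by exact_mod_cast hdA0
  have rx : (0 : ℝ) < x := by exact_mod_cast hx
  have rn : (n1 : ℝ) ≤ 2 ^ (16 * L + 128) * n2 := by exact_mod_cast hn
  have rdA2 : (16 : ℝ) * n2 * δ ≤ 2 * (n1 * dA) := by exact_mod_cast hdA2
  set y : ℝ := D1 * x / n2 with hy
  have hy0 : 0 < y := by positivity
  have hyle : y ≤ 64 / 3 := by
    rw [hy, div_le_div_iff₀ rn2 (by norm_num)]
    have : (3 * D1 * x : ℝ) ≤ 64 * n2 := by exact_mod_cast hx2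
    linarith
  have c1 := choose_le_three (6144 * r * n1) x
  have c2 := choose_le_three (6144 * r * n2) (3 * D1 * x)
  have c3 := choose_le_three (x * (3 * D1 * x)) (dA * x)
  have c1' : ((6144 * r * n1).choose x : ℝ) ≤ (18432 * r * 2 ^ (16 * L + 128) * D1 / y) ^ x := by
    refine c1.trans (pow_le_pow_left₀ (by positivity) ?_ x)
    have : 18432 * r * 2 ^ (16 * L + 128) * D1 / y =
        18432 * r * (2 ^ (16 * L + 128) * n2) / x := by rw [hy]; field_simp
    rw [this]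
    push_cast
    apply div_le_div_of_nonneg_right _ rx.le
    calc 3 * (6144 * (r : ℝ) * n1) = 18432 * r * n1 := by ring
      _ ≤ 18432 * r * (2 ^ (16 * L + 128) * n2) := mul_le_mul_of_nonneg_left rn (by positivity)
  have c2' : ((6144 * r * n2).choose (3 * D1 * x) : ℝ) ≤ ((6144 * r / y) ^ (3 * D1)) ^ x := by
    rw [← pow_mul]
    refine c2.trans (le_of_eq ?_)
    congr 1
    rw [hy]; push_cast; field_simp
  have c3' : ((x * (3 * D1 * x)).choose (dA * x) : ℝ) * ((δ : ℝ) / (64 * n1)) ^ (dA * x) ≤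
      ((9 / 512 * y) ^ dA) ^ x := by
    rw [← pow_mul]
    calc _ ≤ (3 * ((x * (3 * D1 * x) : ℕ) : ℝ) / ((dA * x : ℕ) : ℝ)) ^ (dA * x) *
          ((δ : ℝ) / (64 * n1)) ^ (dA * x) :=
          mul_le_mul_of_nonneg_right c3 (by positivity)
      _ ≤ (9 / 512 * y) ^ (dA * x) := by
          rw [← mul_pow]
          apply pow_le_pow_left₀ (by positivity)
          have e : 3 * ((x * (3 * D1 * x) : ℕ) : ℝ) / ((dA * x : ℕ) : ℝ) * (δ / (64 * n1)) =
            (9 * D1 * x) * (δ / (64 * n1 * dA)) := by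
            push_cast; field_simp; ring
          have e' : 9 / 512 * y = (9 * D1 * x) * (1 / (512 * n2)) := by
            rw [hy]; field_simp
          rw [e, e']
          apply mul_le_mul_of_nonneg_left _ (by positivity)
          rw [div_le_div_iff₀ (by positivity) (by positivity)]
          nlinarith
  have hbase : 18432 * r * 2 ^ (16 * L + 128) * D1 / y * (6144 * r / y) ^ (3 * D1) *
      (9 / 512 * y) ^ dA ≤ 1 / 8 := by
    refine (base_bound y (64 / 3) (18432 * r * 2 ^ (16 * L + 128) * D1) (6144 * r) (9 / 512)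
      (3 * D1) dA hy0 hyle (by norm_num) (by positivity) (by positivity) (by norm_num)
      (by nlinarith)).trans ?_
    have rrL : (r : ℝ) ≤ 2 ^ L := by exact_mod_cast hr
    have e1 : 18432 * (r : ℝ) * 2 ^ (16 * L + 128) * D1 ≤ 2 ^ (15 + L + (16 * L + 128) + D1) := by
      have h1 := nat_le_two_pow D1
      calc 18432 * (r : ℝ) * 2 ^ (16 * L + 128) * D1 ≤
            2 ^ 15 * 2 ^ L * 2 ^ (16 * L + 128) * 2 ^ D1 := by
            apply mul_le_mul _ h1 rD.le (by positivity)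
            apply mul_le_mul_of_nonneg_right _ (by positivity)
            apply mul_le_mul _ rrL rr.le (by positivity)
            norm_num
        _ = 2 ^ (15 + L + (16 * L + 128) + D1) := by
            rw [pow_add (2 : ℝ) (15 + L + (16 * L + 128)), pow_add (2 : ℝ) (15 + L),
              pow_add (2 : ℝ) 15]
    have e2 : (6144 * (r : ℝ)) ^ (3 * D1) ≤ 2 ^ ((13 + L) * (3 * D1)) := by
      rw [pow_mul (2 : ℝ)]
      apply pow_le_pow_left₀ (by positivity)
      rw [pow_add]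
      apply mul_le_mul _ rrL rr.le (by positivity)
      norm_num
    have e3 : ((9 : ℝ) / 512 * (64 / 3)) ^ dA ≤ (1 / 2) ^ dA := by
      exact pow_le_pow_left₀ (by norm_num) (by norm_num) _
    calc 18432 * (r : ℝ) * 2 ^ (16 * L + 128) * D1 * (6144 * r) ^ (3 * D1) *
          (9 / 512 * (64 / 3)) ^ dA
        ≤ 2 ^ (15 + L + (16 * L + 128) + D1) * 2 ^ ((13 + L) * (3 * D1)) * (1 / 2) ^ dA := by
          apply mul_le_mul _ e3 (by positivity) (by positivity)
          exact mul_le_mul e1 e2 (by positivity) (by positivity)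
      _ = 2 ^ (15 + L + (16 * L + 128) + D1 + (13 + L) * (3 * D1)) * (1 / 2) ^ dA := by
          rw [pow_add (2 : ℝ) (15 + L + (16 * L + 128) + D1)]
      _ ≤ 1 / 8 := by
          apply two_pow_fin
          have h1 : L ≤ L * D1 := Nat.le_mul_of_pos_right L hD
          have h2 : D1 ≤ L * D1 := Nat.le_mul_of_pos_left D1 hL
          have h3 : (13 + L) * (3 * D1) = 39 * D1 + 3 * (L * D1) := by ring
          have h4 : 16384 * L * D1 = 16384 * (L * D1) := by ring
          omega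
  calc _ = ((6144 * r * n1).choose x : ℝ) * ((6144 * r * n2).choose (3 * D1 * x) : ℝ) *
      (((x * (3 * D1 * x)).choose (dA * x) : ℝ) * ((δ : ℝ) / (64 * n1)) ^ (dA * x)) := by
        ring
    _ ≤ (18432 * r * 2 ^ (16 * L + 128) * D1 / y) ^ x * ((6144 * r / y) ^ (3 * D1)) ^ x *
        ((9 / 512 * y) ^ dA) ^ x := by
        apply mul_le_mul _ c3' (by positivity) (by positivity)
        exact mul_le_mul c1' c2' (by positivity) (by positivity)
    _ = (18432 * r * 2 ^ (16 * L + 128) * D1 / y * (6144 * r / y) ^ (3 * D1) *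
        (9 / 512 * y) ^ dA) ^ x := by
        exact (mul_pow3 _ _ _ x).symm
    _ ≤ (1 / 8) ^ x := pow_le_pow_left₀ (by positivity) hbase x

theorem N3 (r L n1 n2 δ q : ℕ) (hr : r ≤ 2 ^ L) (hr0 : 0 < r) (hL : 1 ≤ L) (hn2 : 0 < n2)
    (hn : 2 ^ (16 * L + 128) * n2 ≤ n1) (hδ : 1 ≤ δ) (hq : 1 ≤ q)
    (hq2 : 15 * δ * q ≤ 64 * n2) :
    ((6144 * r * n2).choose q : ℝ) * ((6144 * r * n1).choose (15 * δ * q) : ℝ) *
      ((q * (15 * δ * q)).choose (16 * δ * q) : ℝ) * ((δ : ℝ) / (64 * n1)) ^ (16 * δ * q) ≤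
      (1 / 8) ^ q := by
  have hn1 : 0 < n1 := lt_of_lt_of_le (by positivity) hn
  have rn1 : (0 : ℝ) < n1 := by exact_mod_cast hn1
  have rn2 : (0 : ℝ) < n2 := by exact_mod_cast hn2
  have rr : (0 : ℝ) < r := by exact_mod_cast hr0
  have rδ : (0 : ℝ) < δ := by exact_mod_cast hδ
  have rq : (0 : ℝ) < q := by exact_mod_cast hq
  have rn : (2 : ℝ) ^ (16 * L + 128) * n2 ≤ n1 := by exact_mod_cast hn
  set Θ : ℝ := 2 ^ (16 * L + 128) with hΘ
  have hΘ0 : 0 < Θ := by positivity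
  set y : ℝ := δ * q / n1 with hy
  have hy0 : 0 < y := by positivity
  have hyle : y ≤ 64 / 15 / Θ := by
    rw [hy, div_div, div_le_div_iff₀ rn1 (by positivity)]
    have h1 : (15 * δ * q : ℝ) ≤ 64 * n2 := by exact_mod_cast hq2
    have h2 : (15 * δ * q : ℝ) * Θ ≤ 64 * n2 * Θ := mul_le_mul_of_nonneg_right h1 hΘ0.le
    nlinarith
  have c1 := choose_le_three (6144 * r * n2) q
  have c2 := choose_le_three (6144 * r * n1) (15 * δ * q)
  have c3 := choose_le_three (q * (15 * δ * q)) (16 * δ * q)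
  have c1' : ((6144 * r * n2).choose q : ℝ) ≤ (18432 * r * δ / Θ / y) ^ q := by
    refine c1.trans (pow_le_pow_left₀ (by positivity) ?_ q)
    have : 18432 * r * δ / Θ / y = 18432 * r * (n1 / Θ) / q := by rw [hy]; field_simp
    rw [this]
    push_cast
    apply div_le_div_of_nonneg_right _ rq.le
    have h3 : (n2 : ℝ) ≤ n1 / Θ := by rw [le_div_iff₀ hΘ0]; linarith
    calc 3 * (6144 * (r : ℝ) * n2) = 18432 * r * n2 := by ring
      _ ≤ 18432 * r * (n1 / Θ) := mul_le_mul_of_nonneg_left h3 (by positivity)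
  have c2' : ((6144 * r * n1).choose (15 * δ * q) : ℝ) ≤
      ((18432 / 15 * r / y) ^ (15 * δ)) ^ q := by
    rw [← pow_mul]
    refine c2.trans (le_of_eq ?_)
    congr 1
    rw [hy]; push_cast; field_simp; norm_num
  have c3' : ((q * (15 * δ * q)).choose (16 * δ * q) : ℝ) * ((δ : ℝ) / (64 * n1)) ^ (16 * δ * q) ≤
      ((45 / 1024 * y) ^ (16 * δ)) ^ q := by
    rw [← pow_mul]
    calc _ ≤ (3 * ((q * (15 * δ * q) : ℕ) : ℝ) / ((16 * δ * q : ℕ) : ℝ)) ^ (16 * δ * q) *
          ((δ : ℝ) / (64 * n1)) ^ (16 * δ * q) :=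
          mul_le_mul_of_nonneg_right c3 (by positivity)
      _ = (45 / 1024 * y) ^ (16 * δ * q) := by
          rw [← mul_pow]
          congr 1
          rw [hy]; push_cast; field_simp; norm_num
  have hbase : 18432 * r * δ / Θ / y * (18432 / 15 * r / y) ^ (15 * δ) *
      (45 / 1024 * y) ^ (16 * δ) ≤ 1 / 8 := by
    refine (base_exact y (64 / 15 / Θ) (18432 * r * δ / Θ) (18432 / 15 * r) (45 / 1024)
      (15 * δ) (16 * δ) hy0 hyle (by positivity) (by positivity) (by norm_num)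
      (by omega)).trans ?_
    have rrL : (r : ℝ) ≤ 2 ^ L := by exact_mod_cast hr
    obtain ⟨m, hm⟩ : ∃ m, δ = m + 1 := ⟨δ - 1, by omega⟩
    have hm' : 16 * δ - 15 * δ - 1 = m := by omega
    rw [hm']
    have e0 : 18432 * (r : ℝ) * δ / Θ * (64 / 15 / Θ) ^ m ≤
        18432 * r * δ * (64 / 15 / Θ) ^ δ := by
      rw [hm, pow_succ]
      have h1 : (18432 * (r : ℝ) * ((m + 1 : ℕ) : ℝ) / Θ) ≤
          18432 * r * ((m + 1 : ℕ) : ℝ) * (64 / 15 / Θ) := by
        rw [div_eq_mul_one_div]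
        apply mul_le_mul_of_nonneg_left _ (by positivity)
        apply div_le_div_of_nonneg_right _ hΘ0.le
        norm_num
      calc _ ≤ 18432 * r * ((m + 1 : ℕ) : ℝ) * (64 / 15 / Θ) * (64 / 15 / Θ) ^ m :=
            mul_le_mul_of_nonneg_right h1 (by positivity)
        _ = _ := by ring
    have e1 : 18432 * (r : ℝ) * δ ≤ 2 ^ (15 + L + δ) := by
      have h1 := nat_le_two_pow δ
      calc 18432 * (r : ℝ) * δ ≤ 2 ^ 15 * 2 ^ L * 2 ^ δ := by
            apply mul_le_mul _ h1 rδ.le (by positivity)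
            apply mul_le_mul _ rrL rr.le (by positivity)
            norm_num
        _ = 2 ^ (15 + L + δ) := by rw [pow_add, pow_add]
    have e2 : (18432 / 15 * (r : ℝ)) ^ (15 * δ) ≤ 2 ^ ((11 + L) * (15 * δ)) := by
      rw [pow_mul (2 : ℝ)]
      apply pow_le_pow_left₀ (by positivity)
      rw [pow_add]
      apply mul_le_mul _ rrL rr.le (by positivity)
      norm_num
    have e3 : ((45 : ℝ) / 1024) ^ (16 * δ) ≤ (1 / 2) ^ (4 * (16 * δ)) := by
      rw [pow_mul (1 / 2 : ℝ) 4]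
      exact pow_le_pow_left₀ (by norm_num) (by norm_num) _
    have e4 : (64 / 15 / Θ) ^ δ ≤ 2 ^ (3 * δ) * (1 / 2) ^ ((16 * L + 128) * δ) := by
      rw [pow_mul, pow_mul, ← mul_pow]
      apply pow_le_pow_left₀ (by positivity)
      rw [hΘ, div_eq_mul_one_div, one_div_pow]
      apply mul_le_mul_of_nonneg_right _ (by positivity)
      norm_num
    calc 18432 * (r : ℝ) * δ / Θ * (18432 / 15 * r) ^ (15 * δ) *
          ((45 / 1024) ^ (16 * δ) * (64 / 15 / Θ) ^ m)
        = (18432 * (r : ℝ) * δ / Θ * (64 / 15 / Θ) ^ m) * (18432 / 15 * r) ^ (15 * δ) *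
          (45 / 1024) ^ (16 * δ) := by ring
      _ ≤ (18432 * r * δ * (64 / 15 / Θ) ^ δ) * (18432 / 15 * r) ^ (15 * δ) *
          (45 / 1024) ^ (16 * δ) := by
          apply mul_le_mul_of_nonneg_right _ (by positivity)
          exact mul_le_mul_of_nonneg_right e0 (by positivity)
      _ ≤ (2 ^ (15 + L + δ) * (2 ^ (3 * δ) * (1 / 2) ^ ((16 * L + 128) * δ))) *
          2 ^ ((11 + L) * (15 * δ)) * (1 / 2) ^ (4 * (16 * δ)) := by
          apply mul_le_mul _ e3 (by positivity) (by positivity)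
          apply mul_le_mul _ e2 (by positivity) (by positivity)
          exact mul_le_mul e1 e4 (by positivity) (by positivity)
      _ = 2 ^ (15 + L + δ + 3 * δ + (11 + L) * (15 * δ)) *
          (1 / 2) ^ ((16 * L + 128) * δ + 4 * (16 * δ)) := by
          rw [pow_add (2 : ℝ) (15 + L + δ + 3 * δ), pow_add (2 : ℝ) (15 + L + δ),
            pow_add (1 / 2 : ℝ)]
          ring
      _ ≤ 1 / 8 := by
          apply two_pow_fin
          have h1 : L ≤ L * δ := Nat.le_mul_of_pos_right L hδ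
          have h3 : (11 + L) * (15 * δ) = 165 * δ + 15 * (L * δ) := by ring
          have h4 : (16 * L + 128) * δ = 16 * (L * δ) + 128 * δ := by ring
          omega
  calc _ = ((6144 * r * n2).choose q : ℝ) * ((6144 * r * n1).choose (15 * δ * q) : ℝ) *
      (((q * (15 * δ * q)).choose (16 * δ * q) : ℝ) * ((δ : ℝ) / (64 * n1)) ^ (16 * δ * q)) := by
        ring
    _ ≤ (18432 * r * δ / Θ / y) ^ q * ((18432 / 15 * r / y) ^ (15 * δ)) ^ q *
        ((45 / 1024 * y) ^ (16 * δ)) ^ q := by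
        apply mul_le_mul _ c3' (by positivity) (by positivity)
        exact mul_le_mul c1' c2' (by positivity) (by positivity)
    _ = (18432 * r * δ / Θ / y * (18432 / 15 * r / y) ^ (15 * δ) *
        (45 / 1024 * y) ^ (16 * δ)) ^ q := by
        exact (mul_pow3 _ _ _ q).symm
    _ ≤ (1 / 8) ^ q := pow_le_pow_left₀ (by positivity) hbase q

theorem N4 (r L n1 n2 D1 δ dA d q h : ℕ) (hr : r ≤ 2 ^ L) (hr0 : 0 < r) (hL : 1 ≤ L)
    (hn2 : 0 < n2) (hn1 : 0 < n1) (hD : 0 < D1) (hδ : 1 ≤ δ) (hdA2 : 16 * n2 * δ ≤ 2 * (n1 * dA))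
    (hd : dA ≤ 2 * d) (hd2 : 8192 * L * D1 ≤ d) (hq : 1 ≤ q) (hh0 : 0 < h) (hh1 : h ≤ 16 * n2)
    (hh2 : h ≤ 512 * D1 * δ * q) :
    ((6144 * r * n2).choose q : ℝ) * ((6144 * r * n2).choose h : ℝ) *
      ((6144 * r * n1).choose (δ * q) : ℝ) * ((q * h.choose d : ℕ) : ℝ) ^ (δ * q) *
      ((δ : ℝ) / (64 * n1)) ^ ((d + 1) * (δ * q)) ≤ (1 / 8) ^ q := by
  have hLD : 1 ≤ L * D1 := Nat.mul_pos hL hD
  have hd0 : 0 < d := by
    have : 0 < 8192 * L * D1 := by positivity
    omega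
  have rn1 : (0 : ℝ) < n1 := by exact_mod_cast hn1
  have rn2 : (0 : ℝ) < n2 := by exact_mod_cast hn2
  have rr : (0 : ℝ) < r := by exact_mod_cast hr0
  have rr1 : (1 : ℝ) ≤ r := by exact_mod_cast hr0
  have rD : (0 : ℝ) < D1 := by exact_mod_cast hD
  have rδ : (0 : ℝ) < δ := by exact_mod_cast hδ
  have rd : (0 : ℝ) < d := by exact_mod_cast hd0
  have rh : (0 : ℝ) < h := by exact_mod_cast hh0
  have rq : (0 : ℝ) < q := by exact_mod_cast hq
  have rh1 : (h : ℝ) ≤ 16 * n2 := by exact_mod_cast hh1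
  have rh2 : (h : ℝ) ≤ 512 * D1 * δ * q := by exact_mod_cast hh2
  have rdA : (4 : ℝ) * n2 * δ ≤ n1 * d := by
    have h1 : (16 : ℝ) * n2 * δ ≤ 2 * (n1 * dA) := by exact_mod_cast hdA2
    have h2 : (dA : ℝ) ≤ 2 * d := by exact_mod_cast hd
    have h3 : (n1 : ℝ) * dA ≤ n1 * (2 * d) := mul_le_mul_of_nonneg_left h2 rn1.le
    linarith
  set x : ℝ := h / (16 * n2) with hx
  have hx0 : 0 < x := by positivity
  have hx1 : x ≤ 1 := by rw [hx, div_le_one (by positivity)]; exact rh1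
  have c1 := choose_le_three (6144 * r * n2) q
  have c2 := choose_le_three (6144 * r * n2) h
  have c3 := choose_le_three (6144 * r * n1) (δ * q)
  have c4 := choose_le_three h d
  have c1' : ((6144 * r * n2).choose q : ℝ) ≤ (589824 * r * D1 * δ / x) ^ q := by
    refine c1.trans (pow_le_pow_left₀ (by positivity) ?_ q)
    have : 589824 * r * D1 * δ / x = 18432 * r * n2 * (512 * D1 * δ / h) := by
      rw [hx]; field_simp; norm_num
    rw [this]
    have h1 : 3 * ((6144 * r * n2 : ℕ) : ℝ) / q = 18432 * r * n2 * (1 / q) := by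
      push_cast; field_simp; norm_num
    rw [h1]
    apply mul_le_mul_of_nonneg_left _ (by positivity)
    rw [div_le_div_iff₀ rq rh]
    linarith
  have c2' : ((6144 * r * n2).choose h : ℝ) ≤ ((1152 * r / x) ^ (512 * D1 * δ)) ^ q := by
    rw [← pow_mul]
    refine c2.trans ?_
    have h1 : 3 * ((6144 * r * n2 : ℕ) : ℝ) / h = 1152 * r / x := by
      rw [hx]; push_cast; field_simp; norm_num
    rw [h1]
    apply pow_le_pow_right₀ _ hh2
    rw [one_le_div hx0]
    linarith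
  have c3' : ((6144 * r * n1).choose (δ * q) : ℝ) * (q : ℝ) ^ (δ * q) *
      ((δ : ℝ) / (64 * n1)) ^ (δ * q) ≤ ((288 * r) ^ δ) ^ q := by
    rw [← pow_mul]
    calc _ ≤ (3 * ((6144 * r * n1 : ℕ) : ℝ) / ((δ * q : ℕ) : ℝ)) ^ (δ * q) * (q : ℝ) ^ (δ * q) *
          ((δ : ℝ) / (64 * n1)) ^ (δ * q) := by
          apply mul_le_mul_of_nonneg_right _ (by positivity)
          exact mul_le_mul_of_nonneg_right c3 (by positivity)
      _ = (288 * r) ^ (δ * q) := by
          rw [← mul_pow, ← mul_pow]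
          congr 1
          push_cast; field_simp; norm_num
  have c4' : (h.choose d : ℝ) ^ (δ * q) * ((δ : ℝ) / (64 * n1)) ^ (d * (δ * q)) ≤
      ((3 / 16 * x) ^ (d * δ)) ^ q := by
    rw [← pow_mul, pow_mul ((δ : ℝ) / (64 * n1)) d, ← mul_pow, mul_assoc, pow_mul (3 / 16 * x) d]
    apply pow_le_pow_left₀ (by positivity)
    calc _ ≤ (3 * (h : ℝ) / d) ^ d * ((δ : ℝ) / (64 * n1)) ^ d :=
          mul_le_mul_of_nonneg_right c4 (by positivity)
      _ ≤ (3 / 16 * x) ^ d := by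
          rw [← mul_pow]
          apply pow_le_pow_left₀ (by positivity)
          have e : 3 * (h : ℝ) / d * (δ / (64 * n1)) = 3 * h * (δ / (64 * n1 * d)) := by
            field_simp
          have e' : 3 / 16 * x = 3 * h * (1 / (256 * n2)) := by rw [hx]; field_simp; norm_num
          rw [e, e']
          apply mul_le_mul_of_nonneg_left _ (by positivity)
          rw [div_le_div_iff₀ (by positivity) (by positivity)]
          nlinarith
  have hbase : 589824 * r * D1 * δ / x * (1152 * r / x) ^ (512 * D1 * δ) * (288 * r) ^ δ *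
      (3 / 16 * x) ^ (d * δ) ≤ 1 / 8 := by
    have hb := base_bound x 1 (589824 * r * D1 * δ) (1152 * r) (3 / 16) (512 * D1 * δ) (d * δ) hx0
      hx1 le_rfl (by positivity) (by positivity) (by norm_num) (by
        have h1 : D1 ≤ L * D1 := Nat.le_mul_of_pos_left D1 hL
        have h2 : 8192 * L * D1 = 8192 * (L * D1) := by ring
        have h3 : 512 * D1 + 1 ≤ d := by omega
        have h4 : (512 * D1 + 1) * δ ≤ d * δ := Nat.mul_le_mul_right _ h3
        have h5 : (512 * D1 + 1) * δ = 512 * D1 * δ + δ := by ring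
        omega)
    rw [mul_one] at hb
    have rrL : (r : ℝ) ≤ 2 ^ L := by exact_mod_cast hr
    have e1 : 589824 * (r : ℝ) * D1 * δ ≤ 2 ^ (20 + L + D1 + δ) := by
      have h1 := nat_le_two_pow D1
      have h2 := nat_le_two_pow δ
      calc 589824 * (r : ℝ) * D1 * δ ≤ 2 ^ 20 * 2 ^ L * 2 ^ D1 * 2 ^ δ := by
            apply mul_le_mul _ h2 rδ.le (by positivity)
            apply mul_le_mul _ h1 rD.le (by positivity)
            apply mul_le_mul _ rrL rr.le (by positivity)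
            norm_num
        _ = 2 ^ (20 + L + D1 + δ) := by rw [pow_add, pow_add, pow_add]
    have e2 : (1152 * (r : ℝ)) ^ (512 * D1 * δ) ≤ 2 ^ ((11 + L) * (512 * D1 * δ)) := by
      rw [pow_mul (2 : ℝ)]
      apply pow_le_pow_left₀ (by positivity)
      rw [pow_add]
      apply mul_le_mul _ rrL rr.le (by positivity)
      norm_num
    have e2' : (288 * (r : ℝ)) ^ δ ≤ 2 ^ ((9 + L) * δ) := by
      rw [pow_mul (2 : ℝ)]
      apply pow_le_pow_left₀ (by positivity)
      rw [pow_add]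
      apply mul_le_mul _ rrL rr.le (by positivity)
      norm_num
    have e3 : ((3 : ℝ) / 16) ^ (d * δ) ≤ (1 / 2) ^ (2 * (d * δ)) := by
      rw [pow_mul (1 / 2 : ℝ) 2]
      exact pow_le_pow_left₀ (by norm_num) (by norm_num) _
    calc 589824 * r * D1 * δ / x * (1152 * r / x) ^ (512 * D1 * δ) * (288 * r) ^ δ *
          (3 / 16 * x) ^ (d * δ)
        = (589824 * r * D1 * δ / x * (1152 * r / x) ^ (512 * D1 * δ) *
          (3 / 16 * x) ^ (d * δ)) * (288 * r) ^ δ := by ring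
      _ ≤ (589824 * r * D1 * δ * (1152 * r) ^ (512 * D1 * δ) * (3 / 16) ^ (d * δ)) *
          (288 * r) ^ δ := mul_le_mul_of_nonneg_right hb (by positivity)
      _ ≤ (2 ^ (20 + L + D1 + δ) * 2 ^ ((11 + L) * (512 * D1 * δ)) * (1 / 2) ^ (2 * (d * δ))) *
          2 ^ ((9 + L) * δ) := by
          apply mul_le_mul _ e2' (by positivity) (by positivity)
          apply mul_le_mul _ e3 (by positivity) (by positivity)
          exact mul_le_mul e1 e2 (by positivity) (by positivity)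
      _ = 2 ^ (20 + L + D1 + δ + (11 + L) * (512 * D1 * δ) + (9 + L) * δ) *
          (1 / 2) ^ (2 * (d * δ)) := by
          rw [pow_add (2 : ℝ) (20 + L + D1 + δ + (11 + L) * (512 * D1 * δ)),
            pow_add (2 : ℝ) (20 + L + D1 + δ)]
          ring
      _ ≤ 1 / 8 := by
          apply two_pow_fin
          have hLδ : 1 ≤ L * D1 * δ := Nat.mul_pos hLD hδ
          have h1 : L ≤ L * D1 * δ := by
            rw [mul_assoc]; exact Nat.le_mul_of_pos_right L (Nat.mul_pos hD hδ)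
          have h2 : D1 ≤ L * D1 * δ :=
            (Nat.le_mul_of_pos_left D1 hL).trans (Nat.le_mul_of_pos_right _ hδ)
          have h3 : δ ≤ L * D1 * δ := Nat.le_mul_of_pos_left δ hLD
          have h4 : D1 * δ ≤ L * D1 * δ := Nat.mul_le_mul_right _ (Nat.le_mul_of_pos_left D1 hL)
          have h5 : L * δ ≤ L * D1 * δ := Nat.mul_le_mul_right _ (Nat.le_mul_of_pos_right L hD)
          have h6 : (11 + L) * (512 * D1 * δ) = 5632 * (D1 * δ) + 512 * (L * D1 * δ) := by ring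
          have h7 : (9 + L) * δ = 9 * δ + L * δ := by ring
          have h8 : 8192 * L * D1 * δ ≤ d * δ := Nat.mul_le_mul_right _ hd2
          have h9 : 8192 * L * D1 * δ = 8192 * (L * D1 * δ) := by ring
          omega
  calc _ = ((6144 * r * n2).choose q : ℝ) * ((6144 * r * n2).choose h : ℝ) *
        (((6144 * r * n1).choose (δ * q) : ℝ) * (q : ℝ) ^ (δ * q) *
          ((δ : ℝ) / (64 * n1)) ^ (δ * q)) *
        ((h.choose d : ℝ) ^ (δ * q) * ((δ : ℝ) / (64 * n1)) ^ (d * (δ * q))) := by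
        push_cast
        rw [mul_pow, add_mul, one_mul, pow_add]
        ring
    _ ≤ (589824 * r * D1 * δ / x) ^ q * ((1152 * r / x) ^ (512 * D1 * δ)) ^ q *
        ((288 * r) ^ δ) ^ q * ((3 / 16 * x) ^ (d * δ)) ^ q := by
        apply mul_le_mul _ c4' (by positivity) (by positivity)
        apply mul_le_mul _ c3' (by positivity) (by positivity)
        exact mul_le_mul c1' c2' (by positivity) (by positivity)
    _ = (589824 * r * D1 * δ / x * (1152 * r / x) ^ (512 * D1 * δ) * (288 * r) ^ δ *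
      (3 / 16 * x) ^ (d * δ)) ^ q := by
        rw [mul_pow _ ((3 / 16 * x) ^ (d * δ)) q, mul_pow3]
    _ ≤ (1 / 8) ^ q := pow_le_pow_left₀ (by positivity) hbase q

end Pool.Agent.Lib.MP_366c56_co
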