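import Mathlib

set_option autoImplicit false
set_option linter.unusedSectionVars false
set_option linter.unusedVariables false

namespace Pool.Agent.Lib.MP_366c56_co

open Finset

section abstract

variable {R : Type*} [DecidableEq R] [Fintype R]

/-- The largest tight set. -/
lemma exists_maxTight (t : Finset R → ℤ) (h0 hm : ℕ)
    (hsub : ∀ X Y, t (X ∪ Y) + t (X ∩ Y) ≤ t X + t Y)
    (hnn : ∀ H, #H ≤ hm → 0 ≤ t H) (hempty : t ∅ = 0) (h2 : 2 * h0 ≤ hm)
    (hbig : ∀ H, h0 ≤ #H → #H ≤ hm → 0 < t H) :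
    ∃ Z : Finset R, #Z < h0 ∧ t Z = 0 ∧ ∀ H, #H ≤ hm → t H = 0 → H ⊆ Z := by
  classical
  have hsmall : ∀ H : Finset R, #H ≤ hm → t H = 0 → #H < h0 := by
    intro H h1 h3
    by_contra h
    have := hbig H (by omega) h1
    omega
  set F : Finset (Finset R) := univ.filter (fun H => #H ≤ hm ∧ t H = 0) with hF
  have hne : F.Nonempty := ⟨∅, by simp [hF, hempty]⟩
  obtain ⟨Z, hZ, hmax⟩ := exists_max_image F (fun H => #H) hne
  rw [hF, mem_filter] at hZ
  obtain ⟨-, hZm, hZt⟩ := hZ
  have hZ0 := hsmall Z hZm hZt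
  refine ⟨Z, hZ0, hZt, ?_⟩
  intro H hH hHt
  have hH0 := hsmall H hH hHt
  have hcu : #(H ∪ Z) ≤ hm := (card_union_le _ _).trans (by omega)
  have hci : #(H ∩ Z) ≤ hm := (card_le_card inter_subset_left).trans hH
  have h1 := hsub H Z
  have h4 := hnn _ hcu
  have h5 := hnn _ hci
  have h6 : t (H ∪ Z) = 0 := by omega
  have h7 := hmax (H ∪ Z) (by rw [hF, mem_filter]; exact ⟨mem_univ _, hcu, h6⟩)
  have h8 : Z = H ∪ Z := eq_of_subset_of_card_le subset_union_right h7
  rw [h8]
  exact subset_union_left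

/-- Hosts for one connector: an independent set of size `c`. -/
lemma exists_indep (t : Finset R → ℤ) (h0 hm : ℕ)
    (hsub : ∀ X Y, t (X ∪ Y) + t (X ∩ Y) ≤ t X + t Y)
    (hnn : ∀ H, #H ≤ hm → 0 ≤ t H) (hempty : t ∅ = 0) (h2 : 2 * h0 ≤ hm)
    (c : ℕ) (F : Finset R)
    (hbig : ∀ H, h0 ≤ #H → #H ≤ hm → (c : ℤ) ≤ t H) (h0pos : 0 < h0)
    (hF : ∀ H, #H ≤ hm → (c : ℤ) ≤ t H + #(F \ H)) :
    ∃ S ⊆ F, #S = c ∧ ∀ H, #H ≤ hm → (#(S ∩ H) : ℤ) ≤ t H := by
  classical
  suffices h : ∀ j ≤ c, ∃ S ⊆ F, #S = j ∧ ∀ H, #H ≤ hm → (#(S ∩ H) : ℤ) ≤ t H from h c le_rfl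
  intro j
  induction j with
  | zero => intro _; exact ⟨∅, empty_subset _, by simp, fun H hH => by simpa using hnn H hH⟩
  | succ j ih =>
    intro hj
    obtain ⟨S, hSF, hSj, hS⟩ := ih (by omega)
    obtain ⟨Z, hZ0, hZt, hZmax⟩ := exists_maxTight (fun H => t H - #(S ∩ H)) h0 hm
      (by
        intro X Y
        have h1 := hsub X Y
        have h3 : #(S ∩ (X ∪ Y)) + #(S ∩ (X ∩ Y)) = #(S ∩ X) + #(S ∩ Y) := by
          rw [inter_union_distrib_left, inter_inter_distrib_left]
          exact card_union_add_card_inter _ _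
        have h4 : (#(S ∩ (X ∪ Y)) : ℤ) + #(S ∩ (X ∩ Y)) = #(S ∩ X) + #(S ∩ Y) := by
          exact_mod_cast h3
        linarith)
      (by intro H hH; have := hS H hH; linarith)
      (by simp [hempty]) h2
      (by
        intro H h1 h3
        have h4 := hbig H h1 h3
        have h5 : #(S ∩ H) ≤ #S := card_le_card inter_subset_left
        have h6 : (#(S ∩ H) : ℤ) ≤ j := by rw [← hSj]; exact_mod_cast h5
        have h7 : (j : ℤ) + 1 ≤ c := by exact_mod_cast hj
        linarith)
    -- find a new element outside `Z`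
    have hex : ∃ y ∈ F, y ∉ S ∧ y ∉ Z := by
      by_contra hcon
      push Not at hcon
      have h1 := hF Z (by omega)
      have h3 : F \ Z ⊆ S \ Z := by
        intro y hy
        rw [mem_sdiff] at hy ⊢
        refine ⟨?_, hy.2⟩
        by_contra hyS
        exact hy.2 (hcon y hy.1 hyS)
      have h4 : #(F \ Z) ≤ #(S \ Z) := card_le_card h3
      have h5 : #(S ∩ Z) + #(S \ Z) = #S := card_inter_add_card_sdiff S Z
      have h6 : (#(F \ Z) : ℤ) ≤ #(S \ Z) := by exact_mod_cast h4
      have h7 : (#(S ∩ Z) : ℤ) + #(S \ Z) = j := by rw [← hSj]; exact_mod_cast h5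
      have h8 : (j : ℤ) + 1 ≤ c := by exact_mod_cast hj
      linarith
    obtain ⟨y, hyF, hyS, hyZ⟩ := hex
    refine ⟨insert y S, insert_subset hyF hSF, by rw [card_insert_of_notMem hyS, hSj], ?_⟩
    intro H hH
    have h1 := hS H hH
    by_cases hyH : y ∈ H
    · have h3 : t H - #(S ∩ H) ≠ 0 := fun h => hyZ (hZmax H hH h hyH)
      have h4 : #(insert y S ∩ H) ≤ #(S ∩ H) + 1 := by
        rw [insert_inter_of_mem hyH]
        exact card_insert_le _ _
      have h5 : (#(insert y S ∩ H) : ℤ) ≤ #(S ∩ H) + 1 := by exact_mod_cast h4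
      omega
    · rw [insert_inter_of_notMem hyH]
      exact h1

/-- Union bound for the submodular function. -/
lemma union_bound {W : Type*} [DecidableEq W] (t : Finset R → ℤ) (h0 hm m : ℕ)
    (hsub : ∀ X Y, t (X ∪ Y) + t (X ∩ Y) ≤ t X + t Y)
    (hnn : ∀ H, #H ≤ hm → 0 ≤ t H) (hempty : t ∅ = 0) (h2 : 2 * h0 ≤ hm) (h0pos : 0 < h0)
    (X : Finset W) (f : W → Finset R) (hf : ∀ w ∈ X, #(f w) < h0) (hft : ∀ w ∈ X, t (f w) ≤ m)
    (hbig : ∀ H, h0 ≤ #H → #H ≤ hm → ((m * #X : ℕ) : ℤ) < t H) :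
    #(X.biUnion f) < h0 ∧ t (X.biUnion f) ≤ ∑ w ∈ X, t (f w) := by
  classical
  suffices h : ∀ Y ⊆ X, #(Y.biUnion f) < h0 ∧ t (Y.biUnion f) ≤ ∑ w ∈ Y, t (f w) from
    h X subset_rfl
  intro Y
  induction Y using Finset.induction_on with
  | empty => intro _; simp [hempty, h0pos]
  | insert w Y hw ih =>
    intro hY
    have hYX : Y ⊆ X := (subset_insert _ _).trans hY
    have hwX : w ∈ X := hY (mem_insert_self _ _)
    obtain ⟨ih1, ih2⟩ := ih hYX
    have hw1 := hf w hwX
    have h3 := hsub (f w) (Y.biUnion f)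
    have h4 : 0 ≤ t (f w ∩ Y.biUnion f) :=
      hnn _ ((card_le_card inter_subset_left).trans (by omega))
    have h5 : #(f w ∪ Y.biUnion f) ≤ hm := (card_union_le _ _).trans (by omega)
    have h6 : t (f w ∪ Y.biUnion f) ≤ ∑ v ∈ insert w Y, t (f v) := by
      rw [sum_insert hw]; linarith
    rw [biUnion_insert]
    refine ⟨?_, h6⟩
    by_contra hcon
    have h7 := hbig _ (not_lt.1 hcon) h5
    have h8 : ∑ v ∈ insert w Y, t (f v) ≤ ((m * #X : ℕ) : ℤ) := by
      calc ∑ v ∈ insert w Y, t (f v) ≤ ∑ v ∈ insert w Y, (m : ℤ) :=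
            sum_le_sum (fun v hv => hft v (hY hv))
        _ = (m : ℤ) * #(insert w Y) := by rw [sum_const, nsmul_eq_mul, mul_comm]
        _ ≤ (m : ℤ) * #X := by
            apply mul_le_mul_of_nonneg_left _ (by positivity)
            exact_mod_cast card_le_card hY
        _ = ((m * #X : ℕ) : ℤ) := by push_cast; ring
    linarith

end abstract

section potential

variable {R Sub I : Type*} [DecidableEq R] [Fintype R] [DecidableEq I]

/-- Capacity of the client with subnodes `S` outside `H`. -/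
def cap (N : Sub → Finset R) (k : ℕ) (S : Finset Sub) (H : Finset R) : ℕ :=
  ∑ w ∈ S, min k #(N w \ H)

/-- Total deficiency of the clients in `J`. -/
def psi (N : Sub → Finset R) (k : ℕ) (S : I → Finset Sub) (dem : I → ℕ) (J : Finset I)
    (H : Finset R) : ℕ :=
  ∑ i ∈ J, (dem i - cap N k (S i) H)

lemma cap_anti (N : Sub → Finset R) (k : ℕ) (S : Finset Sub) {H H' : Finset R} (h : H ⊆ H') :
    cap N k S H' ≤ cap N k S H := by
  unfold cap
  exact sum_le_sum (fun w _ => min_le_min_left k (card_le_card (sdiff_subset_sdiff subset_rfl h)))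

lemma cap_sub (N : Sub → Finset R) (k : ℕ) (S : Finset Sub) (X Y : Finset R) :
    cap N k S (X ∪ Y) + cap N k S (X ∩ Y) ≤ cap N k S X + cap N k S Y := by
  unfold cap
  rw [← sum_add_distrib, ← sum_add_distrib]
  refine sum_le_sum (fun w _ => ?_)
  have h1 : #(N w \ (X ∪ Y)) + #(N w \ (X ∩ Y)) = #(N w \ X) + #(N w \ Y) := by
    have e1 : N w \ (X ∪ Y) = (N w \ X) ∩ (N w \ Y) := by ext a; simp; tauto
    have e2 : N w \ (X ∩ Y) = (N w \ X) ∪ (N w \ Y) := by ext a; simp; tauto
    rw [e1, e2, add_comm]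
    exact card_union_add_card_inter _ _
  have h2 : #(N w \ (X ∪ Y)) ≤ #(N w \ X) :=
    card_le_card (sdiff_subset_sdiff subset_rfl subset_union_left)
  have h3 : #(N w \ (X ∪ Y)) ≤ #(N w \ Y) :=
    card_le_card (sdiff_subset_sdiff subset_rfl subset_union_right)
  omega

lemma psi_sup (N : Sub → Finset R) (k : ℕ) (S : I → Finset Sub) (dem : I → ℕ) (J : Finset I)
    (X Y : Finset R) :
    psi N k S dem J X + psi N k S dem J Y ≤ psi N k S dem J (X ∪ Y) + psi N k S dem J (X ∩ Y) := by
  unfold psi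
  rw [← sum_add_distrib, ← sum_add_distrib]
  refine sum_le_sum (fun i _ => ?_)
  have h1 := cap_sub N k (S i) X Y
  have h2 := cap_anti N k (S i) (subset_union_left (s₁ := X) (s₂ := Y))
  have h3 := cap_anti N k (S i) (subset_union_right (s₁ := X) (s₂ := Y))
  omega

lemma psi_mono (N : Sub → Finset R) (k : ℕ) (S : I → Finset Sub) (dem : I → ℕ) (J : Finset I)
    {H H' : Finset R} (h : H ⊆ H') : psi N k S dem J H ≤ psi N k S dem J H' := by
  unfold psi
  refine sum_le_sum (fun i _ => ?_)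
  have := cap_anti N k (S i) h
  omega

lemma psi_mono_dem (N : Sub → Finset R) (k : ℕ) (S : I → Finset Sub) {dem dem' : I → ℕ}
    (J : Finset I) (H : Finset R) (h : ∀ i, dem i ≤ dem' i) :
    psi N k S dem J H ≤ psi N k S dem' J H := by
  unfold psi
  refine sum_le_sum (fun i _ => ?_)
  have := h i
  omega

lemma psi_erase (N : Sub → Finset R) (k : ℕ) (S : I → Finset Sub) (dem : I → ℕ)
    {J : Finset I} {i : I} (hi : i ∈ J) (H : Finset R) :
    psi N k S dem (J.erase i) H + (dem i - cap N k (S i) H) = psi N k S dem J H := by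
  unfold psi
  exact sum_erase_add _ _ hi

lemma psi_congr (N : Sub → Finset R) (k : ℕ) (S : I → Finset Sub) {dem dem' : I → ℕ}
    (J : Finset I) (H : Finset R) (h : ∀ i ∈ J, dem i = dem' i) :
    psi N k S dem J H = psi N k S dem' J H := by
  unfold psi
  exact sum_congr rfl (fun i hi => by rw [h i hi])

/-- Slack of the clients other than `i`. -/
def slk (N : Sub → Finset R) (k : ℕ) (S : I → Finset Sub) (dem : I → ℕ) (J : Finset I)
    (U : Finset R) (H : Finset R) : ℤ := (#(H \ U) : ℤ) - psi N k S dem J H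

lemma slk_sub (N : Sub → Finset R) (k : ℕ) (S : I → Finset Sub) (dem : I → ℕ) (J : Finset I)
    (U : Finset R) (X Y : Finset R) :
    slk N k S dem J U (X ∪ Y) + slk N k S dem J U (X ∩ Y) ≤
      slk N k S dem J U X + slk N k S dem J U Y := by
  unfold slk
  have h1 := psi_sup N k S dem J X Y
  have h2 : #((X ∪ Y) \ U) + #((X ∩ Y) \ U) = #(X \ U) + #(Y \ U) := by
    have e1 : (X ∪ Y) \ U = (X \ U) ∪ (Y \ U) := by ext a; simp; tauto
    have e2 : (X ∩ Y) \ U = (X \ U) ∩ (Y \ U) := by ext a; simp; tauto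
    rw [e1, e2]
    exact card_union_add_card_inter _ _
  have h3 : (#((X ∪ Y) \ U) : ℤ) + #((X ∩ Y) \ U) = #(X \ U) + #(Y \ U) := by exact_mod_cast h2
  have h4 : (psi N k S dem J X : ℤ) + psi N k S dem J Y ≤
    psi N k S dem J (X ∪ Y) + psi N k S dem J (X ∩ Y) := by exact_mod_cast h1
  linarith

lemma slk_union_used (N : Sub → Finset R) (k : ℕ) (S : I → Finset Sub) (dem : I → ℕ)
    (J : Finset I) (U H : Finset R) : slk N k S dem J U (H ∪ U) ≤ slk N k S dem J U H := by
  unfold slk
  have h1 : (H ∪ U) \ U = H \ U := by ext a; simp; tauto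
  have h2 := psi_mono N k S dem J (subset_union_left (s₁ := H) (s₂ := U))
  rw [h1]
  have h3 : (psi N k S dem J H : ℤ) ≤ psi N k S dem J (H ∪ U) := by exact_mod_cast h2
  linarith


/-- The potential is nonnegative on all small sets. -/
def Val (N : Sub → Finset R) (k : ℕ) (S : I → Finset Sub) (dem : I → ℕ) (J : Finset I)
    (U : Finset R) (hm : ℕ) : Prop := ∀ H : Finset R, #H ≤ hm → 0 ≤ slk N k S dem J U H

lemma psi_erase_le (N : Sub → Finset R) (k : ℕ) (S : I → Finset Sub) (dem : I → ℕ)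
    (J : Finset I) (i : I) (H : Finset R) :
    psi N k S dem (J.erase i) H ≤ psi N k S dem J H := by
  unfold psi
  exact sum_le_sum_of_subset (erase_subset _ _)

lemma slk_big (N : Sub → Finset R) (k n hm : ℕ) (S : I → Finset Sub) (dem dem0 : I → ℕ)
    (J : Finset I) (U : Finset R)
    (hhalf : ∀ H : Finset R, #H ≤ hm → 2 * psi N k S dem0 J H ≤ #H)
    (hdem : ∀ i, dem i ≤ dem0 i) (hU : #U ≤ n) (i : I) (H : Finset R) (h1 : 8 * n ≤ #H)
    (h2 : #H ≤ hm) : (3 * n : ℤ) ≤ slk N k S dem (J.erase i) U H := by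
  unfold slk
  have h3 := hhalf H h2
  have h4 := psi_erase_le N k S dem J i H
  have h5 := psi_mono_dem N k S J H hdem
  have h6 : #H ≤ #(H \ U) + #U := by
    have := card_le_card_sdiff_add_card (s := H) (t := U)
    omega
  omega

lemma slk_erase (N : Sub → Finset R) (k : ℕ) (S : I → Finset Sub) (dem : I → ℕ)
    {J : Finset I} {i : I} (hi : i ∈ J) (U H : Finset R) :
    slk N k S dem (J.erase i) U H = slk N k S dem J U H + (dem i - cap N k (S i) H : ℕ) := by
  unfold slk
  have := psi_erase N k S dem hi H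
  have h2 : (psi N k S dem (J.erase i) H : ℤ) + (dem i - cap N k (S i) H : ℕ) =
    psi N k S dem J H := by exact_mod_cast this
  linarith

lemma slk_erase_update (N : Sub → Finset R) (k : ℕ) (S : I → Finset Sub) (dem : I → ℕ)
    (J : Finset I) (i : I) (d : ℕ) (U H : Finset R) :
    slk N k S (Function.update dem i d) (J.erase i) U H = slk N k S dem (J.erase i) U H := by
  unfold slk
  rw [psi_congr N k S (J.erase i) H (dem := Function.update dem i d) (dem' := dem)]
  intro j hj
  rw [Function.update_of_ne (ne_of_mem_erase hj)]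

lemma slk_erase_nonneg (N : Sub → Finset R) (k hm : ℕ) (S : I → Finset Sub) (dem : I → ℕ)
    (J : Finset I) (U : Finset R) (hval : Val N k S dem J U hm) (i : I) (H : Finset R)
    (hH : #H ≤ hm) : 0 ≤ slk N k S dem (J.erase i) U H := by
  have h1 := hval H hH
  unfold slk at h1 ⊢
  have h2 := psi_erase_le N k S dem J i H
  have h3 : (psi N k S dem (J.erase i) H : ℤ) ≤ psi N k S dem J H := by exact_mod_cast h2
  linarith

lemma slk_empty (N : Sub → Finset R) (k hm : ℕ) (S : I → Finset Sub) (dem : I → ℕ)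
    (J : Finset I) (U : Finset R) (hval : 0 ≤ slk N k S dem J U ∅) :
    slk N k S dem J U ∅ = 0 := by
  unfold slk at hval ⊢
  simp only [empty_sdiff, card_empty] at hval ⊢
  push_cast at hval ⊢
  omega

lemma pstep (N : I → Finset R) (k n hm : ℕ) (dem dem0 : I → ℕ) (J : Finset I) (U : Finset R)
    (hm16 : hm = 16 * n) (hn : 0 < n)
    (hhalf : ∀ H : Finset R, #H ≤ hm → 2 * psi N k (fun i => {i}) dem0 J H ≤ #H)
    (hdem : ∀ i, dem i ≤ dem0 i) (hU : #U ≤ n)
    (hval : Val N k (fun i => {i}) dem J U hm) (i : I) (hi : i ∈ J) (hdi : 1 ≤ dem i) :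
    ∃ Av ⊆ N i \ U, dem i ≤ #Av ∧ ∀ w ∈ Av,
      Val N k (fun i => {i}) (Function.update dem i (dem i - 1)) J (insert w U) hm := by
  classical
  set t : Finset R → ℤ := slk N k (fun i => {i}) dem (J.erase i) U with ht
  have hnn : ∀ H, #H ≤ hm → 0 ≤ t H := fun H hH =>
    slk_erase_nonneg N k hm _ dem J U hval i H hH
  have hempty : t ∅ = 0 := slk_empty N k hm _ dem _ U (hnn ∅ (by simp))
  obtain ⟨Z, hZ0, hZt, hZmax⟩ := exists_maxTight t (8 * n) hm
    (fun X Y => slk_sub N k _ dem _ U X Y) hnn hempty (by omega)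
    (by
      intro H h1 h2
      have := slk_big N k n hm _ dem dem0 J U hhalf hdem hU i H h1 h2
      have h3 : (0 : ℤ) < 3 * n := by positivity
      exact lt_of_lt_of_le h3 this)
  have hUZ : U ⊆ Z := by
    have h1 : #(Z ∪ U) ≤ hm := (card_union_le _ _).trans (by omega)
    have h2 : t (Z ∪ U) = 0 := by
      apply le_antisymm _ (hnn _ h1)
      rw [← hZt]
      exact slk_union_used N k _ dem _ U Z
    exact subset_union_right.trans (hZmax _ h1 h2)
  have hcapZ : dem i ≤ cap N k {i} Z := by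
    have h1 := hval Z (by omega)
    have h2 := slk_erase N k (fun i => {i}) dem hi U Z
    rw [← ht, hZt] at h2
    omega
  have hcap1 : ∀ H, cap N k {i} H ≤ #(N i \ H) := by
    intro H
    unfold cap
    rw [sum_singleton]
    exact min_le_right _ _
  refine ⟨N i \ Z, sdiff_subset_sdiff subset_rfl hUZ, hcapZ.trans (hcap1 Z), ?_⟩
  intro w hw H hH
  rw [mem_sdiff] at hw
  have hwU : w ∉ U := fun h => hw.2 (hUZ h)
  have e1 := slk_erase N k (fun i => {i}) (Function.update dem i (dem i - 1)) hi (insert w U) H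
  rw [slk_erase_update, Function.update_self] at e1
  have e2 := slk_erase N k (fun i => {i}) dem hi U H
  have e3 := hval H hH
  by_cases hwH : w ∈ H
  · have h1 : #(H \ insert w U) + 1 = #(H \ U) := by
      have : H \ insert w U = (H \ U).erase w := by ext a; simp; tauto
      rw [this]
      exact card_erase_add_one (by simp [hwH, hwU])
    have h2 : slk N k (fun i => {i}) dem (J.erase i) (insert w U) H + 1 = t H := by
      rw [ht]; unfold slk
      have : (#(H \ insert w U) : ℤ) + 1 = #(H \ U) := by exact_mod_cast h1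
      linarith
    have h3 : t H ≠ 0 := fun h => hw.2 (hZmax H hH h hwH)
    have h4 := hnn H hH
    rw [← ht] at e2
    omega
  · have h1 : #(H \ insert w U) = #(H \ U) := by
      have : H \ insert w U = (H \ U) := by
        ext a; simp only [mem_sdiff, mem_insert]
        constructor
        · rintro ⟨h, h'⟩; exact ⟨h, fun h2 => h' (Or.inr h2)⟩
        · rintro ⟨h, h'⟩; exact ⟨h, fun h2 => by
            rcases h2 with rfl | h2
            · exact hwH h
            · exact h' h2⟩
      rw [this]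
    have h2 : slk N k (fun i => {i}) dem (J.erase i) (insert w U) H = t H := by
      rw [ht]; unfold slk
      rw [h1]
    rw [← ht] at e2
    omega

lemma fill (N : Sub → Finset R) (k n hm : ℕ) (S : I → Finset Sub) (dem dem0 : I → ℕ)
    (J : Finset I) (U : Finset R) (hm16 : hm = 16 * n) (hn : 0 < n)
    (hhalf : ∀ H : Finset R, #H ≤ hm → 2 * psi N k S dem0 J H ≤ #H)
    (hdem : ∀ i, dem i ≤ dem0 i) (hU : #U ≤ n)
    (hval : Val N k S dem J U hm) (i : I) (hi : i ∈ J) (c : ℕ) (hc : c ≤ 3 * n)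
    (F : Finset R) (hFU : Disjoint F U)
    (hF : ∀ H, U ⊆ H → #H ≤ 9 * n → (c : ℤ) ≤ slk N k S dem (J.erase i) U H + #(F \ H)) :
    ∃ S' ⊆ F, #S' = c ∧ Val N k S (Function.update dem i (dem i - c)) J (U ∪ S') hm := by
  classical
  set t : Finset R → ℤ := slk N k S dem (J.erase i) U with ht
  have hnn : ∀ H, #H ≤ hm → 0 ≤ t H := fun H hH =>
    slk_erase_nonneg N k hm _ dem J U hval i H hH
  have hempty : t ∅ = 0 := slk_empty N k hm _ dem _ U (hnn ∅ (by simp))
  have hbig : ∀ H, 8 * n ≤ #H → #H ≤ hm → (c : ℤ) ≤ t H := by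
    intro H h1 h2
    have := slk_big N k n hm _ dem dem0 J U hhalf hdem hU i H h1 h2
    have h3 : (c : ℤ) ≤ 3 * n := by exact_mod_cast hc
    exact h3.trans this
  obtain ⟨S', hSF, hSc, hS⟩ := exists_indep t (8 * n) hm (fun X Y => slk_sub N k _ dem _ U X Y)
    hnn hempty (by omega) c F hbig (by omega)
    (by
      intro H hH
      by_cases h8 : 8 * n ≤ #H
      · have := hbig H h8 hH
        have h1 : (0 : ℤ) ≤ #(F \ H) := by positivity
        linarith
      · have h1 := hF (H ∪ U) subset_union_right ((card_union_le _ _).trans (by omega))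
        have h2 := slk_union_used N k S dem (J.erase i) U H
        have h3 : F \ (H ∪ U) = F \ H := by
          ext a
          simp only [mem_sdiff, mem_union]
          constructor
          · rintro ⟨h, h'⟩; exact ⟨h, fun h2 => h' (Or.inl h2)⟩
          · rintro ⟨h, h'⟩
            exact ⟨h, fun h2 => by
              rcases h2 with h2 | h2
              · exact h' h2
              · exact (disjoint_left.1 hFU h) h2⟩
        rw [h3] at h1
        linarith)
  refine ⟨S', hSF, hSc, ?_⟩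
  intro H hH
  have e1 := slk_erase N k S (Function.update dem i (dem i - c)) hi (U ∪ S') H
  rw [slk_erase_update, Function.update_self] at e1
  have e2 := slk_erase N k S dem hi U H
  have e3 := hval H hH
  have e4 := hS H hH
  have h1 : #(H \ (U ∪ S')) + #(S' ∩ H) = #(H \ U) := by
    have h2 : H \ U = (H \ (U ∪ S')) ∪ (S' ∩ H) := by
      ext a
      have : a ∈ S' → a ∉ U := fun h => disjoint_left.1 hFU (hSF h)
      simp only [mem_sdiff, mem_union, mem_inter]
      tauto
    have h3 : Disjoint (H \ (U ∪ S')) (S' ∩ H) := by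
      rw [disjoint_left]
      intro a ha
      simp only [mem_sdiff, mem_union, mem_inter] at ha ⊢
      tauto
    rw [h2, card_union_of_disjoint h3]
  have h2 : slk N k S dem (J.erase i) (U ∪ S') H + #(S' ∩ H) = t H := by
    rw [ht]; unfold slk
    have : (#(H \ (U ∪ S')) : ℤ) + #(S' ∩ H) = #(H \ U) := by exact_mod_cast h1
    linarith
  have h3 : #(S' ∩ H) ≤ c := by rw [← hSc]; exact card_le_card inter_subset_left
  rw [← ht] at e2
  omega

end potential

end Pool.Agent.Lib.MP_366c56_co
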