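import Pool.Agent.Lib.MP_366c56_co.Num

set_option autoImplicit false
set_option linter.unusedSectionVars false
set_option linter.unusedVariables false

namespace Pool.Agent.Lib.MP_366c56_co

open Finset

section mu

variable {α : Type*}

open Classical in
/-- Proportion of the elements of `Ω` that satisfy `P`. -/
noncomputable def mu (Ω : Finset α) (P : α → Prop) : ℝ := (#(Ω.filter P) : ℝ) / #Ω

lemma mu_eq (Ω : Finset α) (P : α → Prop) [inst : DecidablePred P] :
    mu Ω P = (#(Ω.filter P) : ℝ) / #Ω := by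
  unfold mu
  congr!

lemma mu_mono (Ω : Finset α) (P Q : α → Prop) (h : ∀ ω ∈ Ω, P ω → Q ω) : mu Ω P ≤ mu Ω Q := by
  classical
  unfold mu
  apply div_le_div_of_nonneg_right _ (by positivity)
  have : Ω.filter P ⊆ Ω.filter Q := by
    intro ω hω
    rw [mem_filter] at hω ⊢
    exact ⟨hω.1, h ω hω.1 hω.2⟩
  exact_mod_cast card_le_card this

lemma mu_or (Ω : Finset α) (P Q : α → Prop) : mu Ω (fun ω => P ω ∨ Q ω) ≤ mu Ω P + mu Ω Q := by
  classical
  rw [mu_eq, mu_eq, mu_eq]
  rw [← add_div]
  apply div_le_div_of_nonneg_right _ (by positivity)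
  refine le_trans (Nat.cast_le.2 (card_le_card (t := Ω.filter P ∪ Ω.filter Q) ?_)) ?_
  · intro ω hω
    rw [mem_filter] at hω
    rw [mem_union, mem_filter, mem_filter]
    tauto
  · exact_mod_cast card_union_le _ _

lemma mu_exists_le {ι : Type*} (Ω : Finset α) (I : Finset ι) (P : ι → α → Prop) :
    mu Ω (fun ω => ∃ i ∈ I, P i ω) ≤ ∑ i ∈ I, mu Ω (P i) := by
  classical
  rw [mu_eq]
  simp_rw [mu_eq]
  rw [← sum_div]
  apply div_le_div_of_nonneg_right _ (by positivity)
  refine le_trans (Nat.cast_le.2 (card_le_card (t := I.biUnion (fun i => Ω.filter (P i))) ?_)) ?_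
  · intro ω hω
    rw [mem_filter] at hω
    obtain ⟨h, i, hi, hP⟩ := hω
    rw [mem_biUnion]
    exact ⟨i, hi, mem_filter.2 ⟨h, hP⟩⟩
  · exact_mod_cast card_biUnion_le

lemma mu_exists_le_const {ι : Type*} (Ω : Finset α) (I : Finset ι) (P : ι → α → Prop) (c : ℝ)
    (h : ∀ i ∈ I, mu Ω (P i) ≤ c) : mu Ω (fun ω => ∃ i ∈ I, P i ω) ≤ #I * c := by
  refine (mu_exists_le Ω I P).trans ?_
  calc ∑ i ∈ I, mu Ω (P i) ≤ ∑ i ∈ I, c := sum_le_sum h
    _ = #I * c := by rw [sum_const, nsmul_eq_mul]

lemma mu_nonneg (Ω : Finset α) (P : α → Prop) : 0 ≤ mu Ω P := by unfold mu; positivity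

lemma mu_false (Ω : Finset α) (P : α → Prop) (h : ∀ ω ∈ Ω, ¬ P ω) : mu Ω P = 0 := by
  classical
  unfold mu
  rw [filter_eq_empty_iff.2 (fun ω hω => h ω hω)]
  simp

lemma exists_of_mu_lt (Ω : Finset α) (hΩ : Ω.Nonempty) (P : α → Prop) (h : mu Ω P < 1) :
    ∃ ω ∈ Ω, ¬ P ω := by
  classical
  by_contra hcon
  push Not at hcon
  unfold mu at h
  rw [filter_true_of_mem hcon, div_self] at h
  · exact absurd h (lt_irrefl 1)
  · have := card_pos.2 hΩ
    positivity

end mu

section model

lemma choose_ratio (a M x : ℕ) (hx : x ≤ M) (hM : M ≤ a) :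
    (a - x).choose (M - x) * a ^ x ≤ a.choose M * M ^ x := by
  induction x with
  | zero => simp
  | succ x ih =>
    have ih' := ih (by omega)
    obtain ⟨m, hm⟩ : ∃ m, M = x + 1 + m := ⟨M - (x + 1), by omega⟩
    obtain ⟨c, hc⟩ : ∃ c, a = x + 1 + c := ⟨a - (x + 1), by omega⟩
    have e1 : a - (x + 1) = c := by omega
    have e2 : M - (x + 1) = m := by omega
    have e3 : a - x = c + 1 := by omega
    have e4 : M - x = m + 1 := by omega
    rw [e1, e2]
    rw [e3, e4] at ih'
    have h1 : (c + 1) * c.choose m = (c + 1).choose (m + 1) * (m + 1) :=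
      Nat.add_one_mul_choose_eq c m
    have hmc : m ≤ c := by omega
    have h2 : (m + 1) * a ≤ M * (c + 1) := by
      rw [hm, hc]; nlinarith
    have h3 : (c + 1) * (c.choose m * a ^ (x + 1)) ≤ (c + 1) * (a.choose M * M ^ (x + 1)) := by
      calc (c + 1) * (c.choose m * a ^ (x + 1)) = ((c + 1) * c.choose m) * a * a ^ x := by ring
        _ = (c + 1).choose (m + 1) * a ^ x * ((m + 1) * a) := by rw [h1]; ring
        _ ≤ (a.choose M * M ^ x) * (M * (c + 1)) := Nat.mul_le_mul ih' h2
        _ = (c + 1) * (a.choose M * M ^ (x + 1)) := by ring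
    exact Nat.le_of_mul_le_mul_left h3 (by omega)

variable {A B : Type*} [Fintype A] [DecidableEq A] [Fintype B] [DecidableEq B]

lemma card_superset (M : ℕ) (X : Finset A) (hX : #X ≤ M) :
    #((powersetCard M (univ : Finset A)).filter (fun s => X ⊆ s)) =
      (Fintype.card A - #X).choose (M - #X) := by
  have h1 : #(univ \ X : Finset A) = Fintype.card A - #X := by
    rw [card_sdiff_of_subset (subset_univ X), card_univ]
  rw [← h1, ← card_powersetCard]
  apply card_nbij' (fun s => s \ X) (fun s => s ∪ X)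
  · intro s hs
    rw [mem_coe, mem_filter, mem_powersetCard] at hs
    rw [mem_coe, mem_powersetCard]
    refine ⟨sdiff_subset_sdiff (subset_univ s) subset_rfl, ?_⟩
    rw [card_sdiff_of_subset hs.2, hs.1.2]
  · intro s hs
    rw [mem_coe, mem_powersetCard] at hs
    rw [mem_coe, mem_filter, mem_powersetCard]
    refine ⟨⟨subset_univ _, ?_⟩, subset_union_right⟩
    rw [card_union_of_disjoint, hs.2]
    · omega
    · exact disjoint_of_subset_left hs.1 disjoint_sdiff_self_left
  · intro s hs
    rw [mem_coe, mem_filter, mem_powersetCard] at hs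
    exact sdiff_union_of_subset hs.2
  · intro s hs
    rw [mem_coe, mem_powersetCard] at hs
    have : Disjoint s X := disjoint_of_subset_left hs.1 disjoint_sdiff_self_left
    simp only
    rw [union_sdiff_right]
    exact sdiff_eq_self_of_disjoint this

lemma superset_ratio (M : ℕ) (hM : M ≤ Fintype.card A) (hA : 0 < Fintype.card A) (X : Finset A) :
    (#((powersetCard M (univ : Finset A)).filter (fun s => X ⊆ s)) : ℝ) /
      #(powersetCard M (univ : Finset A)) ≤ ((M : ℝ) / Fintype.card A) ^ #X := by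
  have hΩ : (0 : ℝ) < #(powersetCard M (univ : Finset A)) := by
    rw [card_powersetCard, card_univ]
    exact_mod_cast Nat.choose_pos hM
  have ha : (0 : ℝ) < Fintype.card A := by exact_mod_cast hA
  rw [div_pow, div_le_div_iff₀ hΩ (by positivity)]
  by_cases hX : #X ≤ M
  · rw [card_superset M X hX, card_powersetCard, card_univ]
    have := choose_ratio (Fintype.card A) M #X hX hM
    calc _ ≤ (((Fintype.card A).choose M * M ^ #X : ℕ) : ℝ) := by exact_mod_cast this
      _ = _ := by push_cast; ring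
  · have : (powersetCard M (univ : Finset A)).filter (fun s => X ⊆ s) = ∅ := by
      rw [filter_eq_empty_iff]
      intro s hs hXs
      rw [mem_powersetCard] at hs
      have := card_le_card hXs
      omega
    rw [this]
    simp only [card_empty, Nat.cast_zero, zero_mul]
    positivity

/-- The random host: every vertex of `B` picks `M` neighbours. -/
def Om (A B : Type*) [Fintype A] [DecidableEq A] [Fintype B] [DecidableEq B] (M : ℕ) :
    Finset (B → Finset A) := Fintype.piFinset (fun _ => powersetCard M (univ : Finset A))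

lemma mu_edges (M : ℕ) (hM : M ≤ Fintype.card A) (hA : 0 < Fintype.card A)
    (E0 : Finset (B × A)) :
    mu (Om A B M) (fun G => ∀ e ∈ E0, e.2 ∈ G e.1) ≤ ((M : ℝ) / Fintype.card A) ^ #E0 := by
  classical
  set X : B → Finset A := fun b => (E0.filter (fun e => e.1 = b)).image (fun e => e.2) with hX
  have hXc : ∀ b, #(X b) = #(E0.filter (fun e => e.1 = b)) := by
    intro b
    apply card_image_of_injOn
    intro e he e' he' h
    rw [mem_coe, mem_filter] at he he'
    exact Prod.ext (he.2.trans he'.2.symm) h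
  have hsum : ∑ b, #(X b) = #E0 := by
    simp_rw [hXc]
    exact (card_eq_sum_card_fiberwise (fun e _ => mem_univ e.1)).symm
  have hfil : (Om A B M).filter (fun G => ∀ e ∈ E0, e.2 ∈ G e.1) =
      Fintype.piFinset (fun b => (powersetCard M (univ : Finset A)).filter (fun s => X b ⊆ s)) := by
    ext G
    rw [mem_filter, Om, Fintype.mem_piFinset, Fintype.mem_piFinset]
    constructor
    · rintro ⟨h1, h2⟩ b
      rw [mem_filter]
      refine ⟨h1 b, ?_⟩
      intro a ha
      rw [hX] at ha
      simp only [mem_image, mem_filter] at ha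
      obtain ⟨e, ⟨he, rfl⟩, rfl⟩ := ha
      exact h2 e he
    · intro h
      refine ⟨fun b => (mem_filter.1 (h b)).1, ?_⟩
      intro e he
      apply (mem_filter.1 (h e.1)).2
      rw [hX]
      simp only [mem_image, mem_filter]
      exact ⟨e, ⟨he, rfl⟩, rfl⟩
  rw [mu_eq]
  have h1 : ((Om A B M).filter (fun G => ∀ e ∈ E0, e.2 ∈ G e.1)) = _ := hfil
  have h2 : (#((Om A B M).filter (fun G => ∀ e ∈ E0, e.2 ∈ G e.1)) : ℝ) =
      ∏ b, (#((powersetCard M (univ : Finset A)).filter (fun s => X b ⊆ s)) : ℝ) := by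
    rw [h1, Fintype.card_piFinset]
    push_cast
    rfl
  have h3 : (#(Om A B M) : ℝ) = ∏ b : B, (#(powersetCard M (univ : Finset A)) : ℝ) := by
    rw [Om, Fintype.card_piFinset]
    push_cast
    rfl
  have h4 : (#((Om A B M).filter (fun G => ∀ e ∈ E0, e.2 ∈ G e.1)) : ℝ) / #(Om A B M) ≤
      ((M : ℝ) / Fintype.card A) ^ #E0 := by
    rw [h2, h3, ← prod_div_distrib, ← hsum, ← prod_pow_eq_pow_sum]
    apply prod_le_prod
    · intro b _; positivity
    · intro b _; exact superset_ratio M hM hA (X b)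
  exact h4

end model

end Pool.Agent.Lib.MP_366c56_co
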